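import Pool.Agent.MP_28f2cb_lc.H85.HE

/-! The norm theorem for the square root of a positive integer over any number field. -/

namespace Pool.Agent.MP_28f2cb_lc.H85.CF

open NumberField IsDedekindDomain Pool.Agent.MP_db5b97_nt Pool.Agent.MP_db5b97_nt.H85

section

variable {k : Type} [Field k] [NumberField k]

theorem newton {l : ℕ} (hl : l ≠ 0) (h2 : 2 ∣ l) (M : ℕ) (x : Un k) (hx : x ∈ Ray k l 3) :
    ∃ y : Un k, x - 2 • y ∈ Ray k l (M + 3) := by
  induction M with
  | zero => exact ⟨0, by simpa using hx⟩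
  | succ M ih =>
    obtain ⟨y, hy⟩ := ih
    obtain ⟨c, hc⟩ := h2
    obtain ⟨u, hu, e⟩ := (mem_Ray_iff hl (by omega)).1 hy
    have hcu : (c : k) * u ∈ Rl k l := mul_mem (natCast_mem _ c) hu
    have hl2 : (l : k) = 2 * c := by rw [hc]; push_cast; ring
    have hz : (1 : k) + (l : k) ^ (M + 2) * (c * u) ≠ 0 := by
      intro h0
      obtain ⟨p, hp, hpl⟩ := Nat.exists_prime_and_dvd (n := l) (by omega)
      obtain ⟨w, hw⟩ : ∃ w : Sp k, (l : 𝓞 k) ∈ w.asIdeal := by
        have : Ideal.span {(l : 𝓞 k)} ≠ ⊤ := by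
          intro ht
          have h1 := congrArg Ideal.absNorm ht
          rw [Ideal.absNorm_span_natCast, Ideal.absNorm_top, pow_eq_one_iff] at h1
          rcases h1 with h1 | h1
          · omega
          · exact Module.finrank_pos.ne' h1
        obtain ⟨P, hP, hle⟩ := Ideal.exists_le_maximal _ this
        have hm : (l : 𝓞 k) ∈ P := hle (Ideal.mem_span_singleton_self _)
        refine ⟨⟨P, hP.isPrime, fun hb => ?_⟩, hm⟩
        rw [hb, Ideal.mem_bot] at hm
        exact hl (by exact_mod_cast hm)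
      have := val_one_add hw hl (y := (l : k) ^ (M + 1) * (c * u))
        (mul_mem (pow_mem (natCast_mem _ l) _) hcu)
      rw [← mul_assoc, ← pow_succ', h0] at this
      simp at this
    have hzR : Un.mk _ hz ∈ Ray k l (M + 2) := (mem_Ray_iff hl (by omega)).2 ⟨_, hcu, rfl⟩
    have hzi := ((mem_Ru_iff hl).1 hzR.1).2
    rw [Un.val_mk] at hzi
    refine ⟨y + Un.mk _ hz, (mem_Ray_iff hl (by omega)).2
      ⟨-((l : k) ^ M * (c * u) ^ 2 * ((1 + (l : k) ^ (M + 2) * (c * u))⁻¹) ^ 2),
        neg_mem (mul_mem (mul_mem (pow_mem (natCast_mem _ l) _) (pow_mem hcu _)) (pow_mem hzi _)), ?_⟩⟩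
    rw [smul_add, ← sub_sub, Un.val_sub, e, Un.val_nsmul, Un.val_mk]
    generalize hg : (1 : k) + (l : k) ^ (M + 2) * (c * u) = g at hz
    field_simp
    rw [← hg, pow_succ (l : k) (M + 2)]
    nth_rewrite 2 [hl2]
    ring

variable {F : Type} [Field F] [NumberField F] [Algebra k F]

theorem val_smul {G : Type} [Group G] [MulSemiringAction G F] (s : G) (w : Sp F) (x : F) :
    (s • w).valuation F (s • x) = w.valuation F x := by
  by_cases hx : x = 0
  · simp [hx]
  · have := NT2.ord_smul F G s w (Un.mk x hx)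
    have h1 := val_eq_exp (s • w) (s • Un.mk x hx)
    have h2 := val_eq_exp w (Un.mk x hx)
    rw [this] at h1
    exact h1.trans h2.symm

theorem core (β : ℤ) (hβ : 0 < β) (G : Type) [Group G] [MulSemiringAction G F]
    [IsGaloisGroup G k F] (σ : G) (hG : Nat.card G = 2) (hσ : σ ≠ 1) (θ : F)
    (hθ : θ ^ 2 = β) (hs : σ • θ = -θ) (hb : ∀ x : F, ∃ a b : k, x = algebraMap k F a + algebraMap k F b * θ)
    (l : ℕ) (hl : l ≠ 0) (h2 : 2 ∣ l)
    (hu : ∀ v : Sp k, (l : 𝓞 k) ∉ v.asIdeal → v.valuation k (β : k) = 1) (x : k) (hx : x ≠ 0)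
    (hin : ∀ v : Sp k, (l : 𝓞 k) ∈ v.asIdeal → v.valuation k (x - 1) ≤ v.valuation k (l : k) ^ 3)
    (hout : ∀ v : Sp k, (l : 𝓞 k) ∉ v.asIdeal → (∃ z : k, v.valuation k x = v.valuation k z ^ 2) ∨
      ∃ b : k, v.valuation k b ≤ 1 ∧ v.valuation k (β - b ^ 2) < 1) :
    ∃ Y Z : k, x = Y ^ 2 - β * Z ^ 2 := by
  have : Finite G := Nat.finite_of_card_ne_zero (by omega)
  have : Fact (Nat.Prime 2) := ⟨Nat.prime_two⟩
  have hgal := IsGaloisGroup.isGalois G k F
  have hl2 : 2 ≤ l := Nat.le_of_dvd (Nat.pos_of_ne_zero hl) h2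
  have hall : ∀ s : G, s ≠ 1 → s = σ := fun s hs1 => by
    obtain ⟨a, -, ha⟩ := (Nat.card_eq_two_iff' (1 : G)).1 hG
    rw [ha s hs1, ha σ hσ]
  have hθi : IsIntegral ℤ θ := by
    refine IsIntegral.of_pow two_pos ?_
    rw [hθ]
    exact isIntegral_algebraMap (x := β)
  have v2 : ∀ w : Sp F, (l : 𝓞 F) ∉ w.asIdeal → w.valuation F (2 * θ) = 1 := by
    intro w hw
    have a1 : w.valuation F (2 : F) = 1 := by
      have : ((2 : ℕ) : 𝓞 F) ∉ w.asIdeal := fun h => hw (by
        obtain ⟨c, hc⟩ := h2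
        rw [hc, Nat.cast_mul]
        exact Ideal.mul_mem_right _ _ h)
      have h := (val_eq_one_iff w ((2 : ℕ) : 𝓞 F)).2 this
      rwa [show (((2 : ℕ) : 𝓞 F) : F) = 2 from map_ofNat (algebraMap (𝓞 F) F) 2] at h
    have a2 : w.valuation F θ ^ 2 = 1 := by
      rw [← map_pow, hθ, ← map_intCast (algebraMap k F), NT2.val_inc k w,
        hu _ fun h => hw ((NT2.nat_mem k l w).1 h), one_pow]
    rw [map_mul, a1, one_mul]
    exact (pow_eq_one_iff_of_nonneg zero_le two_ne_zero).1 a2
  have hun : Unr k F l := by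
    obtain ⟨t, ht⟩ : ∃ t : 𝓞 F, (t : F) = θ := ⟨⟨θ, hθi⟩, rfl⟩
    refine NT2.unr k F G l fun s hs1 w => ⟨t, ?_⟩
    rw [← val_eq_one_iff, hall s hs1]
    have : ((σ • t - t : 𝓞 F) : F) = -(2 * θ) := by
      have : ((σ • t : 𝓞 F) : F) = σ • (t : F) := rfl
      rw [RingOfIntegers.coe_eq_algebraMap, map_sub, ← RingOfIntegers.coe_eq_algebraMap, this,
        ← RingOfIntegers.coe_eq_algebraMap, ht, hs]
      ring
    rw [this, Valuation.map_neg]
    exact v2 w.1 w.2
  have hinf : IsUnramifiedAtInfinitePlaces k F := by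
    refine ⟨fun w => InfinitePlace.isUnramified_iff.2 ?_⟩
    rw [← InfinitePlace.not_isReal_iff_isComplex, or_iff_not_imp_right, not_not]
    intro hr
    rw [← InfinitePlace.mk_embedding w, InfinitePlace.comap_mk, InfinitePlace.isReal_mk_iff,
      ComplexEmbedding.isReal_iff] at hr
    rw [← InfinitePlace.mk_embedding w, InfinitePlace.isReal_mk_iff, ComplexEmbedding.isReal_iff]
    ext y
    obtain ⟨a, b, rfl⟩ := hb y
    have h1 : ∀ a : k, starRingEnd ℂ (w.embedding (algebraMap k F a)) =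
        w.embedding (algebraMap k F a) := fun a => by
      simpa [ComplexEmbedding.conjugate_coe_eq] using RingHom.congr_fun hr a
    have h3 : starRingEnd ℂ (w.embedding θ) = w.embedding θ := by
      have e : (w.embedding θ) ^ 2 = (β : ℂ) := by rw [← map_pow, hθ, map_intCast]
      have e1 := congrArg Complex.re e
      have e2 := congrArg Complex.im e
      simp only [sq, Complex.mul_re, Complex.mul_im, Complex.intCast_re, Complex.intCast_im] at e1 e2
      rw [Complex.conj_eq_iff_im]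
      have hb' : (0 : ℝ) < β := by exact_mod_cast hβ
      by_contra hne
      have : (w.embedding θ).re = 0 := by
        have : (w.embedding θ).re * (w.embedding θ).im = 0 := by linarith
        exact (mul_eq_zero.1 this).resolve_right hne
      rw [this] at e1
      nlinarith [mul_self_nonneg (w.embedding θ).im]
    simp only [ComplexEmbedding.conjugate_coe_eq, map_add, map_mul, h1, h3]
  have hr : Units.rank F = 2 * Units.rank k + (2 - 1) := by
    have e := IsUnramifiedAtInfinitePlaces.card_infinitePlace k F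
    rw [← IsGaloisGroup.card_eq_finrank G k F, hG] at e
    have : 0 < Fintype.card (InfinitePlace k) := Fintype.card_pos
    rw [Units.rank, Units.rank, e]
    omega
  obtain ⟨M, hM⟩ := rowLAY' 2 Nat.prime_two k F G σ l hG hσ hl2 hr hun
  have hx3 : Un.mk x hx ∈ Ray k l 3 := by
    refine ⟨fun v hv => ?_, hin⟩
    have : v.valuation k (x - 1) < 1 :=
      (hin v hv).trans_lt (pow_lt_one₀ zero_le (val_nat_lt_one hv) three_ne_zero)
    have h1 := Valuation.map_one_add_of_lt _ this
    rwa [add_sub_cancel] at h1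
  obtain ⟨y, hy⟩ := newton hl h2 M _ hx3
  have two : ∀ v : Pr k l, Finsupp.single v (2 : ℤ) ∈ (nrD F l k).range := by
    intro v
    obtain ⟨w, rfl⟩ := H19.exists_over k (E := F) v
    have e := H19.efg k (G := G) w
    rw [hG] at e
    have hd : H19.fd k w ∣ 2 := Dvd.intro_left _ ((mul_assoc _ _ _).trans e)
    obtain ⟨c, hc⟩ := hd
    refine ⟨c • Finsupp.single w 1, ?_⟩
    rw [map_nsmul, H19.nrD_single, Finsupp.smul_single, nsmul_eq_mul, mul_comm]
    congr 1
    exact_mod_cast hc.symm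
  have one : ∀ v : Pr k l, ∀ b : k, v.1.valuation k b ≤ 1 → v.1.valuation k (β - b ^ 2) < 1 →
      Finsupp.single v (1 : ℤ) ∈ (nrD F l k).range := by
    intro v b hb1 hb2
    obtain ⟨w, rfl⟩ := H19.exists_over k (E := F) v
    have hne : σ • w ≠ w := by
      intro hw
      have hw' : σ • w.1 = w.1 := congrArg Subtype.val hw
      have e1 : w.1.valuation F ((θ - algebraMap k F b) * (θ + algebraMap k F b)) < 1 := by
        have : (θ - algebraMap k F b) * (θ + algebraMap k F b) = algebraMap k F (β - b ^ 2) := by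
          rw [map_sub, map_pow, map_intCast, ← hθ]; ring
        rw [this, NT2.val_inc k w.1]
        exact pow_lt_one₀ zero_le hb2 (NT2.ram_ne k w.1)
      have e2 : w.1.valuation F (θ + algebraMap k F b) = w.1.valuation F (θ - algebraMap k F b) := by
        rw [← val_smul σ w.1 (θ - algebraMap k F b), hw', smul_sub, hs, smul_algebraMap,
          ← Valuation.map_neg]
        congr 1; ring
      rw [map_mul, e2, ← sq, pow_lt_one_iff_of_nonneg zero_le two_ne_zero] at e1
      have e3 : w.1.valuation F (θ - algebraMap k F b + (θ + algebraMap k F b)) < 1 :=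
        Valuation.map_add_lt _ e1 (e2 ▸ e1)
      rw [show θ - algebraMap k F b + (θ + algebraMap k F b) = 2 * θ by ring, v2 w.1 w.2] at e3
      exact lt_irrefl _ e3
    refine ⟨Finsupp.single w 1, ?_⟩
    rw [H19.nrD_single, H19.fd_of_ne k Nat.prime_two hG hne, Nat.cast_one]
  have hD : dv k l (Un.mk x hx - 2 • y) ∈ (nrD F l k).range := by
    rw [← Finsupp.sum_single (dv k l _), Finsupp.sum]
    refine sum_mem fun v _ => ?_
    rcases hout v.1 v.2 with ⟨z, hz⟩ | ⟨b, hb1, hb2⟩
    · have hz0 : z ≠ 0 := by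
        rintro rfl
        simp [hx] at hz
      have e : ord v.1 (Un.mk x hx) = 2 * ord v.1 (Un.mk z hz0) := by
        rw [ord_apply, ord_apply, Un.val_mk, Un.val_mk, hz, WithZero.log_pow]
        simp
      have : Finsupp.single v (dv k l (Un.mk x hx - 2 • y) v) =
          (ord v.1 (Un.mk z hz0) - ord v.1 y) • Finsupp.single v (2 : ℤ) := by
        rw [dv_apply, map_sub, map_nsmul, e, Finsupp.smul_single]
        congr 1
        simp only [nsmul_eq_mul, smul_eq_mul]
        push_cast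
        ring
      rw [this]
      exact zsmul_mem (two v) _
    · have : Finsupp.single v (dv k l (Un.mk x hx - 2 • y) v) =
          (dv k l (Un.mk x hx - 2 • y) v) • Finsupp.single v (1 : ℤ) := by
        rw [Finsupp.smul_single, smul_eq_mul, mul_one]
      rw [this]
      exact zsmul_mem (one v b hb1 hb2) _
  obtain ⟨t, ht⟩ := hM _ (Ray_anti (Nat.le_add_right M 3) hy) hD
  obtain ⟨a, b, hab⟩ := hb t.val
  have e := congrArg Un.val (NT2.inc_nrm k F G σ 2 Nat.prime_two hG hσ t)
  rw [ht, Nm_apply, Finset.sum_range_succ, Finset.sum_range_one, pow_zero, one_smul, pow_one,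
    Un.val_add, Un.val_smul, hab, smul_add, smul_mul', smul_algebraMap, smul_algebraMap, hs,
    Un.val_inc, Un.val_sub, Un.val_nsmul, Un.val_mk] at e
  have e' : x / y.val ^ 2 = a ^ 2 - β * b ^ 2 := by
    apply (algebraMap k F).injective
    rw [e, map_sub, map_mul, map_pow, map_pow, map_intCast, ← hθ]
    ring
  refine ⟨y.val * a, y.val * b, ?_⟩
  rw [div_eq_iff (pow_ne_zero 2 y.val_ne)] at e'
  rw [e']
  ring

theorem HN (β : ℤ) (hβ : 0 < β) (l : ℕ) (hl : l ≠ 0) (h2 : 2 ∣ l)
    (hu : ∀ v : Sp k, (l : 𝓞 k) ∉ v.asIdeal → v.valuation k (β : k) = 1) (x : k) (hx : x ≠ 0)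
    (hin : ∀ v : Sp k, (l : 𝓞 k) ∈ v.asIdeal → v.valuation k (x - 1) ≤ v.valuation k (l : k) ^ 3)
    (hout : ∀ v : Sp k, (l : 𝓞 k) ∉ v.asIdeal → (∃ z : k, v.valuation k x = v.valuation k z ^ 2) ∨
      ∃ b : k, v.valuation k b ≤ 1 ∧ v.valuation k (β - b ^ 2) < 1) :
    ∃ Y Z : k, x = Y ^ 2 - β * Z ^ 2 := by
  by_cases hsq : ∃ r : k, r ^ 2 = β
  · obtain ⟨r, hr⟩ := hsq
    have hr0 : r ≠ 0 := by
      rintro rfl
      have : (β : k) = 0 := by rw [← hr]; ring
      exact hβ.ne' (by exact_mod_cast this)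
    refine ⟨(x + 1) / 2, (x - 1) / (2 * r), ?_⟩
    rw [← hr]
    field_simp
    ring
  · push Not at hsq
    have : Fact (∀ r : k, r ^ 2 ≠ (β : k) + 0 * r) := ⟨fun r => by simpa using hsq r⟩
    let F := QuadraticAlgebra k (β : k) 0
    have : CharZero F := algebraRat.charZero F
    have : NumberField F := NumberField.of_module_finite k F
    have : Algebra.IsQuadraticExtension k F := ⟨QuadraticAlgebra.finrank_eq_two _ _⟩
    have hG : Nat.card Gal(F/k) = 2 := by
      rw [IsGaloisGroup.card_eq_finrank Gal(F/k) k F]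
      exact QuadraticAlgebra.finrank_eq_two _ _
    let σ : Gal(F/k) := AlgEquiv.ofRingEquiv (f := starRingAut) fun a => by
      ext <;> simp [F]
    have hs : σ • (QuadraticAlgebra.omega : F) = -QuadraticAlgebra.omega := by
      show star (QuadraticAlgebra.omega : F) = _
      ext <;> simp
    refine core β hβ Gal(F/k) σ hG (fun h => ?_) QuadraticAlgebra.omega ?_ hs (fun y => ?_) l hl h2 hu
      x hx hin hout
    · rw [h, one_smul] at hs
      have := congrArg QuadraticAlgebra.im hs
      simp at this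
      exact absurd this (by norm_num)
    · ext <;> simp [sq]
    · exact ⟨y.re, y.im, by ext <;> simp⟩

end

end Pool.Agent.MP_28f2cb_lc.H85.CF
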