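import Pool.Agent.MP_28f2cb_lc.H85.HC

/-! Approximation with one extra prime; pure quaternions with prescribed square. -/

namespace Pool.Agent.MP_28f2cb_lc.H85

theorem crt_int (S : Finset ℕ) (hS : ∀ p ∈ S, p.Prime) (k : ℕ) (r : ℕ → ℤ) :
    ∃ x : ℤ, ∀ p ∈ S, (p : ℤ) ^ k ∣ x - r p := by
  induction S using Finset.induction_on with
  | empty => exact ⟨0, by simp⟩
  | insert q S hq ih =>
    obtain ⟨x, hx⟩ := ih fun p hp => hS p (Finset.mem_insert_of_mem hp)
    have hc : IsCoprime ((q : ℤ) ^ k) (∏ p ∈ S, (p : ℤ) ^ k) := by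
      apply IsCoprime.prod_right
      intro p hp
      apply IsCoprime.pow
      rw [Nat.isCoprime_iff_coprime]
      exact (Nat.coprime_primes (hS q (Finset.mem_insert_self _ _))
        (hS p (Finset.mem_insert_of_mem hp))).2 (by rintro rfl; exact hq hp)
    obtain ⟨u, v, huv⟩ := hc
    refine ⟨x + (r q - x) * v * ∏ p ∈ S, (p : ℤ) ^ k, fun p hp => ?_⟩
    rcases Finset.mem_insert.1 hp with rfl | hp
    · exact ⟨-(r p - x) * u, by linear_combination (r p - x) * huv⟩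
    · rw [show x + (r q - x) * v * ∏ p ∈ S, (p : ℤ) ^ k - r p =
        x - r p + (r q - x) * v * ∏ p ∈ S, (p : ℤ) ^ k by ring]
      exact dvd_add (hx p hp) (Dvd.dvd.mul_left (Finset.dvd_prod_of_mem _ hp) _)

theorem val_prime {p q : ℕ} (hp : p.Prime) (hq : q.Prime) (h : p ≠ q) : padicValRat p q = 0 := by
  have := padicValRat.of_int (p := p) (z := (q : ℤ))
  rw [padicValInt.eq_zero_of_not_dvd (nd_prime hp hq h)] at this
  simpa using this

theorem prod_ne (S : Finset ℕ) (hS : ∀ p ∈ S, p.Prime) (v : ℕ → ℤ) :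
    0 < ∏ q ∈ S, (q : ℚ) ^ v q :=
  Finset.prod_pos fun q hq => zpow_pos (by exact_mod_cast (hS q hq).pos) _

theorem val_prod (p : ℕ) [hp : Fact p.Prime] (S : Finset ℕ) (hS : ∀ p ∈ S, p.Prime) (v : ℕ → ℤ) :
    padicValRat p (∏ q ∈ S, (q : ℚ) ^ v q) = if p ∈ S then v p else 0 := by
  induction S using Finset.induction_on with
  | empty => simp
  | insert q S hq ih =>
    have h1 := hS q (Finset.mem_insert_self _ _)
    have h2 : ∀ p ∈ S, p.Prime := fun p hp => hS p (Finset.mem_insert_of_mem hp)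
    rw [Finset.prod_insert hq, padicValRat.mul (zpow_ne_zero _ (by exact_mod_cast h1.ne_zero))
      (prod_ne S h2 v).ne', ih h2, padicValRat.zpow]
    by_cases e : p = q
    · subst e
      simp [hq, padicValRat.self hp.out.one_lt]
    · simp [e, val_prime hp.out h1 e]

theorem sm_div (p : ℕ) [hp : Fact p.Prime] {k : ℕ} {x m : ℤ} (hx : (p : ℤ) ^ k ∣ x)
    (hm : ¬ (p : ℤ) ∣ m) : Sm p k ((x : ℚ) / m) := by
  by_cases h0 : x = 0
  · left; simp [h0]
  right
  rw [padicValRat.div (by exact_mod_cast h0) (by exact_mod_cast ne0_of_ndvd hm),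
    padicValRat.of_int, padicValRat.of_int, padicValInt.eq_zero_of_not_dvd hm]
  have := ((padicValInt_dvd_iff k x).1 hx).resolve_left h0
  omega

/-- approximation at finitely many primes by a number with one extra (large) prime factor -/
theorem approx (S : Finset ℕ) (hS : ∀ p ∈ S, p.Prime) (t : ℕ → ℚ) (ht : ∀ p ∈ S, t p ≠ 0)
    (k : ℕ) (hk : 1 ≤ k) (σ : ZMod 2) (M : ℕ) :
    ∃ (T : ℚ) (q : ℕ), T ≠ 0 ∧ q.Prime ∧ M < q ∧ q ∉ S ∧ sg T = σ ∧
      (∀ p ∈ S, ∃ e, Sm p k e ∧ T = t p * (1 + e)) ∧ padicValRat q T = 1 ∧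
      ∀ p : ℕ, p.Prime → p ∉ S → p ≠ q → padicValRat p T = 0 := by
  obtain ⟨s, hs1, hs2⟩ : ∃ s : ℚ, (s = 1 ∨ s = -1) ∧ sg s = σ := by
    rcases z2c σ with h | h
    · exact ⟨1, Or.inl rfl, by rw [h]; exact sg_pos zero_le_one⟩
    · exact ⟨-1, Or.inr rfl, by rw [h]; exact sg_neg (by norm_num)⟩
  have hs0 : s ≠ 0 := by rcases hs1 with h | h <;> rw [h] <;> norm_num
  have hsv : ∀ p : ℕ, padicValRat p s = 0 := by
    intro p; rcases hs1 with h | h <;> simp [h]
  have hP := prod_ne S hS fun p => padicValRat p (t p)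
  set A := s * ∏ q ∈ S, (q : ℚ) ^ padicValRat q (t q) with hA
  have hA0 : A ≠ 0 := mul_ne_zero hs0 hP.ne'
  have hAv : ∀ p : ℕ, p.Prime → padicValRat p A = if p ∈ S then padicValRat p (t p) else 0 := by
    intro p hp
    have := Fact.mk hp
    rw [hA, padicValRat.mul hs0 hP.ne', hsv, zero_add, val_prod p S hS]
  have h1 : ∀ p : ℕ, ∃ m n r : ℤ, p ∈ S → ¬ (p : ℤ) ∣ m ∧ ¬ (p : ℤ) ∣ n ∧ t p / A = m / n ∧
      (p : ℤ) ^ k ∣ n * r - m := by
    intro p
    by_cases hp : p ∈ S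
    swap
    · exact ⟨0, 0, 0, fun h => absurd h hp⟩
    have := Fact.mk (hS p hp)
    obtain ⟨m, n, hm, hn, e⟩ := decomp p (div_ne_zero (ht p hp) hA0)
    rw [padicValRat.div (ht p hp) hA0, hAv p (hS p hp), if_pos hp, sub_self] at e
    have hc : IsCoprime ((p : ℤ) ^ k) n :=
      (((Nat.prime_iff_prime_int.1 (hS p hp)).coprime_iff_not_dvd).2 hn).pow_left
    obtain ⟨u, v, huv⟩ := hc
    exact ⟨m, n, v * m, fun _ => ⟨hm, hn, by simpa using e,
      ⟨-u * m, by linear_combination m * huv⟩⟩⟩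
  choose m n r h1 using h1
  obtain ⟨x, hx⟩ := crt_int S hS k r
  have h2 : ∀ p ∈ S, ∀ y : ℤ, (p : ℤ) ^ k ∣ y - x → (p : ℤ) ^ k ∣ n p * y - m p := by
    intro p hp y hy
    rw [show n p * y - m p = n p * r p - m p + n p * (x - r p + (y - x)) by ring]
    exact dvd_add (h1 p hp).2.2.2 (Dvd.dvd.mul_left (dvd_add (hx p hp) hy) _)
  have hc : IsCoprime x ((∏ p ∈ S, p ^ k : ℕ) : ℤ) := by
    push_cast
    apply IsCoprime.prod_right
    intro p hp
    apply IsCoprime.pow_right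
    refine (((Nat.prime_iff_prime_int.1 (hS p hp)).coprime_iff_not_dvd).2 fun hd => ?_).symm
    have h3 := (dvd_pow_self (p : ℤ) (by omega : k ≠ 0)).trans (h2 p hp x (by simp))
    exact (h1 p hp).1 ((dvd_iff_dvd_of_dvd_sub h3).1 (hd.mul_left _))
  obtain ⟨q, hq1, hq2, hq3⟩ := Nat.forall_exists_prime_gt_and_zmodEq (M + S.sup id)
    (Finset.prod_ne_zero_iff.2 fun p hp => pow_ne_zero _ (hS p hp).ne_zero) hc
  have hqS : q ∉ S := fun h => by
    have : q ≤ S.sup id := Finset.le_sup (f := id) h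
    omega
  have hq0 : (0 : ℚ) < q := by exact_mod_cast hq2.pos
  refine ⟨A * q, q, mul_ne_zero hA0 hq0.ne', hq2, by omega, hqS, ?_, fun p hp => ?_, ?_, ?_⟩
  · rw [sg_mul hA0 hq0.ne', hA, sg_mul hs0 hP.ne', hs2, sg_pos hP.le, sg_pos hq0.le]; ring
  · have := Fact.mk (hS p hp)
    obtain ⟨c1, c2, c3, -⟩ := h1 p hp
    have c4 : (p : ℤ) ^ k ∣ q - x := by
      refine Dvd.dvd.trans ?_ hq3.symm.dvd
      push_cast
      exact Finset.dvd_prod_of_mem (fun p : ℕ => (p : ℤ) ^ k) hp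
    refine ⟨_, sm_div p (h2 p hp q c4) c1, ?_⟩
    have c5 : (m p : ℚ) ≠ 0 := by exact_mod_cast ne0_of_ndvd c1
    have c6 : (n p : ℚ) ≠ 0 := by exact_mod_cast ne0_of_ndvd c2
    have c7 : t p = A * (m p / n p) := by rw [← c3]; field_simp
    rw [c7]; push_cast; field_simp; ring
  · have := Fact.mk hq2
    rw [padicValRat.mul hA0 hq0.ne', hAv q hq2, if_neg hqS, padicValRat.self hq2.one_lt, zero_add]
  · intro p hp h3 h4
    have := Fact.mk hp
    rw [padicValRat.mul hA0 hq0.ne', hAv p hp, if_neg h3, val_prime hp hq2 h4, zero_add]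

theorem sqP_one_add (p : ℕ) [hp : Fact p.Prime] {e : ℚ} (he : Sm p 3 e) : SqP p (1 + e) := by
  refine ⟨V_one_add p (he.mono (by norm_num)), ?_, fun _ => L_one_add p (he.mono (by norm_num))⟩
  rintro rfl
  exact ⟨E_one_add (he.mono (by norm_num)), W_one_add he⟩

theorem sqP_one_add_odd (p : ℕ) [hp : Fact p.Prime] (h2 : p ≠ 2) {e : ℚ} (he : Sm p 1 e) :
    SqP p (1 + e) := ⟨V_one_add p he, fun h => absurd h h2, fun _ => L_one_add p he⟩

theorem SqP.mul (p : ℕ) [hp : Fact p.Prime] {a b : ℚ} (ha : a ≠ 0) (hb : b ≠ 0) (h : SqP p a)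
    (h' : SqP p b) : SqP p (a * b) := by
  refine ⟨by rw [V_mul p ha hb, h.1, h'.1, add_zero], fun e => ?_, fun e => ?_⟩
  · rw [E_mul ha hb, W_mul ha hb, (h.2.1 e).1, (h.2.1 e).2, (h'.2.1 e).1, (h'.2.1 e).2]; simp
  · rw [L_mul p ha hb, h.2.2 e, h'.2.2 e, add_zero]

theorem sqP_sq (p : ℕ) [hp : Fact p.Prime] {s : ℚ} (h : s ≠ 0) : SqP p (s ^ 2) := by
  rw [sq]
  exact ⟨by rw [V_mul p h h, z2], fun _ => ⟨by rw [E_mul h h, z2], by rw [W_mul h h, z2]⟩,
    fun _ => by rw [L_mul p h h, z2]⟩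

theorem hs_approx (p : ℕ) [hp : Fact p.Prime] {t e : ℚ} (ht : t ≠ 0) (he : Sm p 3 e) (b : ℚ) :
    hs p (t * (1 + e)) b = hs p t b := by
  rw [hs_mul_left p b ht (one_add_ne p (he.mono (by norm_num))), hs_of_sqP (sqP_one_add p he),
    add_zero]

theorem exists_nonres (p : ℕ) [hp : Fact p.Prime] (h2 : p ≠ 2) :
    ∃ n : ℤ, ¬ (p : ℤ) ∣ n ∧ fL p n = 1 := by
  obtain ⟨a, ha⟩ := FiniteField.exists_nonsquare (F := ZMod p) (by rwa [ZMod.ringChar_zmod_n])
  have e : (((a.val : ℕ) : ℤ) : ZMod p) = a := by simp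
  refine ⟨(a.val : ℤ), fun h => ha ?_, if_pos ?_⟩
  · rw [← e, (ZMod.intCast_zmod_eq_zero_iff_dvd _ _).2 h]; exact IsSquare.zero
  · rw [ZMod.nonsquare_iff_jacobiSym_eq_neg_one, e]; exact ha

theorem real_odd (p : ℕ) [hp : Fact p.Prime] (h2 : p ≠ 2) (v l : ZMod 2) :
    ∃ t : ℚ, t ≠ 0 ∧ V p t = v ∧ L p t = l := by
  obtain ⟨u, hu, hl⟩ : ∃ u : ℤ, ¬ (p : ℤ) ∣ u ∧ fL p u = l := by
    rcases z2c l with rfl | rfl
    · exact ⟨1, nd1 p, addOn_one p (add_fL p)⟩
    · exact exists_nonres p h2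
  have hu0 : (u : ℚ) ≠ 0 := by exact_mod_cast ne0_of_ndvd hu
  rcases z2c v with rfl | rfl
  · exact ⟨u, hu0, V_int p hu, by rw [L_int p hu, hl]⟩
  · exact ⟨p * u, mul_ne_zero (pq0 p) hu0, by rw [V_mul p (pq0 p) hu0, V_self, V_int p hu, add_zero],
      by rw [L_mul p (pq0 p) hu0, L_self, L_int p hu, hl, zero_add]⟩

theorem real_two (v e w : ZMod 2) : ∃ t : ℚ, t ≠ 0 ∧ V 2 t = v ∧ E t = e ∧ W t = w := by
  obtain ⟨u, hu, he, hw⟩ : ∃ u : ℤ, ¬ (2 : ℤ) ∣ u ∧ fE u = e ∧ fW u = w := by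
    rcases z2c e with rfl | rfl <;> rcases z2c w with rfl | rfl
    · exact ⟨1, by decide, by decide, by decide⟩
    · exact ⟨5, by decide, by decide, by decide⟩
    · exact ⟨7, by decide, by decide, by decide⟩
    · exact ⟨3, by decide, by decide, by decide⟩
  have hu0 : (u : ℚ) ≠ 0 := by exact_mod_cast ne0_of_ndvd (p := 2) hu
  have hV := V_int 2 hu
  rcases z2c v with rfl | rfl
  · exact ⟨u, hu0, hV, by rw [E_int hu, he], by rw [W_int hu, hw]⟩
  · exact ⟨2 * u, mul_ne_zero two_ne_zero hu0, by rw [V_mul 2 two_ne_zero hu0, V_two, hV, add_zero],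
      by rw [E_mul two_ne_zero hu0, E_two, E_int hu, he, zero_add],
      by rw [W_mul two_ne_zero hu0, W_two, W_int hu, hw, zero_add]⟩

theorem fin_odd : ∀ vd ld vh lh vc lc ε : ZMod 2,
    (vd * vc * ε + ld * vc + lc * vd = 1 → ¬ (vh = 0 ∧ lh = 0)) → ∃ vt lt : ZMod 2,
      vt * vd * ε + lt * vd + ld * vt = vc * vd * ε + lc * vd + ld * vc ∧
      vt * (vh + vd) * ε + lt * (vh + vd) + (lh + ld) * vt =
        vh * vd * ε + lh * vd + (ε + ld) * vh := by decide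

theorem fin_two : ∀ vd ed wd vh eh wh x : ZMod 2,
    (x = 1 → ¬ (vh = 0 ∧ eh = 0 ∧ wh = 0)) → (vd = 0 ∧ ed = 0 ∧ wd = 0 → x = 0) →
      ∃ vt et wt : ZMod 2, et * ed + vt * wd + vd * wt = x ∧
      et * (eh + ed) + vt * (wh + wd) + (vh + vd) * wt =
        eh * (1 + ed) + vh * (0 + wd) + vd * wh := by decide

theorem loc (p : ℕ) [hp : Fact p.Prime] {h d c : ℚ} (hh : h ≠ 0) (hd : d ≠ 0)
    (hy : hs p d c = 1 → ¬ SqP p h) :
    ∃ t : ℚ, t ≠ 0 ∧ hs p t d = hs p c d ∧ hs p t (h * d) = hs p h (-d) := by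
  have e : -d = -1 * d := by ring
  have h1 : (-1 : ℚ) ≠ 0 := by norm_num
  by_cases h2 : p = 2
  · subst h2
    obtain ⟨vt, et, wt, a1, a2⟩ := fin_two (V 2 d) (E d) (W d) (V 2 h) (E h) (W h) (hs 2 d c)
      (fun hx hz => hy hx ⟨hz.1, fun _ => hz.2, fun h => absurd rfl h⟩)
      (fun hz => hs_of_sqP ⟨hz.1, fun _ => hz.2, fun h => absurd rfl h⟩ c)
    obtain ⟨t, t0, rfl, rfl, rfl⟩ := real_two vt et wt
    refine ⟨t, t0, ?_, ?_⟩
    · rw [hs_comm 2 c, ← a1]; simp [hs]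
    · simp only [hs, if_true]
      rw [V_neg, e, E_mul h1 hd, W_mul h1 hd, E_neg_one, W_neg_one, E_mul hh hd, W_mul hh hd,
        V_mul 2 hh hd]
      exact a2
  · obtain ⟨vt, lt, a1, a2⟩ := fin_odd (V p d) (L p d) (V p h) (L p h) (V p c) (L p c) (fE p)
      (fun hx hz => hy (by simpa [hs, h2] using hx) ⟨hz.1, fun h => absurd h h2, fun _ => hz.2⟩)
    obtain ⟨t, t0, rfl, rfl⟩ := real_odd p h2 vt lt
    refine ⟨t, t0, ?_, ?_⟩
    · simp only [hs, if_neg h2]; exact a1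
    · simp only [hs, if_neg h2]
      rw [V_neg, e, L_mul p h1 hd, L_neg_one p h2, L_mul p hh hd, V_mul p hh hd]
      exact a2

/-- primes dividing numerator or denominator -/
def supp (x : ℚ) : Finset ℕ := (x.num.natAbs * x.den).primeFactors

theorem supp_prime {x : ℚ} {p : ℕ} (h : p ∈ supp x) : p.Prime := Nat.prime_of_mem_primeFactors h

theorem val_supp {x : ℚ} (hx : x ≠ 0) {p : ℕ} (hp : p.Prime) (h : p ∉ supp x) :
    padicValRat p x = 0 := by
  have h0 : x.num.natAbs * x.den ≠ 0 :=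
    mul_ne_zero (Int.natAbs_ne_zero.2 (Rat.num_ne_zero.2 hx)) x.den_nz
  have h1 : ¬ p ∣ x.num.natAbs * x.den := fun hd => h (Nat.mem_primeFactors.2 ⟨hp, hd, h0⟩)
  rw [padicValRat_def, padicValInt.eq_zero_of_not_dvd, padicValNat.eq_zero_of_not_dvd]
  · simp
  · exact fun hd => h1 (hd.mul_left _)
  · exact fun hd => h1 ((Int.natCast_dvd.1 hd).mul_right _)

theorem V_of_val {p : ℕ} {x : ℚ} (h : padicValRat p x = 0) : V p x = 0 := by
  unfold V; rw [h]; simp

theorem fin_inf : ∀ d c h : ZMod 2, (d * c = 1 → h = 1) →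
    ∃ t : ZMod 2, d * (t + c) = 0 ∧ (h + t) * (1 + d + t) = 0 := by decide

theorem hs_pair (p : ℕ) [hp : Fact p.Prime] {h d T : ℚ} (hh : h ≠ 0) (hd : d ≠ 0) (hT : T ≠ 0) :
    hs p (h * T) (-d * T) = hs p h (-d) + hs p T (h * d) := by
  have hd' := neg_ne_zero.2 hd
  rw [hs_mul_left p _ hh hT, hs_mul_right p _ hd' hT, hs_mul_right p _ hd' hT,
    hs_mul_right p _ hh hd, hs_self p hT, show -d = -1 * d by ring,
    hs_mul_right p T (by norm_num) hd, hs_comm p h T]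
  linear_combination z2 (hs p T (-1))

/-- a pure quaternion of the algebra `(d, c)` with square `h` exists as soon as `h` is a
non-square at all ramified places -/
theorem complete4 {h d c : ℚ} (hh : h ≠ 0) (hd : d ≠ 0) (hc : c ≠ 0)
    (hy : ∀ p : ℕ, p.Prime → hs p d c = 1 → ¬ SqP p h) (hi : d < 0 → c < 0 → h < 0) :
    ∃ y z w : ℚ, h = d * y ^ 2 + c * z ^ 2 - d * c * w ^ 2 := by
  have h1 : ∀ p : ℕ, ∃ t : ℚ, p.Prime →
      t ≠ 0 ∧ hs p t d = hs p c d ∧ hs p t (h * d) = hs p h (-d) := by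
    intro p
    by_cases hp : p.Prime
    · have := Fact.mk hp
      obtain ⟨t, ht⟩ := loc p hh hd (hy p hp)
      exact ⟨t, fun _ => ht⟩
    · exact ⟨0, fun h => absurd h hp⟩
  choose t ht using h1
  obtain ⟨σ, i1, i2⟩ := fin_inf (sg d) (sg c) (sg h) (by
    rw [← hinf_eq]
    intro h3
    by_cases h4 : d < 0 ∧ c < 0
    · exact sg_neg (hi h4.1 h4.2)
    · rw [hinf_zero.2 h4] at h3; exact absurd h3 zero_ne_one)
  set S := insert 2 (supp h ∪ supp d ∪ supp c) with hS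
  have hSp : ∀ p ∈ S, p.Prime := by
    intro p hp
    simp only [hS, Finset.mem_insert, Finset.mem_union] at hp
    rcases hp with rfl | (hp | hp) | hp
    exacts [Nat.prime_two, supp_prime hp, supp_prime hp, supp_prime hp]
  obtain ⟨T, q, T0, hq, -, -, hσ, hT, -, hT'⟩ :=
    approx S hSp t (fun p hp => (ht p (hSp p hp)).1) 3 (by norm_num) σ 0
  have key : ∀ p : ℕ, p.Prime → p ≠ q →
      hs p T d = hs p c d ∧ hs p T (h * d) = hs p h (-d) := by
    intro p hp hpq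
    have := Fact.mk hp
    by_cases hpS : p ∈ S
    · obtain ⟨e, he, rfl⟩ := hT p hpS
      rw [hs_approx p (ht p hp).1 he, hs_approx p (ht p hp).1 he]
      exact (ht p hp).2
    · have v0 := V_of_val (hT' p hp hpS hpq)
      simp only [hS, Finset.mem_insert, Finset.mem_union, not_or] at hpS
      obtain ⟨p2, ⟨c1, c2⟩, c3⟩ := hpS
      have v1 := V_of_val (val_supp hh hp c1)
      have v2 := V_of_val (val_supp hd hp c2)
      have v3 := V_of_val (val_supp hc hp c3)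
      rw [hs_unit p2 v0 v2, hs_unit p2 v3 v2, hs_unit p2 v1 (by rw [V_neg, v2]),
        hs_unit p2 v0 (by rw [V_mul p hh hd, v1, v2, add_zero])]
      exact ⟨rfl, rfl⟩
  have hd' := neg_ne_zero.2 hd
  have j1 : ¬ (d < 0 ∧ T * c < 0) := by
    rw [← hinf_zero, hinf_eq, sg_mul T0 hc, hσ, i1]
  have j2 : ¬ (h * T < 0 ∧ -d * T < 0) := by
    rw [← hinf_zero, hinf_eq, sg_mul hh T0, sg_mul hd' T0, show -d = -1 * d by ring,
      sg_mul (by norm_num) hd, sg_neg (by norm_num : (-1 : ℚ) < 0), hσ, i2]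
  obtain ⟨z, w, e1⟩ := legendre_nm hd (mul_ne_zero T0 hc) (all_of_one hd (mul_ne_zero T0 hc) hq
    (fun p hp hpq => by
      have := Fact.mk hp
      rw [hs_comm, hs_mul_left p _ T0 hc, (key p hp hpq).1, z2]) j1) j1
  obtain ⟨x, y, e2⟩ := legendre (mul_ne_zero hh T0) (mul_ne_zero hd' T0)
    (all_of_one (mul_ne_zero hh T0) (mul_ne_zero hd' T0) hq (fun p hp hpq => by
      have := Fact.mk hp
      rw [hs_pair p hh hd T0, (key p hp hpq).2, z2]) j2) j2
  have e3 : h * (T * x) ^ 2 = d * (T * y) ^ 2 + c * (z / c) ^ 2 - d * c * (w / c) ^ 2 := by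
    field_simp
    linear_combination T * c * e2 + e1
  by_cases hx : x = 0
  · have hy0 : y ≠ 0 := by
      rintro rfl
      rw [hx] at e2; simp at e2
    rw [hx] at e3
    generalize hY : T * y = Y at e3
    have hY0 : Y ≠ 0 := hY ▸ mul_ne_zero T0 hy0
    obtain ⟨l, hl⟩ : ∃ l : ℚ, 2 * l * d * Y = h - d := ⟨(h - d) / (2 * d * Y), by field_simp⟩
    exact ⟨1 + l * Y, l * (z / c), l * (w / c), by linear_combination l ^ 2 * e3 - hl⟩
  · have hs0 := mul_ne_zero T0 hx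
    generalize T * x = s at e3 hs0
    generalize T * y = Y at e3
    generalize z / c = Z at e3
    generalize w / c = W at e3
    refine ⟨Y / s, Z / s, W / s, ?_⟩
    field_simp
    linear_combination e3

/-- conversely the square of a pure quaternion is a non-square at every ramified prime -/
theorem sound4 (p : ℕ) [hp : Fact p.Prime] {h d c y z w : ℚ} (hh : h ≠ 0) (hd : d ≠ 0) (hc : c ≠ 0)
    (e : h = d * y ^ 2 + c * z ^ 2 - d * c * w ^ 2) (hq : SqP p h) : hs p d c = 0 := by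
  by_cases hT : z ^ 2 - d * w ^ 2 = 0
  · by_cases hw : w = 0
    · have hz : z = 0 := by rw [hw] at hT; simpa using hT
      have e' : h = d * y ^ 2 := by rw [e, hz, hw]; ring
      have hy : y ≠ 0 := by rintro rfl; apply hh; rw [e']; ring
      rw [← hs_sq_left p c hd hy, ← e']; exact hs_of_sqP hq c
    · exact sound3 p hd hc (x := w) (y := 0) (z := z) (by linarith) (Or.inl hw)
  · have T0 := mul_ne_zero hc hT
    have a1 : hs p d (c * (z ^ 2 - d * w ^ 2)) = hs p d c := by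
      rw [hs_mul_right p d hc hT, hs_norm p hd hT, add_zero]
    generalize hT' : c * (z ^ 2 - d * w ^ 2) = T at T0 a1
    have e' : h - d * y ^ 2 = T := by rw [← hT', e]; ring
    have a2 := sound3 p (mul_ne_zero hh T0) (mul_ne_zero (neg_ne_zero.2 hd) T0) (x := 1) (y := y)
      (z := T) (by linear_combination T * e') (Or.inl one_ne_zero)
    rw [hs_pair p hh hd T0, hs_of_sqP hq, zero_add, hs_mul_right p T hh hd, hs_comm p T h,
      hs_of_sqP hq, zero_add, hs_comm] at a2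
    rw [← a1, a2]

/-- the real place -/
theorem sound4_inf {h d c y z w : ℚ} (hd : d < 0) (hc : c < 0)
    (e : h = d * y ^ 2 + c * z ^ 2 - d * c * w ^ 2) : h ≤ 0 := by
  have := mul_pos_of_neg_of_neg hd hc
  nlinarith [sq_nonneg y, sq_nonneg z, sq_nonneg w, mul_nonneg this.le (sq_nonneg w)]

end Pool.Agent.MP_28f2cb_lc.H85
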