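import Mathlib

/-! Square classes of nonzero rationals at a prime, with values in `ZMod 2`. -/

namespace Pool.Agent.MP_28f2cb_lc.H85

/-- prime-to-`p` part of an integer -/
def up (p : ℕ) (n : ℤ) : ℤ := n / (p : ℤ) ^ padicValInt p n

/-- extension to the rationals of an additive character of the integers prime to `p` -/
def ext (p : ℕ) (f : ℤ → ZMod 2) (a : ℚ) : ZMod 2 := f (up p a.num) + f (up p a.den)

def fL (p : ℕ) (n : ℤ) : ZMod 2 := if jacobiSym n p = -1 then 1 else 0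
def fE (n : ℤ) : ZMod 2 := if n % 4 = 3 then 1 else 0
def fW (n : ℤ) : ZMod 2 := if n % 8 = 3 ∨ n % 8 = 5 then 1 else 0

/-- parity of the valuation -/
def V (p : ℕ) (a : ℚ) : ZMod 2 := ((padicValRat p a : ℤ) : ZMod 2)
/-- Legendre symbol of the unit part (additive) -/
def L (p : ℕ) (a : ℚ) : ZMod 2 := ext p (fL p) a
/-- `(u-1)/2` for the 2-adic unit part -/
def E (a : ℚ) : ZMod 2 := ext 2 fE a
/-- `(u^2-1)/8` for the 2-adic unit part -/
def W (a : ℚ) : ZMod 2 := ext 2 fW a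

/-- Hilbert symbol at the prime `p`, additive: `0` split, `1` ramified -/
def hs (p : ℕ) (a b : ℚ) : ZMod 2 :=
  if p = 2 then E a * E b + V 2 a * W b + V 2 b * W a
  else V p a * V p b * fE p + L p a * V p b + L p b * V p a

/-- Hilbert symbol at infinity -/
def hinf (a b : ℚ) : ZMod 2 := if a < 0 ∧ b < 0 then 1 else 0

/-- `h` is a `p`-adic square (for `h ≠ 0`) -/
def SqP (p : ℕ) (h : ℚ) : Prop :=
  V p h = 0 ∧ (p = 2 → E h = 0 ∧ W h = 0) ∧ (p ≠ 2 → L p h = 0)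

/-- `p ^ k` divides the rational `e` -/
def Sm (p : ℕ) (k : ℤ) (e : ℚ) : Prop := e = 0 ∨ k ≤ padicValRat p e

/-- additive on integers prime to `p` -/
def AddOn (p : ℕ) (f : ℤ → ZMod 2) : Prop :=
  ∀ m n : ℤ, ¬ (p : ℤ) ∣ m → ¬ (p : ℤ) ∣ n → f (m * n) = f m + f n

theorem z2 (x : ZMod 2) : x + x = 0 := by revert x; decide

theorem z2c (x : ZMod 2) : x = 0 ∨ x = 1 := by revert x; decide

theorem up_spec (p : ℕ) [hp : Fact p.Prime] {n : ℤ} (hn : n ≠ 0) :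
    n = (p : ℤ) ^ padicValInt p n * up p n ∧ ¬ (p : ℤ) ∣ up p n := by
  have h1 : n = (p : ℤ) ^ padicValInt p n * up p n :=
    (Int.mul_ediv_cancel' (padicValInt_dvd n)).symm
  refine ⟨h1, fun ⟨c, hc⟩ => ?_⟩
  have : (p : ℤ) ^ (padicValInt p n + 1) ∣ n := ⟨c, by
    conv_lhs => rw [h1, hc]
    ring⟩
  rcases (padicValInt_dvd_iff _ _).1 this with h | h
  · exact hn h
  · omega

theorem ndvd_mul (p : ℕ) [hp : Fact p.Prime] {m n : ℤ} (hm : ¬ (p : ℤ) ∣ m) (hn : ¬ (p : ℤ) ∣ n) :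
    ¬ (p : ℤ) ∣ m * n := fun h =>
  ((Nat.prime_iff_prime_int.1 hp.out).dvd_or_dvd h).elim hm hn

theorem pq0 (p : ℕ) [hp : Fact p.Prime] : (p : ℚ) ≠ 0 := by exact_mod_cast hp.out.ne_zero

theorem ne0_of_ndvd {p : ℕ} {m : ℤ} (hm : ¬ (p : ℤ) ∣ m) : m ≠ 0 := by
  rintro rfl; exact hm (dvd_zero _)

theorem val_form (p : ℕ) [hp : Fact p.Prime] (k : ℤ) {m n : ℤ} (hm : ¬ (p : ℤ) ∣ m)
    (hn : ¬ (p : ℤ) ∣ n) : padicValRat p ((p : ℚ) ^ k * m / n) = k := by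
  have hm0 : (m : ℚ) ≠ 0 := by exact_mod_cast ne0_of_ndvd hm
  have hn0 : (n : ℚ) ≠ 0 := by exact_mod_cast ne0_of_ndvd hn
  have hp0 := pq0 p
  rw [padicValRat.div (mul_ne_zero (zpow_ne_zero _ hp0) hm0) hn0,
    padicValRat.mul (zpow_ne_zero _ hp0) hm0, padicValRat.zpow, padicValRat.self hp.out.one_lt,
    padicValRat.of_int, padicValRat.of_int, padicValInt.eq_zero_of_not_dvd hm,
    padicValInt.eq_zero_of_not_dvd hn]
  simp

theorem decomp0 (p : ℕ) [hp : Fact p.Prime] {a : ℚ} (ha : a ≠ 0) :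
    a = (p : ℚ) ^ padicValRat p a * (up p a.num : ℚ) / (up p a.den : ℚ) ∧
      ¬ (p : ℤ) ∣ up p a.num ∧ ¬ (p : ℤ) ∣ up p a.den := by
  have hn : a.num ≠ 0 := Rat.num_ne_zero.2 ha
  have hd : (a.den : ℤ) ≠ 0 := by exact_mod_cast a.den_nz
  obtain ⟨h1, h2⟩ := up_spec p hn
  obtain ⟨h3, h4⟩ := up_spec p hd
  refine ⟨?_, h2, h4⟩
  have hp0 := pq0 p
  have h5 : (up p a.den : ℚ) ≠ 0 := by exact_mod_cast ne0_of_ndvd h4
  have e1 : (a.num : ℚ) = (p : ℚ) ^ padicValInt p a.num * (up p a.num : ℚ) := by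
    exact_mod_cast congrArg (Int.cast : ℤ → ℚ) h1
  have e3 : (a.den : ℚ) = (p : ℚ) ^ padicValInt p a.den * (up p a.den : ℚ) := by
    exact_mod_cast congrArg (Int.cast : ℤ → ℚ) h3
  have e4 : padicValRat p a = (padicValInt p a.num : ℤ) - (padicValInt p a.den : ℤ) := by
    rw [padicValRat_def, padicValInt.of_nat]
  rw [e4, zpow_sub₀ hp0, zpow_natCast, zpow_natCast]
  conv_lhs => rw [← Rat.num_div_den a, e1, e3]
  field_simp

theorem decomp (p : ℕ) [hp : Fact p.Prime] {a : ℚ} (ha : a ≠ 0) :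
    ∃ m n : ℤ, ¬ (p : ℤ) ∣ m ∧ ¬ (p : ℤ) ∣ n ∧ a = (p : ℚ) ^ padicValRat p a * m / n :=
  ⟨_, _, (decomp0 p ha).2.1, (decomp0 p ha).2.2, (decomp0 p ha).1⟩

theorem ext_form (p : ℕ) [hp : Fact p.Prime] {f : ℤ → ZMod 2} (hf : AddOn p f) (k : ℤ) {m n : ℤ}
    (hm : ¬ (p : ℤ) ∣ m) (hn : ¬ (p : ℤ) ∣ n) : ext p f ((p : ℚ) ^ k * m / n) = f m + f n := by
  have hm0 : (m : ℚ) ≠ 0 := by exact_mod_cast ne0_of_ndvd hm
  have hn0 : (n : ℚ) ≠ 0 := by exact_mod_cast ne0_of_ndvd hn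
  have hp0 := pq0 p
  have hv := val_form p k hm hn
  generalize ha : (p : ℚ) ^ k * m / n = a at hv
  have ha0 : a ≠ 0 := by rw [← ha]; positivity
  obtain ⟨h1, h2, h3⟩ := decomp0 p ha0
  rw [hv] at h1
  have h5 : (up p a.den : ℚ) ≠ 0 := by exact_mod_cast ne0_of_ndvd h3
  have h6 : (m : ℚ) * up p a.den = up p a.num * n := by
    have h7 := ha.trans h1
    have hk : (p : ℚ) ^ k ≠ 0 := zpow_ne_zero _ hp0
    field_simp at h7
    linarith
  have h7 : m * up p a.den = up p a.num * n := by exact_mod_cast h6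
  have h8 := congrArg f h7
  rw [hf _ _ hm h3, hf _ _ h2 hn] at h8
  unfold ext
  have := z2 (f n)
  have := z2 (f (up p a.den))
  linear_combination -h8 - z2 (f n) + z2 (f (up p a.den))

theorem ext_mul (p : ℕ) [hp : Fact p.Prime] {f : ℤ → ZMod 2} (hf : AddOn p f) {a b : ℚ}
    (ha : a ≠ 0) (hb : b ≠ 0) : ext p f (a * b) = ext p f a + ext p f b := by
  obtain ⟨m, n, hm, hn, e1⟩ := decomp p ha
  obtain ⟨m', n', hm', hn', e2⟩ := decomp p hb
  generalize padicValRat p a = k at e1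
  generalize padicValRat p b = l at e2
  have hp0 := pq0 p
  have hn0 : (n : ℚ) ≠ 0 := by exact_mod_cast ne0_of_ndvd hn
  have hn0' : (n' : ℚ) ≠ 0 := by exact_mod_cast ne0_of_ndvd hn'
  have e3 : a * b = (p : ℚ) ^ (k + l) * ((m * m' : ℤ) : ℚ) / ((n * n' : ℤ) : ℚ) := by
    rw [e1, e2, zpow_add₀ hp0]; push_cast; field_simp
  rw [e3, ext_form p hf _ (ndvd_mul p hm hm') (ndvd_mul p hn hn'), e1, e2,
    ext_form p hf _ hm hn, ext_form p hf _ hm' hn', hf _ _ hm hm', hf _ _ hn hn']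
  ring

theorem nd1 (p : ℕ) [hp : Fact p.Prime] : ¬ (p : ℤ) ∣ 1 := fun h => by
  have := Int.natCast_dvd_natCast.1 (show (p : ℤ) ∣ ((1 : ℕ) : ℤ) from h)
  exact hp.out.one_lt.ne' (Nat.dvd_one.1 this)

theorem addOn_one (p : ℕ) [hp : Fact p.Prime] {f : ℤ → ZMod 2} (hf : AddOn p f) : f 1 = 0 := by
  have := hf 1 1 (nd1 p) (nd1 p)
  rw [mul_one, z2] at this
  exact this

theorem ext_int (p : ℕ) [hp : Fact p.Prime] {f : ℤ → ZMod 2} (hf : AddOn p f) {m : ℤ}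
    (hm : ¬ (p : ℤ) ∣ m) : ext p f (m : ℚ) = f m := by
  have := ext_form p hf 0 hm (nd1 p)
  simpa [addOn_one p hf] using this

theorem ext_p (p : ℕ) [hp : Fact p.Prime] {f : ℤ → ZMod 2} (hf : AddOn p f) (k : ℤ) :
    ext p f ((p : ℚ) ^ k) = 0 := by
  have := ext_form p hf k (nd1 p) (nd1 p)
  simpa [addOn_one p hf] using this

/-- `1 + e` with `p ^ k ∣ e` is a unit killed by characters of conductor `p ^ k` -/
theorem one_add (p : ℕ) [hp : Fact p.Prime] {k : ℕ} (hk : 1 ≤ k) {e : ℚ} (he : Sm p k e) :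
    ∃ m n : ℤ, ¬ (p : ℤ) ∣ m ∧ ¬ (p : ℤ) ∣ n ∧ m ≡ n [ZMOD (p : ℤ) ^ k] ∧
      1 + e = (p : ℚ) ^ (0 : ℤ) * m / n := by
  by_cases h0 : e = 0
  · exact ⟨1, 1, nd1 p, nd1 p, rfl, by simp [h0]⟩
  have he := he.resolve_left h0
  obtain ⟨m, n, hm, hn, e1⟩ := decomp p h0
  obtain ⟨j, hj⟩ := Int.eq_ofNat_of_zero_le (show 0 ≤ padicValRat p e - k by omega)
  have hj' : padicValRat p e = ((k + j : ℕ) : ℤ) := by push_cast; omega
  rw [hj', zpow_natCast] at e1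
  have hn0 : (n : ℚ) ≠ 0 := by exact_mod_cast ne0_of_ndvd hn
  refine ⟨n + (p : ℤ) ^ (k + j) * m, n, fun h => hn ?_, hn, ?_, ?_⟩
  · have : (p : ℤ) ∣ (p : ℤ) ^ (k + j) * m :=
      Dvd.dvd.mul_right (dvd_pow_self _ (by omega)) _
    exact (dvd_add_left this).1 h
  · apply Int.ModEq.symm
    rw [Int.modEq_iff_dvd]
    exact ⟨(p : ℤ) ^ j * m, by ring⟩
  · rw [e1]; push_cast; field_simp

theorem one_add_ne (p : ℕ) [hp : Fact p.Prime] {e : ℚ} (he : Sm p 1 e) : 1 + e ≠ 0 := by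
  obtain ⟨m, n, hm, hn, -, h⟩ := one_add p (k := 1) le_rfl he
  have hm0 : (m : ℚ) ≠ 0 := by exact_mod_cast ne0_of_ndvd hm
  have hn0 : (n : ℚ) ≠ 0 := by exact_mod_cast ne0_of_ndvd hn
  rw [h]; simp [hm0, hn0]

theorem val_one_add (p : ℕ) [hp : Fact p.Prime] {e : ℚ} (he : Sm p 1 e) :
    padicValRat p (1 + e) = 0 := by
  obtain ⟨m, n, hm, hn, -, h⟩ := one_add p (k := 1) le_rfl he
  rw [h, val_form p 0 hm hn]

theorem ext_one_add (p : ℕ) [hp : Fact p.Prime] {f : ℤ → ZMod 2} (hf : AddOn p f) {k : ℕ}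
    (hk : 1 ≤ k) (hper : ∀ m n : ℤ, m ≡ n [ZMOD (p : ℤ) ^ k] → f m = f n) {e : ℚ}
    (he : Sm p k e) : ext p f (1 + e) = 0 := by
  obtain ⟨m, n, hm, hn, hc, h⟩ := one_add p hk he
  rw [h, ext_form p hf 0 hm hn, hper _ _ hc, z2]

theorem gcd_p (p : ℕ) [hp : Fact p.Prime] {m : ℤ} (hm : ¬ (p : ℤ) ∣ m) : m.gcd p = 1 := by
  rw [Int.gcd_comm, ← Int.isCoprime_iff_gcd_eq_one]
  exact ((Nat.prime_iff_prime_int.1 hp.out).coprime_iff_not_dvd).2 hm

theorem add_fL (p : ℕ) [hp : Fact p.Prime] : AddOn p (fL p) := by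
  intro m n hm hn
  unfold fL
  rw [jacobiSym.mul_left]
  rcases jacobiSym.eq_one_or_neg_one (gcd_p p hm) with h | h <;>
    rcases jacobiSym.eq_one_or_neg_one (gcd_p p hn) with h' | h' <;> simp [h, h'] <;> decide

theorem mul_mod8 (m n : ℤ) : (m * n) % 8 = ((m % 8) * (n % 8)) % 8 := Int.mul_emod _ _ _

theorem add_fE : AddOn 2 fE := by
  intro m n hm hn
  unfold fE
  have h := Int.mul_emod m n 4
  have h1 : m % 4 = 1 ∨ m % 4 = 3 := by omega
  have h2 : n % 4 = 1 ∨ n % 4 = 3 := by omega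
  rcases h1 with h1 | h1 <;> rcases h2 with h2 | h2 <;> rw [h1, h2] at h <;>
    simp [h, h1, h2] <;> decide

theorem add_fW : AddOn 2 fW := by
  intro m n hm hn
  unfold fW
  have h := Int.mul_emod m n 8
  have h1 : m % 8 = 1 ∨ m % 8 = 3 ∨ m % 8 = 5 ∨ m % 8 = 7 := by omega
  have h2 : n % 8 = 1 ∨ n % 8 = 3 ∨ n % 8 = 5 ∨ n % 8 = 7 := by omega
  rcases h1 with h1 | h1 | h1 | h1 <;> rcases h2 with h2 | h2 | h2 | h2 <;> rw [h1, h2] at h <;>
    simp [h, h1, h2] <;> decide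

theorem V_mul (p : ℕ) [hp : Fact p.Prime] {a b : ℚ} (ha : a ≠ 0) (hb : b ≠ 0) :
    V p (a * b) = V p a + V p b := by
  unfold V; rw [padicValRat.mul ha hb]; push_cast; rfl

theorem L_mul (p : ℕ) [hp : Fact p.Prime] {a b : ℚ} (ha : a ≠ 0) (hb : b ≠ 0) :
    L p (a * b) = L p a + L p b := ext_mul p (add_fL p) ha hb

theorem E_mul {a b : ℚ} (ha : a ≠ 0) (hb : b ≠ 0) : E (a * b) = E a + E b :=
  ext_mul 2 add_fE ha hb

theorem W_mul {a b : ℚ} (ha : a ≠ 0) (hb : b ≠ 0) : W (a * b) = W a + W b :=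
  ext_mul 2 add_fW ha hb

theorem L_int (p : ℕ) [hp : Fact p.Prime] {m : ℤ} (hm : ¬ (p : ℤ) ∣ m) : L p m = fL p m :=
  ext_int p (add_fL p) hm

theorem E_int {m : ℤ} (hm : ¬ (2 : ℤ) ∣ m) : E m = fE m := ext_int 2 add_fE hm

theorem W_int {m : ℤ} (hm : ¬ (2 : ℤ) ∣ m) : W m = fW m := ext_int 2 add_fW hm

theorem V_int (p : ℕ) {m : ℤ} (hm : ¬ (p : ℤ) ∣ m) : V p m = 0 := by
  unfold V; rw [padicValRat.of_int, padicValInt.eq_zero_of_not_dvd hm]; simp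

theorem V_self (p : ℕ) [hp : Fact p.Prime] : V p p = 1 := by
  unfold V; rw [padicValRat.self hp.out.one_lt]; simp

theorem L_self (p : ℕ) [hp : Fact p.Prime] : L p p = 0 := by
  simpa [L] using ext_p p (add_fL p) 1

theorem E_two : E 2 = 0 := by simpa [E] using ext_p 2 add_fE 1

theorem W_two : W 2 = 0 := by simpa [W] using ext_p 2 add_fW 1

theorem V_two : V 2 2 = 1 := by simpa using V_self 2

theorem fL_per (p : ℕ) {m n : ℤ} (h : m ≡ n [ZMOD (p : ℤ)]) : fL p m = fL p n := by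
  unfold fL; rw [jacobiSym.mod_left' h]

theorem fE_per {m n : ℤ} (h : m ≡ n [ZMOD 4]) : fE m = fE n := by
  unfold fE; rw [show m % 4 = n % 4 from h]

theorem fW_per {m n : ℤ} (h : m ≡ n [ZMOD 8]) : fW m = fW n := by
  unfold fW; rw [show m % 8 = n % 8 from h]

theorem V_one_add (p : ℕ) [hp : Fact p.Prime] {e : ℚ} (he : Sm p 1 e) : V p (1 + e) = 0 := by
  unfold V; rw [val_one_add p he]; simp

theorem L_one_add (p : ℕ) [hp : Fact p.Prime] {e : ℚ} (he : Sm p 1 e) : L p (1 + e) = 0 :=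
  ext_one_add p (add_fL p) (k := 1) le_rfl (fun _ _ h => fL_per p (by simpa using h)) he

theorem E_one_add {e : ℚ} (he : Sm 2 2 e) : E (1 + e) = 0 :=
  ext_one_add 2 add_fE (k := 2) (by norm_num) (fun _ _ h => fE_per (by simpa using h)) he

theorem W_one_add {e : ℚ} (he : Sm 2 3 e) : W (1 + e) = 0 :=
  ext_one_add 2 add_fW (k := 3) (by norm_num) (fun _ _ h => fW_per (by simpa using h)) he

theorem V_neg (p : ℕ) (a : ℚ) : V p (-a) = V p a := by unfold V; rw [padicValRat.neg]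

theorem ndm1 (p : ℕ) [hp : Fact p.Prime] : ¬ (p : ℤ) ∣ -1 := fun h => nd1 p (by simpa using h)

theorem L_neg_one (p : ℕ) [hp : Fact p.Prime] (h2 : p ≠ 2) : L p (-1) = fE p := by
  have := L_int p (ndm1 p)
  push_cast at this
  rw [this]
  have ho : Odd p := hp.out.odd_of_ne_two h2
  unfold fL fE
  rw [jacobiSym.at_neg_one ho, ZMod.χ₄_nat_eq_if_mod_four]
  obtain ⟨k, hk⟩ := ho
  have h1 : p % 4 = 1 ∨ p % 4 = 3 := by omega
  rcases h1 with h1 | h1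
  · have : (p : ℤ) % 4 = 1 := by omega
    simp [h1, this, show p % 2 = 1 by omega]
  · have : (p : ℤ) % 4 = 3 := by omega
    simp [h1, this, show p % 2 = 1 by omega]

theorem E_neg_one : E (-1) = 1 := by
  have := E_int (m := -1) (by decide)
  push_cast at this
  rw [this]; decide

theorem W_neg_one : W (-1) = 0 := by
  have := W_int (m := -1) (by decide)
  push_cast at this
  rw [this]; decide

end Pool.Agent.MP_28f2cb_lc.H85
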