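import Pool.Agent.MP_28f2cb_lc.H85.HA

/-! Hilbert symbols: bilinearity, Steinberg relation, product formula. -/

namespace Pool.Agent.MP_28f2cb_lc.H85

theorem hom_one {φ : ℚ → ZMod 2} (h : ∀ a b : ℚ, a ≠ 0 → b ≠ 0 → φ (a * b) = φ a + φ b) :
    φ 1 = 0 := by
  have := h 1 1 one_ne_zero one_ne_zero
  rwa [mul_one, z2] at this

theorem hom_inv {φ : ℚ → ZMod 2} (h : ∀ a b : ℚ, a ≠ 0 → b ≠ 0 → φ (a * b) = φ a + φ b)
    {a : ℚ} (ha : a ≠ 0) : φ a⁻¹ = φ a := by
  have := h a a⁻¹ ha (inv_ne_zero ha)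
  rw [mul_inv_cancel₀ ha, hom_one h] at this
  linear_combination -this - z2 (φ a)

theorem hom_sq {φ : ℚ → ZMod 2} (h : ∀ a b : ℚ, a ≠ 0 → b ≠ 0 → φ (a * b) = φ a + φ b)
    {a s : ℚ} (ha : a ≠ 0) (hs : s ≠ 0) : φ (a * s ^ 2) = φ a := by
  rw [h _ _ ha (pow_ne_zero _ hs), sq, h _ _ hs hs, z2, add_zero]

theorem hs_comm (p : ℕ) (a b : ℚ) : hs p a b = hs p b a := by
  unfold hs; split_ifs <;> ring

theorem hs_mul_left (p : ℕ) [hp : Fact p.Prime] {a a' : ℚ} (b : ℚ) (ha : a ≠ 0) (ha' : a' ≠ 0) :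
    hs p (a * a') b = hs p a b + hs p a' b := by
  unfold hs
  split_ifs
  · rw [E_mul ha ha', V_mul 2 ha ha', W_mul ha ha']; ring
  · rw [L_mul p ha ha', V_mul p ha ha']; ring

theorem hs_mul_right (p : ℕ) [hp : Fact p.Prime] (a : ℚ) {b b' : ℚ} (hb : b ≠ 0) (hb' : b' ≠ 0) :
    hs p a (b * b') = hs p a b + hs p a b' := by
  rw [hs_comm, hs_mul_left p a hb hb', hs_comm p b, hs_comm p b']

theorem hs_one_left (p : ℕ) [hp : Fact p.Prime] (b : ℚ) : hs p 1 b = 0 :=
  hom_one (φ := fun a => hs p a b) fun _ _ h h' => hs_mul_left p b h h'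

theorem hs_inv_left (p : ℕ) [hp : Fact p.Prime] {a : ℚ} (b : ℚ) (ha : a ≠ 0) :
    hs p a⁻¹ b = hs p a b :=
  hom_inv (φ := fun a => hs p a b) (fun _ _ h h' => hs_mul_left p b h h') ha

theorem hs_sq_left (p : ℕ) [hp : Fact p.Prime] {a s : ℚ} (b : ℚ) (ha : a ≠ 0) (h : s ≠ 0) :
    hs p (a * s ^ 2) b = hs p a b :=
  hom_sq (φ := fun a => hs p a b) (fun _ _ h h' => hs_mul_left p b h h') ha h

theorem hs_sq_right (p : ℕ) [hp : Fact p.Prime] (a : ℚ) {b s : ℚ} (hb : b ≠ 0) (h : s ≠ 0) :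
    hs p a (b * s ^ 2) = hs p a b := by
  rw [hs_comm, hs_sq_left p a hb h, hs_comm]

theorem hs_sq (p : ℕ) [hp : Fact p.Prime] {s : ℚ} (b : ℚ) (h : s ≠ 0) : hs p (s ^ 2) b = 0 := by
  have := hs_sq_left p b one_ne_zero h
  rwa [one_mul, hs_one_left] at this

theorem hs_unit {p : ℕ} (h2 : p ≠ 2) {a b : ℚ} (ha : V p a = 0) (hb : V p b = 0) :
    hs p a b = 0 := by
  unfold hs; rw [if_neg h2, ha, hb]; ring

theorem hs_of_sqP {p : ℕ} {a : ℚ} (h : SqP p a) (b : ℚ) : hs p a b = 0 := by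
  obtain ⟨h1, h2, h3⟩ := h
  unfold hs
  split_ifs with hp
  · subst hp; rw [h1, (h2 rfl).1, (h2 rfl).2]; ring
  · rw [h1, h3 hp]; ring

theorem hs_neg_self (p : ℕ) [hp : Fact p.Prime] {a : ℚ} (ha : a ≠ 0) : hs p a (-a) = 0 := by
  have e : -a = -1 * a := by ring
  have h1 : (-1 : ℚ) ≠ 0 := by norm_num
  unfold hs
  split_ifs with h2
  · rw [V_neg, e, E_mul h1 ha, W_mul h1 ha, E_neg_one, W_neg_one]
    generalize E a = x; generalize W a = y; generalize V 2 a = z
    revert x y z; decide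
  · rw [V_neg, e, L_mul p h1 ha, L_neg_one p h2]
    generalize L p a = x; generalize fE p = y; generalize V p a = z
    revert x y z; decide

theorem hs_self (p : ℕ) [hp : Fact p.Prime] {a : ℚ} (ha : a ≠ 0) : hs p a a = hs p a (-1) := by
  have h := hs_neg_self p ha
  rw [show -a = -1 * a by ring, hs_mul_right p a (by norm_num) ha] at h
  linear_combination h - z2 (hs p a (-1))

theorem Sm.neg {p : ℕ} {k : ℤ} {e : ℚ} (h : Sm p k e) : Sm p k (-e) := by
  rcases h with h | h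
  · left; simp [h]
  · right; rwa [padicValRat.neg]

theorem Sm.mono {p : ℕ} {k l : ℤ} {e : ℚ} (h : Sm p k e) (hl : l ≤ k) : Sm p l e :=
  h.imp id fun h => hl.trans h

theorem st_pos (p : ℕ) [hp : Fact p.Prime] {t : ℚ} (h0 : t ≠ 0) (hv : 1 ≤ padicValRat p t) :
    hs p t (1 - t) = 0 := by
  have s1 : Sm p 1 (-t) := Sm.neg (Or.inr hv)
  have hV := V_one_add p s1
  rw [sub_eq_add_neg]
  unfold hs
  split_ifs with h2
  · subst h2
    rw [hV]
    by_cases h3 : 3 ≤ padicValRat 2 t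
    · have s3 : Sm 2 3 (-t) := Sm.neg (Or.inr h3)
      rw [E_one_add (s3.mono (by norm_num)), W_one_add s3]; ring
    by_cases h2 : 2 ≤ padicValRat 2 t
    · have s2 : Sm 2 2 (-t) := Sm.neg (Or.inr h2)
      have : V 2 t = 0 := by
        unfold V; rw [show padicValRat 2 t = 2 by omega]; rfl
      rw [E_one_add s2, this]; ring
    have h1 : padicValRat 2 t = 1 := by omega
    have hV1 : V 2 t = 1 := by unfold V; rw [h1]; simp
    obtain ⟨m, n, hm, hn, e⟩ := decomp 2 h0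
    rw [h1] at e
    have hn0 : (n : ℚ) ≠ 0 := by exact_mod_cast ne0_of_ndvd hn
    have hk : ¬ ((2 : ℕ) : ℤ) ∣ n - 2 * m := by push_cast at hn ⊢; omega
    have e2 : 1 + -t = ((2 : ℕ) : ℚ) ^ (0 : ℤ) * ((n - 2 * m : ℤ) : ℚ) / n := by
      rw [e]; push_cast; field_simp; ring
    rw [hV1, e2, zero_mul, add_zero]
    conv_lhs => rw [e]
    unfold E W
    rw [ext_form 2 add_fE _ hm hn, ext_form 2 add_fE _ hk hn, ext_form 2 add_fW _ hk hn]
    push_cast at hm hn
    have a1 : m % 4 = 1 ∨ m % 4 = 3 := by omega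
    have a2 : n % 8 = 1 ∨ n % 8 = 3 ∨ n % 8 = 5 ∨ n % 8 = 7 := by omega
    have a3 : n % 4 = (n % 8) % 4 := by omega
    have a4 : (n - 2 * m) % 8 = (n % 8 - 2 * (m % 4)) % 8 := by omega
    have a5 : (n - 2 * m) % 4 = (n % 8 - 2 * (m % 4)) % 4 := by omega
    unfold fE fW
    rw [a3, a4, a5]
    rcases a1 with a1 | a1 <;> rcases a2 with a2 | a2 | a2 | a2 <;> rw [a1, a2] <;> rfl
  · rw [hV, L_one_add p s1]; ring

theorem st_ne (p : ℕ) [hp : Fact p.Prime] {t : ℚ} (h0 : t ≠ 0) (h1 : t ≠ 1)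
    (hv : padicValRat p t ≠ 0) : hs p t (1 - t) = 0 := by
  rcases lt_or_gt_of_ne hv with h | h
  · have hi : t⁻¹ ≠ 0 := inv_ne_zero h0
    have h3 := st_pos p hi (by rw [padicValRat.inv]; omega)
    have h4 : 1 - t⁻¹ ≠ 0 := by
      intro h; apply h1; field_simp at h; linarith
    have e : 1 - t = -t * (1 - t⁻¹) := by field_simp; ring
    rw [e, hs_mul_right p t (neg_ne_zero.2 h0) h4, hs_neg_self p h0, ← hs_inv_left p _ h0, h3,
      add_zero]
  · exact st_pos p h0 h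

/-- Steinberg relation -/
theorem hs_one_sub (p : ℕ) [hp : Fact p.Prime] {t : ℚ} (h0 : t ≠ 0) (h1 : t ≠ 1) :
    hs p t (1 - t) = 0 := by
  by_cases hv : padicValRat p t = 0
  swap
  · exact st_ne p h0 h1 hv
  have h1' : 1 - t ≠ 0 := sub_ne_zero.2 h1.symm
  by_cases hw : padicValRat p (1 - t) = 0
  swap
  · have := st_ne p h1' (by intro h; apply h0; linarith) hw
    rwa [sub_sub_cancel, hs_comm] at this
  by_cases h2 : p = 2
  · exfalso
    subst h2
    obtain ⟨m, n, hm, hn, e⟩ := decomp 2 h0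
    obtain ⟨m', n', hm', hn', e'⟩ := decomp 2 h1'
    rw [hv] at e
    rw [hw] at e'
    have hn0 : (n : ℚ) ≠ 0 := by exact_mod_cast ne0_of_ndvd hn
    have hn0' : (n' : ℚ) ≠ 0 := by exact_mod_cast ne0_of_ndvd hn'
    have e3 : (n : ℚ) * n' = m * n' + m' * n := by
      rw [e] at e'
      simp only [zpow_zero, one_mul] at e'
      field_simp at e'
      linarith
    have e4 : n * n' = m * n' + m' * n := by exact_mod_cast e3
    have b1 := ndvd_mul 2 hn hn'
    have b2 := ndvd_mul 2 hm hn'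
    have b3 := ndvd_mul 2 hm' hn
    push_cast at b1 b2 b3
    omega
  · exact hs_unit h2 (by unfold V; rw [hv]; simp) (by unfold V; rw [hw]; simp)

/-- a rational point on the conic forces the symbol to vanish -/
theorem sound3 (p : ℕ) [hp : Fact p.Prime] {a b x y z : ℚ} (ha : a ≠ 0) (hb : b ≠ 0)
    (h : a * x ^ 2 + b * y ^ 2 = z ^ 2) (hne : x ≠ 0 ∨ y ≠ 0) : hs p a b = 0 := by
  by_cases hx : x = 0
  · have hy : y ≠ 0 := hne.resolve_left (not_not.2 hx)
    have hz : z ≠ 0 := by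
      rintro rfl
      rw [hx] at h
      simp [hb, hy] at h
    have e : b = (z / y) ^ 2 := by rw [hx] at h; field_simp; linarith
    rw [hs_comm, e]; exact hs_sq p a (div_ne_zero hz hy)
  by_cases hy : y = 0
  · have hz : z ≠ 0 := by
      rintro rfl
      rw [hy] at h
      simp [ha, hx] at h
    have e : a = (z / x) ^ 2 := by rw [hy] at h; field_simp; linarith
    rw [e]; exact hs_sq p b (div_ne_zero hz hx)
  by_cases hz : z = 0
  · have e : b = -a * (x / y) ^ 2 := by rw [hz] at h; field_simp; linarith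
    rw [e, hs_sq_right p a (neg_ne_zero.2 ha) (div_ne_zero hx hy), hs_neg_self p ha]
  have e : 1 - a * (x / z) ^ 2 = b * (y / z) ^ 2 := by field_simp; linarith
  have t0 : a * (x / z) ^ 2 ≠ 0 := by positivity
  have t1 : a * (x / z) ^ 2 ≠ 1 := by
    intro h1
    rw [h1, sub_self] at e
    exact (by positivity : b * (y / z) ^ 2 ≠ 0) e.symm
  have := hs_one_sub p t0 t1
  rwa [e, hs_sq_left p _ ha (div_ne_zero hx hz), hs_sq_right p _ hb (div_ne_zero hy hz)] at this

theorem hs_norm (p : ℕ) [hp : Fact p.Prime] {d z w : ℚ} (hd : d ≠ 0)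
    (h : z ^ 2 - d * w ^ 2 ≠ 0) : hs p d (z ^ 2 - d * w ^ 2) = 0 :=
  sound3 p hd h (x := w) (y := 1) (z := z) (by ring) (Or.inr one_ne_zero)

/-- sign character -/
def sg (a : ℚ) : ZMod 2 := if a < 0 then 1 else 0

theorem hinf_eq (a b : ℚ) : hinf a b = sg a * sg b := by
  unfold hinf sg
  by_cases h : a < 0 <;> by_cases h' : b < 0 <;> simp [h, h']

theorem sg_mul {a b : ℚ} (ha : a ≠ 0) (hb : b ≠ 0) : sg (a * b) = sg a + sg b := by
  unfold sg
  rcases lt_or_gt_of_ne ha with h | h <;> rcases lt_or_gt_of_ne hb with h' | h'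
  · rw [if_neg (mul_pos_of_neg_of_neg h h').le.not_gt, if_pos h, if_pos h', z2]
  · rw [if_pos (mul_neg_of_neg_of_pos h h'), if_pos h, if_neg h'.le.not_gt, add_zero]
  · rw [if_pos (mul_neg_of_pos_of_neg h h'), if_neg h.le.not_gt, if_pos h', zero_add]
  · rw [if_neg (mul_pos h h').le.not_gt, if_neg h.le.not_gt, if_neg h'.le.not_gt, add_zero]

theorem sg_pos {a : ℚ} (h : 0 ≤ a) : sg a = 0 := if_neg h.not_gt

theorem sg_neg {a : ℚ} (h : a < 0) : sg a = 1 := if_pos h

theorem hom_zero {φ : ℚ → ZMod 2} (h : ∀ a b : ℚ, a ≠ 0 → b ≠ 0 → φ (a * b) = φ a + φ b)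
    (N : ℕ) (h1 : φ (-1) = 0) (hq : ∀ q : ℕ, q.Prime → q < N → φ q = 0) {a : ℚ} (ha : a ≠ 0)
    (hn : a.num.natAbs < N) (hd : a.den < N) : φ a = 0 := by
  have key : ∀ n : ℕ, n ≠ 0 → n < N → φ n = 0 := by
    intro n
    induction n using Nat.recOnMul with
    | zero => intro h; exact absurd rfl h
    | one => intro _ _; simpa using hom_one h
    | prime q hq' => intro _ h'; exact hq q hq' h'
    | mul a b iha ihb =>
      intro h0 hN
      have ha : a ≠ 0 := left_ne_zero_of_mul h0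
      have hb : b ≠ 0 := right_ne_zero_of_mul h0
      push_cast
      rw [h _ _ (by exact_mod_cast ha) (by exact_mod_cast hb),
        iha ha (lt_of_le_of_lt (Nat.le_mul_of_pos_right _ (Nat.pos_of_ne_zero hb)) hN),
        ihb hb (lt_of_le_of_lt (Nat.le_mul_of_pos_left _ (Nat.pos_of_ne_zero ha)) hN), add_zero]
  have hn0 : a.num ≠ 0 := Rat.num_ne_zero.2 ha
  have k1 := key _ (Int.natAbs_ne_zero.2 hn0) hn
  have k2 := key _ a.den_nz hd
  have hd0 : (a.den : ℚ) ≠ 0 := by exact_mod_cast a.den_nz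
  have k3 : φ a.num = 0 := by
    rcases Int.natAbs_eq a.num with e | e
    · rw [e, Int.cast_natCast]; exact k1
    · have : (a.num : ℚ) = -1 * (a.num.natAbs : ℚ) := by
        conv_lhs => rw [e]
        push_cast; simp
      rw [this, h _ _ (by norm_num) (by exact_mod_cast Int.natAbs_ne_zero.2 hn0), h1, k1, add_zero]
  rw [← Rat.num_div_den a, div_eq_mul_inv, h _ _ (by exact_mod_cast hn0) (inv_ne_zero hd0),
    hom_inv h hd0, k2, k3, add_zero]

/-- total symbol -/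
def tot (N : ℕ) (a b : ℚ) : ZMod 2 := ∑ p ∈ N.primesBelow, hs p a b + sg a * sg b

theorem tot_comm (N : ℕ) (a b : ℚ) : tot N a b = tot N b a := by
  unfold tot; simp_rw [hs_comm _ a b, mul_comm]

theorem tot_mul (N : ℕ) (b a a' : ℚ) (ha : a ≠ 0) (ha' : a' ≠ 0) :
    tot N (a * a') b = tot N a b + tot N a' b := by
  unfold tot
  rw [sg_mul ha ha', Finset.sum_congr rfl (g := fun p => hs p a b + hs p a' b),
    Finset.sum_add_distrib]
  · ring
  · intro p hp
    have := Fact.mk (Nat.prime_of_mem_primesBelow hp)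
    exact hs_mul_left p b ha ha'

theorem sum_sub {N : ℕ} {a b : ℚ} (S : Finset ℕ) (hS : ∀ p ∈ S, p.Prime ∧ p < N)
    (h : ∀ p : ℕ, p.Prime → p ∉ S → hs p a b = 0) :
    ∑ p ∈ N.primesBelow, hs p a b = ∑ p ∈ S, hs p a b := by
  symm
  apply Finset.sum_subset
  · intro p hp
    exact Nat.mem_primesBelow.2 ⟨(hS p hp).2, (hS p hp).1⟩
  · intro p hp hn
    exact h p (Nat.prime_of_mem_primesBelow hp) hn

theorem nd_prime {p q : ℕ} (hp : p.Prime) (hq : q.Prime) (h : p ≠ q) : ¬ (p : ℤ) ∣ (q : ℤ) :=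
  fun h' => h ((Nat.prime_dvd_prime_iff_eq hp hq).1 (Int.natCast_dvd_natCast.1 h'))

theorem V_prime {p q : ℕ} (hp : p.Prime) (hq : q.Prime) (h : p ≠ q) : V p q = 0 := by
  simpa using V_int p (nd_prime hp hq h)

theorem V_neg_one (p : ℕ) : V p (-1) = 0 := by unfold V; simp

theorem fL_two {q : ℕ} (hq : q.Prime) (h2 : q ≠ 2) : fL q 2 = fW q := by
  have ho : Odd q := hq.odd_of_ne_two h2
  unfold fL fW
  rw [jacobiSym.at_two ho, ZMod.χ₈_nat_eq_if_mod_eight]
  obtain ⟨k, hk⟩ := ho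
  have h1 : q % 8 = 1 ∨ q % 8 = 3 ∨ q % 8 = 5 ∨ q % 8 = 7 := by omega
  have h3 : (q : ℤ) % 8 = ((q % 8 : ℕ) : ℤ) := by omega
  have h4 : q % 2 = 1 := by omega
  rw [h3, h4]
  rcases h1 with h1 | h1 | h1 | h1 <;> rw [h1] <;> decide

theorem fL_recip {q r : ℕ} (hq : q.Prime) (hr : r.Prime) (hq2 : q ≠ 2) (hr2 : r ≠ 2)
    (h : q ≠ r) : fE q * fE r + fL q r + fL r q = 0 := by
  have := Fact.mk hq
  obtain ⟨k, hk⟩ := hq.odd_of_ne_two hq2
  obtain ⟨l, hl⟩ := hr.odd_of_ne_two hr2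
  have h1 := jacobiSym.quadratic_reciprocity_if (a := q) (b := r) (by omega) (by omega)
  have h2 := jacobiSym.eq_one_or_neg_one (gcd_p q (nd_prime hq hr h))
  unfold fE fL
  rw [← h1]
  have a1 : q % 4 = 1 ∨ q % 4 = 3 := by omega
  have a2 : r % 4 = 1 ∨ r % 4 = 3 := by omega
  have a3 : (q : ℤ) % 4 = ((q % 4 : ℕ) : ℤ) := by omega
  have a4 : (r : ℤ) % 4 = ((r % 4 : ℕ) : ℤ) := by omega
  rw [a3, a4]
  rcases a1 with a1 | a1 <;> rcases a2 with a2 | a2 <;> rcases h2 with h2 | h2 <;>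
    rw [a1, a2, h2] <;> decide

theorem tot_mm {N : ℕ} (hN : 2 < N) : tot N (-1) (-1) = 0 := by
  unfold tot
  rw [sum_sub {2} (by simp [Nat.prime_two, hN])]
  · simp [hs, E_neg_one, V_neg_one, sg_neg, z2]
  · intro p hp h
    exact hs_unit (by simpa using h) (V_neg_one p) (V_neg_one p)

theorem tot_mq {N q : ℕ} (hN : 2 < N) (hq : q.Prime) (hqN : q < N) : tot N (-1) q = 0 := by
  have := Fact.mk hq
  unfold tot
  rw [sg_pos (a := q) (by positivity), mul_zero, add_zero]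
  by_cases h2 : q = 2
  · subst h2
    apply Finset.sum_eq_zero
    intro p hp
    have := Fact.mk (Nat.prime_of_mem_primesBelow hp)
    have := hs_one_sub p (t := -1) (by norm_num) (by norm_num)
    norm_num at this ⊢
    exact this
  rw [sum_sub {2, q} (by simp [Nat.prime_two, hN, hq, hqN]), Finset.sum_pair (Ne.symm h2)]
  · have h3 := E_int (nd_prime Nat.prime_two hq (Ne.symm h2))
    push_cast at h3
    simp [hs, h2, E_neg_one, V_neg_one, W_neg_one, V_self, L_neg_one q h2, h3, z2]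
  · intro p hp h
    simp only [Finset.mem_insert, Finset.mem_singleton, not_or] at h
    exact hs_unit h.1 (V_neg_one p) (V_prime hp hq h.2)

theorem tot_2q {N q : ℕ} (hN : 2 < N) (hq : q.Prime) (hqN : q < N) (h2 : q ≠ 2) :
    tot N (2 : ℕ) q = 0 := by
  have := Fact.mk hq
  unfold tot
  rw [sg_pos (a := q) (by positivity), mul_zero, add_zero]
  rw [sum_sub {2, q} (by simp [Nat.prime_two, hN, hq, hqN]), Finset.sum_pair (Ne.symm h2)]
  · have h3 := W_int (nd_prime Nat.prime_two hq (Ne.symm h2))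
    have h4 := L_int q (nd_prime hq Nat.prime_two h2)
    have h5 := V_prime hq Nat.prime_two h2
    have h6 := V_prime Nat.prime_two hq (Ne.symm h2)
    push_cast at h3 h4 h5
    simp [hs, h2, E_two, V_two, V_self, h3, h4, h5, h6, fL_two hq h2, z2]
  · intro p hp h
    simp only [Finset.mem_insert, Finset.mem_singleton, not_or] at h
    exact hs_unit h.1 (V_prime hp Nat.prime_two h.1) (V_prime hp hq h.2)

theorem tot_qr {N q r : ℕ} (hN : 2 < N) (hq : q.Prime) (hqN : q < N) (hr : r.Prime) (hrN : r < N) :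
    tot N q r = 0 := by
  have := Fact.mk hq
  have := Fact.mk hr
  by_cases h : q = r
  · subst h
    have h1 := tot_mq hN hq hqN
    rw [tot_comm] at h1
    unfold tot at h1 ⊢
    rw [sg_pos (a := q) (by positivity), zero_mul] at h1 ⊢
    rw [← h1]
    congr 1
    apply Finset.sum_congr rfl
    intro p hp
    have := Fact.mk (Nat.prime_of_mem_primesBelow hp)
    exact hs_self p (pq0 q)
  by_cases hq2 : q = 2
  · subst hq2; exact tot_2q hN hr hrN (Ne.symm h)
  by_cases hr2 : r = 2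
  · subst hr2; rw [tot_comm]; exact tot_2q hN hq hqN hq2
  unfold tot
  rw [sg_pos (a := q) (by positivity), zero_mul, add_zero]
  rw [sum_sub {2, q, r} (by simp [Nat.prime_two, hN, hq, hqN, hr, hrN]),
    Finset.sum_insert (by simp [Ne.symm hq2, Ne.symm hr2]), Finset.sum_pair h]
  · have h1 := E_int (nd_prime Nat.prime_two hq (Ne.symm hq2))
    have h2 := E_int (nd_prime Nat.prime_two hr (Ne.symm hr2))
    have h3 := L_int q (nd_prime hq hr h)
    have h4 := L_int r (nd_prime hr hq (Ne.symm h))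
    push_cast at h1 h2 h3 h4
    have h5 := fL_recip hq hr hq2 hr2 h
    simp only [hs, hq2, hr2, if_true, if_false, V_self, V_prime hq hr h,
      V_prime hr hq (Ne.symm h), V_prime Nat.prime_two hq (Ne.symm hq2),
      V_prime Nat.prime_two hr (Ne.symm hr2), h1, h2, h3, h4]
    linear_combination h5
  · intro p hp h
    simp only [Finset.mem_insert, Finset.mem_singleton, not_or] at h
    exact hs_unit h.1 (V_prime hp hq h.2.1) (V_prime hp hr h.2.2)

theorem tot_zero {N : ℕ} (hN : 2 < N) {a b : ℚ} (ha : a ≠ 0) (hb : b ≠ 0)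
    (h1 : a.num.natAbs < N) (h2 : a.den < N) (h3 : b.num.natAbs < N) (h4 : b.den < N) :
    tot N a b = 0 := by
  have k1 : tot N b (-1) = 0 :=
    hom_zero (φ := fun a => tot N a (-1)) (tot_mul N (-1)) N (tot_mm hN)
      (fun q hq hqN => (tot_comm N q (-1)).trans (tot_mq hN hq hqN)) hb h3 h4
  have k2 : ∀ r : ℕ, r.Prime → r < N → tot N b r = 0 := fun r hr hrN =>
    hom_zero (φ := fun a => tot N a r) (tot_mul N r) N (tot_mq hN hr hrN)
      (fun q hq hqN => tot_qr hN hq hqN hr hrN) hb h3 h4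
  exact hom_zero (φ := fun a => tot N a b) (tot_mul N b) N ((tot_comm N (-1) b).trans k1)
    (fun r hr hrN => (tot_comm N r b).trans (k2 r hr hrN)) ha h1 h2

/-- Hilbert reciprocity -/
theorem recip {a b : ℚ} (ha : a ≠ 0) (hb : b ≠ 0) (S : Finset ℕ) (hS : ∀ p ∈ S, p.Prime)
    (h : ∀ p : ℕ, p.Prime → p ∉ S → hs p a b = 0) : ∑ p ∈ S, hs p a b = hinf a b := by
  set N := S.sup id + a.num.natAbs + a.den + b.num.natAbs + b.den + 3 with hN
  have h1 := tot_zero (N := N) (by omega) ha hb (by omega) (by omega) (by omega) (by omega)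
  unfold tot at h1
  rw [sum_sub S (fun p hp => ⟨hS p hp, by
    have : p ≤ S.sup id := Finset.le_sup (f := id) hp
    omega⟩) h, ← hinf_eq] at h1
  linear_combination h1 - z2 (hinf a b)

/-- the symbol at one prime is determined by the others -/
theorem recip_one {a b : ℚ} (ha : a ≠ 0) (hb : b ≠ 0) {q : ℕ} (hq : q.Prime)
    (h : ∀ p : ℕ, p.Prime → p ≠ q → hs p a b = 0) : hs q a b = hinf a b := by
  simpa using recip ha hb {q} (by simpa using hq) (fun p hp hn => h p hp (by simpa using hn))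

end Pool.Agent.MP_28f2cb_lc.H85
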