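import Pool.Agent.MP_28f2cb_lc.H85.HB

/-! Legendre's theorem on ternary forms over the rationals. -/

namespace Pool.Agent.MP_28f2cb_lc.H85

def Iso (a b : ℚ) : Prop := ∃ x y z : ℚ, (x ≠ 0 ∨ y ≠ 0) ∧ a * x ^ 2 + b * y ^ 2 = z ^ 2

def Nm (a b : ℚ) : Prop := ∃ x y : ℚ, b = x ^ 2 - a * y ^ 2

theorem Iso.symm {a b : ℚ} (h : Iso a b) : Iso b a := by
  obtain ⟨x, y, z, h1, h2⟩ := h
  exact ⟨y, x, z, h1.symm, by linarith⟩

theorem Nm.iso {a b : ℚ} (h : Nm a b) : Iso a b := by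
  obtain ⟨x, y, h⟩ := h
  exact ⟨y, 1, x, Or.inr one_ne_zero, by linarith⟩

theorem Iso.nm {a b : ℚ} (ha : a ≠ 0) (h : Iso a b) : Nm a b := by
  obtain ⟨x, y, z, h1, h2⟩ := h
  by_cases hy : y = 0
  · have hx : x ≠ 0 := h1.resolve_right (not_not.2 hy)
    have hz : z ≠ 0 := by
      rintro rfl
      rw [hy] at h2
      simp [ha, hx] at h2
    have e : a = (z / x) ^ 2 := by rw [hy] at h2; field_simp; linarith
    refine ⟨(b + 1) / 2, (b - 1) / 2 / (z / x), ?_⟩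
    rw [e]; field_simp; ring
  · refine ⟨z / y, x / y, ?_⟩
    field_simp; linarith

theorem Nm.mul {a b c : ℚ} (h : Nm a b) (h' : Nm a c) : Nm a (b * c) := by
  obtain ⟨x, y, h⟩ := h
  obtain ⟨u, v, h'⟩ := h'
  exact ⟨x * u + a * y * v, x * v + y * u, by rw [h, h']; ring⟩

theorem Nm.mul_sq {a b : ℚ} (h : Nm a b) (s : ℚ) : Nm a (b * s ^ 2) :=
  h.mul ⟨s, 0, by ring⟩

theorem Iso.mul_sq {a b s : ℚ} (h : Iso a b) (hs : s ≠ 0) : Iso (a * s ^ 2) b := by
  obtain ⟨x, y, z, h1, h2⟩ := h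
  refine ⟨x / s, y, z, h1.imp_left fun hx => div_ne_zero hx hs, ?_⟩
  rw [← h2]; field_simp

theorem crt_sq (a : ℤ) (n : ℕ) : Squarefree n →
    (∀ p : ℕ, p.Prime → p ∣ n → ∃ t : ℤ, (p : ℤ) ∣ t ^ 2 - a) → ∃ t : ℤ, (n : ℤ) ∣ t ^ 2 - a := by
  induction n using Nat.recOnPosPrimePosCoprime with
  | prime_pow p k hp hk =>
    intro hs h
    have := ((Nat.squarefree_pow_iff hp.one_lt.ne' hk.ne').1 hs).2
    subst this
    simpa using h p hp (by simp)
  | zero => intro hs; exact absurd hs not_squarefree_zero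
  | one => intro _ _; exact ⟨0, by simp⟩
  | coprime m n _ _ hc ihm ihn =>
    intro hs h
    obtain ⟨s, hs'⟩ := ihm hs.of_mul_left fun p hp hd => h p hp (hd.mul_right _)
    obtain ⟨t, ht'⟩ := ihn hs.of_mul_right fun p hp hd => h p hp (hd.mul_left _)
    have hc' : IsCoprime (m : ℤ) (n : ℤ) := Nat.isCoprime_iff_coprime.2 hc
    obtain ⟨u, v, huv⟩ := id hc'
    refine ⟨s * v * n + t * u * m, ?_⟩
    push_cast
    apply hc'.mul_dvd
    · have : (s * v * n + t * u * m) ^ 2 - a =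
          s ^ 2 - a + m * (u * (t - s) * (2 * s + m * u * (t - s))) := by
        have : (s * v * n + t * u * m) = s + m * u * (t - s) := by linear_combination s * huv
        rw [this]; ring
      rw [this]; exact dvd_add hs' (dvd_mul_right _ _)
    · have : (s * v * n + t * u * m) ^ 2 - a =
          t ^ 2 - a + n * (v * (s - t) * (2 * t + n * v * (s - t))) := by
        have : (s * v * n + t * u * m) = t + n * v * (s - t) := by linear_combination t * huv
        rw [this]; ring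
      rw [this]; exact dvd_add ht' (dvd_mul_right _ _)

theorem int_sqf {k : ℤ} (hk : k ≠ 0) : ∃ k0 u : ℤ, Squarefree k0 ∧ u ≠ 0 ∧ k = k0 * u ^ 2 := by
  obtain ⟨a, b, -, hb, h1, h2⟩ := Nat.sq_mul_squarefree_of_pos (Int.natAbs_pos.2 hk)
  have h3 : ((b ^ 2 * a : ℕ) : ℤ) = k.natAbs := by rw [h1]
  push_cast at h3
  rcases abs_choice k with e | e
  · exact ⟨a, b, Int.squarefree_natCast.2 h2, by omega, by linarith⟩
  · refine ⟨-a, b, ?_, by omega, by linarith⟩
    rw [← Int.squarefree_natAbs]; simpa using h2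

theorem rat_sqf {a : ℚ} (ha : a ≠ 0) :
    ∃ (k : ℤ) (s : ℚ), Squarefree k ∧ s ≠ 0 ∧ a = k * s ^ 2 := by
  have hd : (a.den : ℤ) ≠ 0 := by exact_mod_cast a.den_nz
  have hd' : (a.den : ℚ) ≠ 0 := by exact_mod_cast a.den_nz
  obtain ⟨k, u, h1, h2, h3⟩ := int_sqf (mul_ne_zero (Rat.num_ne_zero.2 ha) hd)
  refine ⟨k, u / a.den, h1, div_ne_zero (by exact_mod_cast h2) hd', ?_⟩
  have h4 : (a.num : ℚ) * a.den = k * u ^ 2 := by exact_mod_cast h3
  conv_lhs => rw [← Rat.num_div_den a]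
  field_simp
  linarith

theorem sq_of_fL {p : ℕ} [hp : Fact p.Prime] {a : ℤ} (h : fL p a = 0) :
    ∃ t : ℤ, (p : ℤ) ∣ t ^ 2 - a := by
  have h1 : jacobiSym a p ≠ -1 := by
    intro h1; unfold fL at h; rw [if_pos h1] at h; exact one_ne_zero h
  rw [Ne, ZMod.nonsquare_iff_jacobiSym_eq_neg_one, not_not] at h1
  obtain ⟨r, hr⟩ := h1
  refine ⟨(r.val : ℤ), ?_⟩
  rw [← ZMod.intCast_zmod_eq_zero_iff_dvd]
  push_cast
  rw [hr, ZMod.natCast_zmod_val]; ring

theorem V_sqf {p : ℕ} [hp : Fact p.Prime] {b : ℤ} (hb : Squarefree b) (hd : (p : ℤ) ∣ b) :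
    V p b = 1 := by
  obtain ⟨c, rfl⟩ := hd
  have hc : ¬ (p : ℤ) ∣ c := by
    rintro ⟨e, rfl⟩
    have := hb p ⟨e, by ring⟩
    exact (Nat.prime_iff_prime_int.1 hp.out).not_isUnit this
  push_cast
  rw [V_mul p (pq0 p) (by exact_mod_cast ne0_of_ndvd hc), V_self, V_int p hc, add_zero]

theorem sqrt_mod {a b : ℤ} (hb : Squarefree b) (h : ∀ p : ℕ, p.Prime → hs p a b = 0) :
    ∃ t : ℤ, b ∣ t ^ 2 - a ∧ 2 * |t| ≤ |b| := by
  have hb0 : 0 < b.natAbs := Int.natAbs_pos.2 hb.ne_zero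
  obtain ⟨t, ht⟩ := crt_sq a b.natAbs (Int.squarefree_natAbs.2 hb) (by
    intro p hp hd
    have := Fact.mk hp
    have hd' : (p : ℤ) ∣ b := Int.natCast_dvd.2 hd
    by_cases h1 : (p : ℤ) ∣ a
    · exact ⟨0, by simpa using h1⟩
    by_cases h2 : p = 2
    · subst h2
      refine ⟨1, ?_⟩
      push_cast at h1 ⊢
      omega
    have h3 := h p hp
    unfold hs at h3
    rw [if_neg h2, V_int p h1, V_sqf hb hd', L_int p h1] at h3
    exact sq_of_fL (by simpa using h3))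
  refine ⟨t.bmod b.natAbs, ?_, ?_⟩
  · obtain ⟨c, hc⟩ := Int.dvd_bmod_sub_self (x := t) (m := b.natAbs)
    rw [← Int.natAbs_dvd]
    have : t.bmod b.natAbs = t + b.natAbs * c := by linarith
    rw [this, show (t + b.natAbs * c) ^ 2 - a =
      t ^ 2 - a + b.natAbs * (c * (2 * t + b.natAbs * c)) by ring]
    exact dvd_add ht (dvd_mul_right _ _)
  · have h1 := Int.le_bmod (x := t) hb0
    have h2 := Int.bmod_le (x := t) hb0
    rw [← Int.natCast_natAbs b]
    rcases abs_cases (t.bmod b.natAbs) with h | h <;> omega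

theorem leg_int (n : ℕ) : ∀ a b : ℤ, a.natAbs + b.natAbs ≤ n → Squarefree a → Squarefree b →
    (∀ p : ℕ, p.Prime → hs p a b = 0) → ¬ (a < 0 ∧ b < 0) → Iso a b := by
  induction n with
  | zero =>
    intro a b h ha
    exact absurd (by omega : a = 0) ha.ne_zero
  | succ n ih =>
    intro a b hn ha hb h hs0
    wlog hab : a.natAbs ≤ b.natAbs generalizing a b
    · exact (this b a (by omega) hb ha (fun p hp => (hs_comm p _ _).trans (h p hp))
        (fun h => hs0 h.symm) (by omega)).symm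
    have ha0 := ha.ne_zero
    have hb0 := hb.ne_zero
    by_cases h1 : b.natAbs ≤ 1
    · by_cases h2 : a = 1
      · exact ⟨1, 0, 1, Or.inl one_ne_zero, by simp [h2]⟩
      · have : b = 1 := by omega
        exact ⟨0, 1, 1, Or.inr one_ne_zero, by simp [this]⟩
    obtain ⟨t, ⟨k, hk⟩, ht⟩ := sqrt_mod hb h
    have haq : (a : ℚ) ≠ 0 := by exact_mod_cast ha0
    have hbq : (b : ℚ) ≠ 0 := by exact_mod_cast hb0
    by_cases hk0 : k = 0
    · refine ⟨1, 0, t, Or.inl one_ne_zero, ?_⟩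
      have : a = t ^ 2 := by rw [hk0] at hk; linarith
      simp [this]
    obtain ⟨k0, u, s1, s2, s3⟩ := int_sqf hk0
    have hk00 := s1.ne_zero
    have hkq : (k0 : ℚ) ≠ 0 := by exact_mod_cast hk00
    have huq : (u : ℚ) ≠ 0 := by exact_mod_cast s2
    have e1 : (t : ℚ) ^ 2 - a * 1 ^ 2 = b * (k0 * u ^ 2) := by
      rw [s3] at hk
      have : ((t ^ 2 - a : ℤ) : ℚ) = ((b * (k0 * u ^ 2) : ℤ) : ℚ) := by rw [hk]
      push_cast at this
      linarith
    have hlt : |k0| < |b| := by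
      have b1 : |b| * |k| ≤ |t| ^ 2 + |a| := by
        rw [← abs_mul, ← hk, ← abs_pow]
        exact abs_sub _ _
      have b2 : |a| ≤ |b| := by rw [← Int.natCast_natAbs, ← Int.natCast_natAbs]; omega
      have b3 : 2 ≤ |b| := by rw [← Int.natCast_natAbs]; omega
      have b4 : |k0| ≤ |k| := by
        rw [s3, abs_mul, abs_pow]
        have : 1 ≤ |u| := Int.one_le_abs s2
        exact le_mul_of_one_le_right (abs_nonneg _) (one_le_pow₀ this)
      have b5 := abs_nonneg t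
      by_contra hcon
      have b6 : |b| ≤ |k| := (not_lt.1 hcon).trans b4
      nlinarith
    have hlt' : k0.natAbs < b.natAbs := by
      rw [← Int.natCast_natAbs, ← Int.natCast_natAbs] at hlt; omega
    have hN : Nm a k0 := by
      refine (ih a k0 (by omega) ha s1 (fun p hp => ?_) ?_).nm haq
      · have := Fact.mk hp
        have h3 := hs_norm p (d := a) (z := t) (w := 1) haq (by rw [e1]; positivity)
        rwa [e1, hs_mul_right p _ hbq (by positivity), h p hp, zero_add,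
          hs_sq_right p _ hkq huq] at h3
      · rintro ⟨c1, c2⟩
        have c3 : 0 < b := by omega
        have c4 : 0 < u ^ 2 := by positivity
        have c5 : k < 0 := by rw [s3]; exact mul_neg_of_neg_of_pos c2 c4
        have c6 := mul_neg_of_pos_of_neg c3 c5
        nlinarith [sq_nonneg t]
    have hM := ((show Nm a (b * (k0 * u ^ 2)) from ⟨t, 1, e1.symm⟩).mul hN).mul_sq (k0 * u)⁻¹
    have e2 : (b : ℚ) * (k0 * u ^ 2) * k0 * ((k0 : ℚ) * u)⁻¹ ^ 2 = b := by field_simp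
    rw [e2] at hM
    exact hM.iso

theorem leg_iso {a b : ℚ} (ha : a ≠ 0) (hb : b ≠ 0) (h : ∀ p : ℕ, p.Prime → hs p a b = 0)
    (hi : ¬ (a < 0 ∧ b < 0)) : Iso a b := by
  obtain ⟨k, s, h1, h2, rfl⟩ := rat_sqf ha
  obtain ⟨l, r, h3, h4, rfl⟩ := rat_sqf hb
  have hk : (k : ℚ) ≠ 0 := by exact_mod_cast h1.ne_zero
  have hl : (l : ℚ) ≠ 0 := by exact_mod_cast h3.ne_zero
  have := leg_int _ k l le_rfl h1 h3 (fun p hp => by
    have := Fact.mk hp
    have h5 := h p hp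
    rwa [hs_sq_left p _ hk h2, hs_sq_right p _ hl h4] at h5) (by
    rintro ⟨c1, c2⟩
    exact hi ⟨mul_neg_of_neg_of_pos (by exact_mod_cast c1) (by positivity),
      mul_neg_of_neg_of_pos (by exact_mod_cast c2) (by positivity)⟩)
  exact ((this.mul_sq h2).symm.mul_sq h4).symm

/-- Hasse norm theorem for quadratic extensions of the rationals -/
theorem legendre_nm {a b : ℚ} (ha : a ≠ 0) (hb : b ≠ 0) (h : ∀ p : ℕ, p.Prime → hs p a b = 0)
    (hi : ¬ (a < 0 ∧ b < 0)) : ∃ x y : ℚ, b = x ^ 2 - a * y ^ 2 :=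
  (leg_iso ha hb h hi).nm ha

/-- Legendre's theorem -/
theorem legendre {a b : ℚ} (ha : a ≠ 0) (hb : b ≠ 0) (h : ∀ p : ℕ, p.Prime → hs p a b = 0)
    (hi : ¬ (a < 0 ∧ b < 0)) : ∃ x y : ℚ, a * x ^ 2 + b * y ^ 2 = 1 := by
  obtain ⟨x, y, e⟩ := legendre_nm ha hb h hi
  by_cases hx : x = 0
  · have hy : y ≠ 0 := by
      rintro rfl
      apply hb; rw [e, hx]; ring
    refine ⟨(a⁻¹ + 1) / 2, (a⁻¹ - 1) / 2 / y, ?_⟩
    rw [e, hx]; field_simp; ring
  · refine ⟨y / x, 1 / x, ?_⟩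
    rw [e]; field_simp; ring

theorem hinf_zero {a b : ℚ} : hinf a b = 0 ↔ ¬ (a < 0 ∧ b < 0) := by
  unfold hinf
  split_ifs with h <;> simp [h]

/-- one prime may be left out -/
theorem all_of_one {a b : ℚ} (ha : a ≠ 0) (hb : b ≠ 0) {q : ℕ} (hq : q.Prime)
    (h : ∀ p : ℕ, p.Prime → p ≠ q → hs p a b = 0) (hi : ¬ (a < 0 ∧ b < 0)) (p : ℕ)
    (hp : p.Prime) : hs p a b = 0 := by
  by_cases e : p = q
  · rw [e, recip_one ha hb hq h, hinf_zero.2 hi]
  · exact h p hp e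

end Pool.Agent.MP_28f2cb_lc.H85
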