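import Pool.Agent.MP_28f2cb_lc.H85.HD

/-! Divisibility of rationals by prime powers, strong approximation, prescribed norms. -/

namespace Pool.Agent.MP_28f2cb_lc.H85

section Sm

variable {p : ℕ} [hp : Fact p.Prime] {k l : ℤ} {a b : ℚ}

omit hp in
theorem Sm.zero : Sm p k 0 := Or.inl rfl

omit hp in
theorem sm_val (a : ℚ) : Sm p (padicValRat p a) a := Or.inr le_rfl

omit hp in
theorem sm_of_val (h : padicValRat p a = k) : Sm p k a := Or.inr h.ge

theorem Sm.add (h : Sm p k a) (h' : Sm p k b) : Sm p k (a + b) := by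
  by_cases h0 : a + b = 0
  · exact Or.inl h0
  rcases h with rfl | h
  · simpa using h'
  rcases h' with rfl | h'
  · rw [add_zero]; exact Or.inr h
  exact Or.inr ((le_min h h').trans (padicValRat.min_le_padicValRat_add h0))

theorem Sm.sub (h : Sm p k a) (h' : Sm p k b) : Sm p k (a - b) := by
  rw [sub_eq_add_neg]; exact h.add h'.neg

theorem Sm.mul (h : Sm p k a) (h' : Sm p l b) : Sm p (k + l) (a * b) := by
  by_cases ha : a = 0
  · left; simp [ha]
  by_cases hb : b = 0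
  · left; simp [hb]
  right
  rw [padicValRat.mul ha hb]
  exact add_le_add (h.resolve_left ha) (h'.resolve_left hb)

theorem Sm.mul0 (h : Sm p k a) (h' : Sm p 0 b) : Sm p k (a * b) := by
  simpa using h.mul h'

theorem Sm.mul0' (h : Sm p 0 a) (h' : Sm p k b) : Sm p k (a * b) := by
  simpa using h.mul h'

omit hp in
theorem sm_int (n : ℤ) : Sm p 0 (n : ℚ) := Or.inr (by simp)

omit hp in
theorem sm_nat (n : ℕ) : Sm p 0 (n : ℚ) := Or.inr (by simp)

omit hp in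
theorem sm_one : Sm p 0 1 := Or.inr (by simp)

theorem Sm.pow0 (h : Sm p 0 a) (n : ℕ) : Sm p 0 (a ^ n) := by
  induction n with
  | zero => simpa using sm_one
  | succ n ih => rw [pow_succ]; exact ih.mul0 h

theorem sm_inv (h : padicValRat p a = 0) : Sm p 0 a⁻¹ := sm_of_val (by simp [h])

theorem Sm.div0 (h : Sm p k a) (h' : padicValRat p b = 0) : Sm p k (a / b) := by
  rw [div_eq_mul_inv]; exact h.mul0 (sm_inv h')

theorem sm_dvd {n : ℕ} {x : ℤ} (h : (p : ℤ) ^ n ∣ x) : Sm p n (x : ℚ) := by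
  simpa using sm_div p h (nd1 p)

theorem sm_dvd1 {x : ℤ} (h : (p : ℤ) ∣ x) : Sm p 1 (x : ℚ) :=
  sm_dvd (n := 1) (by simpa using h)

theorem sm_p (k : ℤ) : Sm p k ((p : ℚ) ^ k) :=
  sm_of_val (by simp [padicValRat.self hp.out.one_lt])

omit hp in
theorem val_int {m : ℤ} (hm : ¬ (p : ℤ) ∣ m) : padicValRat p (m : ℚ) = 0 := by
  rw [padicValRat.of_int, padicValInt.eq_zero_of_not_dvd hm]; rfl

theorem dvd_of_sm {x : ℤ} (h : Sm p 1 (x : ℚ)) : (p : ℤ) ∣ x := by
  by_contra hn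
  rcases h with h | h
  · exact ne0_of_ndvd hn (by exact_mod_cast h)
  · rw [val_int hn] at h; omega

omit hp in
theorem sm_den (h : ¬ p ∣ a.den) : Sm p 0 a := by
  right
  rw [padicValRat_def, padicValNat.eq_zero_of_not_dvd h]
  simp

theorem sm_norm : Sm p k a ↔ ‖(a : ℚ_[p])‖ ≤ (p : ℝ) ^ (-k) := by
  have h1 : (1 : ℝ) < p := by exact_mod_cast hp.out.one_lt
  by_cases h0 : a = 0
  · simp only [h0, Sm.zero, Rat.cast_zero, norm_zero, true_iff]; positivity
  · rw [Padic.norm_eq_zpow_neg_valuation (by exact_mod_cast h0), Padic.valuation_ratCast,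
      zpow_le_zpow_iff_right₀ h1, neg_le_neg_iff]
    exact ⟨fun h => h.resolve_left h0, Or.inr⟩

end Sm

/-- strong approximation -/
theorem sapp (S : Finset ℕ) (hS : ∀ p ∈ S, p.Prime) (t : ℕ → ℚ) (k : ℕ) :
    ∃ x : ℚ, (∀ p ∈ S, Sm p k (x - t p)) ∧ ∀ p : ℕ, p.Prime → p ∉ S → Sm p 0 x := by
  classical
  let t' : ℕ → ℚ := fun p => if t p = 0 then (p : ℚ) ^ (k : ℤ) else t p
  have h0 : ∀ p ∈ S, t' p ≠ 0 := fun p hp => by
    have := Fact.mk (hS p hp)
    by_cases h : t p = 0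
    · simp only [t', if_pos h]; exact zpow_ne_zero _ (pq0 p)
    · simp only [t', if_neg h]; exact h
  obtain ⟨T, q, -, -, -, -, -, h1, h2, h3⟩ := approx S hS t' h0
    (k + 1 + S.sup fun p => (padicValRat p (t' p)).natAbs) (by omega) 0 0
  refine ⟨T, fun p hp => ?_, fun p hp hn => ?_⟩
  · have := Fact.mk (hS p hp)
    obtain ⟨e, he, rfl⟩ := h1 p hp
    have h4 : (padicValRat p (t' p)).natAbs ≤ S.sup fun p => (padicValRat p (t' p)).natAbs :=
      Finset.le_sup (f := fun p => (padicValRat p (t' p)).natAbs) hp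
    have h5 : Sm p k (t' p * e) := ((sm_val (t' p)).mul he).mono (by push_cast; omega)
    have h6 : Sm p k (t' p - t p) := by
      by_cases h : t p = 0
      · simp only [t', if_pos h, h, sub_zero]; exact sm_p k
      · simp only [t', if_neg h, sub_self]; exact Sm.zero
    rw [show t' p * (1 + e) - t p = t' p * e + (t' p - t p) by ring]
    exact h5.add h6
  · by_cases e : p = q
    · subst e; exact (sm_of_val h2).mono (by norm_num)
    · exact sm_of_val (h3 p hp hn e)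

/-- `β` is a square modulo `q` -/
def SqM (q : ℕ) (β : ℚ) : Prop := ∃ b : ℚ, Sm q 0 b ∧ Sm q 1 (β - b ^ 2)

theorem sqM_of_L {q : ℕ} [hq : Fact q.Prime] {β : ℚ} (h0 : β ≠ 0) (hv : padicValRat q β = 0)
    (h : L q β = 0) : SqM q β := by
  obtain ⟨m, n, hm, hn, e⟩ := decomp q h0
  rw [hv] at e
  have h1 : fL q (m * n) = 0 := by
    rw [add_fL q _ _ hm hn, ← ext_form q (add_fL q) 0 hm hn, ← e]; exact h
  obtain ⟨t, ht⟩ := sq_of_fL h1
  have hn0 : (n : ℚ) ≠ 0 := by exact_mod_cast ne0_of_ndvd hn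
  refine ⟨t / n, (sm_int t).div0 (val_int hn), ?_⟩
  have := (((sm_dvd1 ht).neg).div0 (val_int hn)).div0 (val_int hn)
  convert this using 1
  rw [e]; push_cast; field_simp; ring

/-- a unit, or an integer at a prime where `β` is a square -/
def Gd (q : ℕ) (β x : ℚ) : Prop := padicValRat q x = 0 ∨ (Sm q 0 x ∧ SqM q β)

theorem Gd.sm {q : ℕ} {β x : ℚ} (h : Gd q β x) : Sm q 0 x := h.elim sm_of_val And.left

theorem appr2 (S : Finset ℕ) (hS : ∀ p ∈ S, p.Prime) (h2 : 2 ∈ S) {β : ℚ} (hβ : 0 < β)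
    (hu : ∀ p : ℕ, p.Prime → p ∉ S → padicValRat p β = 0) (t : ℕ → ℚ) (ht : ∀ p ∈ S, t p ≠ 0)
    (hsum : ∑ p ∈ S, hs p β (t p) = 0) :
    ∃ T : ℚ, 0 < T ∧ (∀ p ∈ S, ∃ e, Sm p 3 e ∧ T = t p * (1 + e)) ∧
      (∀ p : ℕ, p.Prime → p ∉ S → Gd p β T) ∧
      ∀ D : ℚ, D ≠ 0 → (∀ p : ℕ, p.Prime → p ∉ S → padicValRat p D = 0) →
        (∀ p ∈ S, hs p D (t p) = 0) → ∃ x y : ℚ, T = x ^ 2 - D * y ^ 2 := by
  classical
  obtain ⟨T, q, T0, hq, -, hqS, hσ, h1, h3, h4⟩ := approx S hS t ht 3 (by norm_num) 0 0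
  have hT : 0 < T := by
    rcases lt_or_gt_of_ne T0 with h | h
    · rw [sg_neg h] at hσ; exact absurd hσ one_ne_zero
    · exact h
  have k1 : ∀ D : ℚ, ∀ p ∈ S, hs p D T = hs p D (t p) := fun D p hp => by
    have := Fact.mk (hS p hp)
    obtain ⟨e, he, rfl⟩ := h1 p hp
    rw [hs_comm, hs_approx p (ht p hp) he, hs_comm]
  have k2 : ∀ D : ℚ, (∀ p : ℕ, p.Prime → p ∉ S → padicValRat p D = 0) → ∀ p : ℕ, p.Prime → p ∉ S →
      p ≠ q → hs p D T = 0 := fun D hD p hp hn hne =>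
    hs_unit (by rintro rfl; exact hn h2) (V_of_val (hD p hp hn)) (V_of_val (h4 p hp hn hne))
  refine ⟨T, hT, h1, fun p hp hn => ?_, fun D hD hD' hD'' => ?_⟩
  · by_cases e : p = q
    swap
    · exact Or.inl (h4 p hp hn e)
    subst e
    have := Fact.mk hp
    refine Or.inr ⟨(sm_of_val h3).mono (by norm_num), sqM_of_L hβ.ne' (hu p hp hn) ?_⟩
    have r := recip hβ.ne' T0 (insert p S) (by
      intro r hr
      rcases Finset.mem_insert.1 hr with rfl | hr
      exacts [hp, hS r hr]) (fun r hr hn' => by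
        rw [Finset.mem_insert, not_or] at hn'
        exact k2 β hu r hr hn'.2 hn'.1)
    rw [Finset.sum_insert hn, Finset.sum_congr rfl (k1 β), hsum, add_zero,
      hinf_zero.2 fun h => hβ.not_gt h.1] at r
    have p2 : p ≠ 2 := by rintro rfl; exact hn h2
    unfold hs at r
    rw [if_neg p2, V_of_val (hu p hp hn), show V p T = 1 by unfold V; rw [h3]; rfl] at r
    simpa using r
  · have hi : ¬ (D < 0 ∧ T < 0) := fun h => hT.not_gt h.2
    refine legendre_nm hD T0 (all_of_one hD T0 hq (fun p hp hne => ?_) hi) hi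
    by_cases hpS : p ∈ S
    · rw [k1 D p hpS, hD'' p hpS]
    · exact k2 D hD' p hp hpS hne

/-- clearing denominators in a pair of rationals -/
theorem prim2 (x y : ℚ) : ∃ γ η n : ℤ, n ≠ 0 ∧ (γ : ℚ) = n * x ∧ (η : ℚ) = n * y ∧
    ∀ q : ℕ, q.Prime → (q : ℤ) ∣ n → ¬ (q : ℤ) ∣ γ ∨ ¬ (q : ℤ) ∣ η := by
  have h : ∃ n : ℕ, n ≠ 0 ∧ ∃ γ η : ℤ, (γ : ℚ) = n * x ∧ (η : ℚ) = n * y := by
    refine ⟨x.den * y.den, mul_ne_zero x.den_nz y.den_nz, x.num * y.den, y.num * x.den, ?_, ?_⟩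
    · push_cast; rw [← Rat.mul_den_eq_num]; ring
    · push_cast; rw [← Rat.mul_den_eq_num]; ring
  classical
  obtain ⟨n0, γ, η, h1, h2⟩ := Nat.find_spec h
  refine ⟨γ, η, Nat.find h, by exact_mod_cast n0, by exact_mod_cast h1, by exact_mod_cast h2,
    fun q hq hd => ?_⟩
  by_contra hc
  push Not at hc
  obtain ⟨⟨a, ha⟩, ⟨b, hb⟩⟩ := hc
  obtain ⟨m, hm⟩ := Int.natCast_dvd_natCast.1 hd
  have hq0 : (q : ℚ) ≠ 0 := by exact_mod_cast hq.ne_zero
  have hm0 : m ≠ 0 := by rintro rfl; exact n0 (by simpa using hm)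
  refine Nat.find_min h (m := m) ?_ ⟨hm0, a, b, ?_, ?_⟩
  · rw [hm]; nlinarith [hq.two_le, Nat.pos_of_ne_zero hm0]
  · rw [ha, hm] at h1; push_cast at h1
    exact mul_left_cancel₀ hq0 (by rw [h1]; ring)
  · rw [hb, hm] at h2; push_cast at h2
    exact mul_left_cancel₀ hq0 (by rw [h2]; ring)

end Pool.Agent.MP_28f2cb_lc.H85
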