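import Pool.Agent.MP_28f2cb_lc.H85.HG

/-! A cubic with prescribed values modulo two quadratics, close to a cube at a prime. -/

namespace Pool.Agent.MP_28f2cb_lc.H85

open Filter Topology

section Defs

variable {K : Type} [Field K]

/-- constant coefficient of `T (γ - η θ) (A + B θ) ^ 2 - β V ^ 2 (γ + η θ)`, `θ ^ 2 = D` -/
def pa (D T γ η β V A B : K) : K :=
  T * (γ * (A ^ 2 + D * B ^ 2) - 2 * D * η * A * B) - β * V ^ 2 * γ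

/-- coefficient of `θ` -/
def pb (D T γ η β V A B : K) : K :=
  T * (2 * γ * A * B - η * (A ^ 2 + D * B ^ 2)) - β * V ^ 2 * η

/-- the resultant -/
def RR (D1 D2 h : K) : K := (h ^ 2 + D2 - D1) ^ 2 - 4 * h ^ 2 * D2

def w0 (D1 D2 h a b c d : K) : K :=
  ((c - a - b * h) * (h ^ 2 + D2 - D1) - (d - b) * (2 * h) * D2) / RR D1 D2 h

def w1 (D1 D2 h a b c d : K) : K :=
  ((d - b) * (h ^ 2 + D2 - D1) - (c - a - b * h) * (2 * h)) / RR D1 D2 h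

/-- the interpolating cubic -/
def Fc (D1 D2 h a b c d u : K) : K :=
  a + b * u + (u ^ 2 - D1) * (w0 D1 D2 h a b c d + w1 D1 D2 h a b c d * (u - h))

def k1 (D1 D2 h a b c d u : K) : K :=
  b - D1 * w1 D1 D2 h a b c d + 2 * (w0 D1 D2 h a b c d - h * w1 D1 D2 h a b c d) * u +
    3 * w1 D1 D2 h a b c d * u ^ 2

def k2 (D1 D2 h a b c d u : K) : K :=
  w0 D1 D2 h a b c d - h * w1 D1 D2 h a b c d + 3 * w1 D1 D2 h a b c d * u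

theorem Fc_alt {D1 D2 h : K} (hR : RR D1 D2 h ≠ 0) (a b c d u : K) : Fc D1 D2 h a b c d u =
    c + d * (u - h) + ((u - h) ^ 2 - D2) *
      (w0 D1 D2 h a b c d + w1 D1 D2 h a b c d * (u + h)) := by
  unfold Fc w0 w1
  field_simp
  unfold RR
  ring

theorem Fc_taylor (D1 D2 h a b c d u x : K) : Fc D1 D2 h a b c d x =
    w1 D1 D2 h a b c d * (x - u) ^ 3 + k2 D1 D2 h a b c d u * (x - u) ^ 2 +
      k1 D1 D2 h a b c d u * (x - u) + Fc D1 D2 h a b c d u := by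
  unfold Fc k1 k2
  ring

theorem cube {D1 D2 h r u a b c d : K} (hR : RR D1 D2 h ≠ 0) (ha : a = r * (u ^ 3 + 3 * u * D1))
    (hb : b = -r * (3 * u ^ 2 + D1)) (hc : c = r * ((u - h) ^ 3 + 3 * (u - h) * D2))
    (hd : d = -r * (3 * (u - h) ^ 2 + D2)) : w1 D1 D2 h a b c d = -r ∧ k2 D1 D2 h a b c d u = 0 ∧
      k1 D1 D2 h a b c d u = 0 ∧ Fc D1 D2 h a b c d u = 0 := by
  have e1 : w1 D1 D2 h a b c d = -r := by
    unfold w1; rw [div_eq_iff hR, ha, hb, hc, hd]; unfold RR; ring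
  have e0 : w0 D1 D2 h a b c d = r * (3 * u - h) := by
    unfold w0; rw [div_eq_iff hR, ha, hb, hc, hd]; unfold RR; ring
  refine ⟨e1, ?_, ?_, ?_⟩
  · unfold k2; rw [e1, e0]; ring
  · unfold k1; rw [e1, e0, hb]; ring
  · unfold Fc; rw [e1, e0, hb, ha]; ring

theorem hil [CharZero K] {D e T γ η m : K} (β : K) (hT : T ≠ 0)
    (hm : m ^ 2 = (e ^ 2 - D) * (γ ^ 2 - D * η ^ 2)) (h0 : m ≠ 0) :
    ∃ r A B : K, r ≠ 0 ∧ pa D T γ η β 0 A B = r * (e ^ 3 + 3 * e * D) ∧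
      pb D T γ η β 0 A B = -r * (3 * e ^ 2 + D) := by
  have hN : γ ^ 2 - D * η ^ 2 ≠ 0 := fun h => h0 (by simpa [h] using hm)
  wlog h : e * γ - D * η + m ≠ 0 generalizing m
  · refine this (m := -m) (by rw [← hm]; ring) (neg_ne_zero.2 h0) fun h' => h0 ?_
    push Not at h
    have : (2 : K) * m = 0 := by linear_combination h - h'
    simpa using this
  refine ⟨T * (γ ^ 2 - D * η ^ 2) * (2 * (e * γ - D * η + m)),
    (m + (e * γ - D * η)) * e - D * (e * η - γ), (e * η - γ) * e - (m + (e * γ - D * η)),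
    mul_ne_zero (mul_ne_zero hT hN) (mul_ne_zero two_ne_zero h), ?_, ?_⟩
  · unfold pa
    linear_combination (T * (γ * (e ^ 2 + D) + 2 * D * η * e)) * hm
  · unfold pb
    linear_combination (T * (-2 * e * γ - η * (e ^ 2 + D))) * hm

end Defs

variable {q : ℕ} [hq : Fact q.Prime]

theorem sq_padic {e : ℚ_[q]} (he : ‖e‖ ≤ (q : ℝ) ^ (-3 : ℤ)) : ∃ s : ℚ_[q], s ≠ 0 ∧ s ^ 2 = 1 + e := by
  have h1 : (1 : ℝ) < q := by exact_mod_cast hq.out.one_lt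
  have h3 : (q : ℝ) ^ (-3 : ℤ) < (q : ℝ) ^ (-2 : ℤ) := zpow_lt_zpow_right₀ h1 (by norm_num)
  have h4 : (q : ℝ) ^ (-2 : ℤ) < 1 := zpow_lt_one_of_neg₀ h1 (by norm_num)
  have he1 : ‖e‖ < 1 := he.trans_lt (h3.trans h4)
  let ε : ℤ_[q] := ⟨e, he1.le⟩
  have h2 : (q : ℝ) ^ (-1 : ℤ) ≤ ‖(2 : ℤ_[q])‖ := by
    have : ‖(2 : ℤ_[q])‖ = ‖((2 : ℚ) : ℚ_[q])‖ := by
      rw [PadicInt.norm_def, Rat.cast_ofNat]; rfl
    rw [this, Padic.norm_eq_zpow_neg_valuation (by simp), Padic.valuation_ratCast,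
      zpow_le_zpow_iff_right₀ h1, neg_le_neg_iff]
    have h5 := padicValNat_le_nat_log (p := q) 2
    have h6 : Nat.log q 2 ≤ 1 := by
      rw [← Nat.lt_succ_iff]
      exact Nat.log_lt_of_lt_pow two_ne_zero (by nlinarith [hq.out.two_le])
    have : padicValRat q 2 = padicValNat q 2 := padicValRat.of_nat (n := 2)
    omega
  obtain ⟨z, hz, -⟩ := hensels_lemma (p := q) (R := ℤ_[q])
    (F := Polynomial.X ^ 2 - Polynomial.C (1 + ε)) (a := 1) (by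
      simp only [map_sub, map_pow, Polynomial.aeval_X, Polynomial.aeval_C, Polynomial.derivative_X_pow,
        Polynomial.derivative_C, map_mul, Algebra.algebraMap_self, RingHom.id_apply]
      have e1 : (1 : ℤ_[q]) ^ 2 - (1 + ε) = -ε := by ring
      rw [e1, norm_neg]
      have e2 : ‖ε‖ = ‖e‖ := rfl
      simp only [Nat.cast_ofNat, one_pow, mul_one, map_zero, sub_zero, e2]
      refine (he.trans_lt h3).trans_le ?_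
      rw [show (-2 : ℤ) = -1 * (2 : ℕ) by norm_num, zpow_mul, zpow_natCast]
      exact pow_le_pow_left₀ (by positivity) h2 2)
  simp only [map_sub, map_pow, Polynomial.aeval_X, Polynomial.aeval_C, Algebra.algebraMap_self,
    RingHom.id_apply, sub_eq_zero] at hz
  have hz' : (z : ℚ_[q]) ^ 2 = 1 + e := by
    have := congrArg (fun x : ℤ_[q] => (x : ℚ_[q])) hz
    simpa using this
  refine ⟨z, fun h0 => ?_, hz'⟩
  rw [h0] at hz'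
  have : e = -1 := by linear_combination -hz'
  rw [this] at he1
  simp at he1

theorem sq_rat {e : ℚ} (he : Sm q 3 e) : ∃ s : ℚ_[q], s ≠ 0 ∧ s ^ 2 = 1 + e :=
  sq_padic (sm_norm.1 he)

theorem rat_cls {x : ℚ_[q]} (hx : x ≠ 0) : ∃ (ρ : ℚ) (s : ℚ_[q]), ρ ≠ 0 ∧ s ≠ 0 ∧ ρ = x * s ^ 2 := by
  have h1 : (0 : ℝ) < q := by exact_mod_cast hq.out.pos
  obtain ⟨ρ, hρ⟩ := Padic.rat_dense q x (ε := ‖x‖ * (q : ℝ) ^ (-3 : ℤ)) (by positivity)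
  obtain ⟨s, hs, e⟩ := sq_padic (q := q) (e := -(x - ρ) / x) (by
    rw [norm_div, norm_neg, div_le_iff₀ (by positivity), mul_comm]
    exact hρ.le)
  have : (ρ : ℚ_[q]) = x * s ^ 2 := by rw [e]; field_simp; ring
  refine ⟨ρ, s, fun h => ?_, hs, this⟩
  rw [h, Rat.cast_zero] at this
  exact mul_ne_zero hx (pow_ne_zero 2 hs) this.symm

theorem loc_approx {n : ℕ} (P : (Fin n → ℚ_[q]) → Prop) (x0 : Fin n → ℚ_[q])
    (h : ∀ᶠ x in 𝓝 x0, P x) : ∃ (N : ℕ) (x' : Fin n → ℚ), (∀ i, x0 i = 0 → x' i = 0) ∧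
      ∀ x : Fin n → ℚ, (∀ i, Sm q N (x i - x' i)) → P fun i => (x i : ℚ_[q]) := by
  obtain ⟨ε, hε, hP⟩ := Metric.eventually_nhds_iff.1 h
  obtain ⟨N, hN⟩ := PadicInt.exists_pow_neg_lt q (half_pos hε)
  have h1 : ∀ i, ∃ r : ℚ, ‖x0 i - r‖ < ε / 2 ∧ (x0 i = 0 → r = 0) := fun i => by
    by_cases h0 : x0 i = 0
    · exact ⟨0, by simp [h0, hε], fun _ => rfl⟩
    · obtain ⟨r, hr⟩ := Padic.rat_dense q (x0 i) (half_pos hε)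
      exact ⟨r, hr, fun h => absurd h h0⟩
  choose x' h1 h2 using h1
  refine ⟨N, x', h2, fun x hx => hP ((dist_pi_lt_iff hε).2 fun i => ?_)⟩
  have h3 := (sm_norm.1 (hx i)).trans_lt hN
  rw [dist_eq_norm, show (x i : ℚ_[q]) - x0 i = ((x i - x' i : ℚ) : ℚ_[q]) - (x0 i - x' i) by
    push_cast; ring]
  exact (norm_sub_le _ _).trans_lt (by linarith [h1 i])

/-- the cubic is close to a multiple of `(x - u) ^ 3` -/
def Near (q : ℕ) (K : ℤ) (D1 D2 h a b c d u : ℚ) : Prop :=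
  w1 D1 D2 h a b c d ≠ 0 ∧ Sm q K (k2 D1 D2 h a b c d u / w1 D1 D2 h a b c d) ∧
    Sm q K (k1 D1 D2 h a b c d u / w1 D1 D2 h a b c d) ∧
    Sm q K (Fc D1 D2 h a b c d u / w1 D1 D2 h a b c d)

theorem near_of {β D1 D2 h u T1 T2 γ1 η1 γ2 η2 μ : ℚ} (hR : RR D1 D2 h ≠ 0)
    {r A1 B1 A2 B2 : ℚ_[q]} (hr : r ≠ 0)
    (ha : μ * pa (D1 : ℚ_[q]) T1 γ1 η1 β 0 A1 B1 = r * (u ^ 3 + 3 * u * D1))
    (hb : μ * pb (D1 : ℚ_[q]) T1 γ1 η1 β 0 A1 B1 = -r * (3 * u ^ 2 + D1))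
    (hc : pa (D2 : ℚ_[q]) T2 γ2 η2 β 0 A2 B2 = r * ((u - h) ^ 3 + 3 * (u - h) * D2))
    (hd : pb (D2 : ℚ_[q]) T2 γ2 η2 β 0 A2 B2 = -r * (3 * (u - h) ^ 2 + D2)) (K : ℤ) :
    ∃ (N : ℕ) (x' : Fin 5 → ℚ), x' 4 = 0 ∧ ∀ x : Fin 5 → ℚ, (∀ i, Sm q N (x i - x' i)) →
      Near q K D1 D2 h (μ * pa D1 T1 γ1 η1 β (x 4) (x 0) (x 1)) (μ * pb D1 T1 γ1 η1 β (x 4) (x 0) (x 1))
        (pa D2 T2 γ2 η2 β (x 4) (x 2) (x 3)) (pb D2 T2 γ2 η2 β (x 4) (x 2) (x 3)) u := by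
  have hR' : RR (D1 : ℚ_[q]) D2 h ≠ 0 := by
    have : RR (D1 : ℚ_[q]) D2 h = (RR D1 D2 h : ℚ) := by simp [RR]
    rw [this]; exact_mod_cast hR
  obtain ⟨c1, c2, c3, c4⟩ := cube hR' ha hb hc hd
  let Φ : (ℚ_[q] → ℚ_[q] → ℚ_[q] → ℚ_[q] → ℚ_[q]) → (Fin 5 → ℚ_[q]) → ℚ_[q] := fun f x =>
    f (μ * pa (D1 : ℚ_[q]) T1 γ1 η1 β (x 4) (x 0) (x 1)) (μ * pb (D1 : ℚ_[q]) T1 γ1 η1 β (x 4) (x 0) (x 1))
      (pa (D2 : ℚ_[q]) T2 γ2 η2 β (x 4) (x 2) (x 3)) (pb (D2 : ℚ_[q]) T2 γ2 η2 β (x 4) (x 2) (x 3))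
  let x0 : Fin 5 → ℚ_[q] := ![A1, B1, A2, B2, 0]
  have t1 : Continuous (Φ (w1 D1 D2 h)) := by
    simp only [Φ, w1, pa, pb]; fun_prop
  have t2 : Continuous (Φ fun a b c d => k2 (D1 : ℚ_[q]) D2 h a b c d u) := by
    simp only [Φ, k2, w0, w1, pa, pb]; fun_prop
  have t3 : Continuous (Φ fun a b c d => k1 (D1 : ℚ_[q]) D2 h a b c d u) := by
    simp only [Φ, k1, w0, w1, pa, pb]; fun_prop
  have t4 : Continuous (Φ fun a b c d => Fc (D1 : ℚ_[q]) D2 h a b c d u) := by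
    simp only [Φ, Fc, w0, w1, pa, pb]; fun_prop
  have n1 : Φ (w1 D1 D2 h) x0 ≠ 0 := by
    show w1 _ _ _ (μ * pa _ _ _ _ _ 0 A1 B1) (μ * pb _ _ _ _ _ 0 A1 B1) (pa _ _ _ _ _ 0 A2 B2)
      (pb _ _ _ _ _ 0 A2 B2) ≠ 0
    rw [c1]; exact neg_ne_zero.2 hr
  have h1 : (0 : ℝ) < q := by exact_mod_cast hq.out.pos
  have ev : ∀ g : (Fin 5 → ℚ_[q]) → ℚ_[q], Continuous g → g x0 = 0 →
      ∀ᶠ x in 𝓝 x0, ‖g x / Φ (w1 D1 D2 h) x‖ ≤ (q : ℝ) ^ (-K) := fun g hg h0 => by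
    have := ((hg.continuousAt (x := x0)).div t1.continuousAt n1).norm.tendsto
    simp only [Pi.div_apply, h0, zero_div, norm_zero] at this
    exact this.eventually_le_const (by positivity)
  obtain ⟨N, x', h2, h3⟩ := loc_approx _ x0 ((t1.continuousAt.eventually_ne n1).and
    ((ev _ t2 c2).and ((ev _ t3 c3).and (ev _ t4 c4))))
  refine ⟨N, x', h2 4 rfl, fun x hx => ?_⟩
  obtain ⟨d1, d2, d3, d4⟩ := h3 x hx
  refine ⟨fun h0 => d1 ?_, sm_norm.2 ?_, sm_norm.2 ?_, sm_norm.2 ?_⟩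
  · have := congrArg (fun t : ℚ => (t : ℚ_[q])) h0
    simpa [Φ, w1, pa, pb, RR] using this
  · convert d2 using 2
    simp [Φ, k2, w0, w1, pa, pb, RR]
  · convert d3 using 2
    simp [Φ, k1, w0, w1, pa, pb, RR]
  · convert d4 using 2
    simp [Φ, Fc, w0, w1, pa, pb, RR]

theorem hil_rat {D e T γ η n ε : ℚ} (β : ℚ) (hG : e ^ 2 - D ≠ 0) (hn : n ≠ 0)
    (hN : T * n ^ 2 = γ ^ 2 - D * η ^ 2) (hε : Sm q 3 ε) (hT : T = (e ^ 2 - D) * (1 + ε)) :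
    ∃ r A B : ℚ_[q], r ≠ 0 ∧ pa (D : ℚ_[q]) T γ η β 0 A B = r * (e ^ 3 + 3 * e * D) ∧
      pb (D : ℚ_[q]) T γ η β 0 A B = -r * (3 * e ^ 2 + D) := by
  obtain ⟨s, hs, e1⟩ := sq_rat hε
  have hT0 : T ≠ 0 := hT ▸ mul_ne_zero hG (one_add_ne q (hε.mono (by norm_num)))
  have hG' : (e : ℚ_[q]) ^ 2 - D ≠ 0 := by exact_mod_cast hG
  refine hil (m := (e ^ 2 - D) * n * s) _ (by exact_mod_cast hT0) ?_
    (mul_ne_zero (mul_ne_zero hG' (by exact_mod_cast hn)) hs)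
  have a1 : (T : ℚ_[q]) * n ^ 2 = γ ^ 2 - D * η ^ 2 := by exact_mod_cast hN
  have a2 : (T : ℚ_[q]) = (e ^ 2 - D) * (1 + ε) := by exact_mod_cast hT
  rw [← a1, a2, ← e1]; ring

theorem locB {β D1 D2 h u T1 T2 γ1 η1 n1 γ2 η2 n2 e1 e2 : ℚ} (hD : D1 ≠ 0) (hR : RR D1 D2 h ≠ 0)
    (hG1 : u ^ 2 - D1 ≠ 0) (hG2 : (u - h) ^ 2 - D2 ≠ 0) (hn1 : n1 ≠ 0) (hn2 : n2 ≠ 0)
    (hN1 : T1 * n1 ^ 2 = γ1 ^ 2 - D1 * η1 ^ 2) (hN2 : T2 * n2 ^ 2 = γ2 ^ 2 - D2 * η2 ^ 2)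
    (he1 : Sm q 3 e1) (hT1 : T1 = (u ^ 2 - D1) * (1 + e1)) (he2 : Sm q 3 e2)
    (hT2 : T2 = ((u - h) ^ 2 - D2) * (1 + e2)) :
    ∃ ρ : ℚ, ρ ≠ 0 ∧ ∀ μ e : ℚ, Sm q 3 e → (μ = ρ * (1 + e) ∨ μ = ρ * D1 * (1 + e)) → ∀ K : ℤ,
      ∃ (N : ℕ) (x' : Fin 5 → ℚ), x' 4 = 0 ∧ ∀ x : Fin 5 → ℚ, (∀ i, Sm q N (x i - x' i)) →
        Near q K D1 D2 h (μ * pa D1 T1 γ1 η1 β (x 4) (x 0) (x 1))
          (μ * pb D1 T1 γ1 η1 β (x 4) (x 0) (x 1))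
          (pa D2 T2 γ2 η2 β (x 4) (x 2) (x 3)) (pb D2 T2 γ2 η2 β (x 4) (x 2) (x 3)) u := by
  obtain ⟨r1, A1, B1, r10, a1, b1⟩ := hil_rat β hG1 hn1 hN1 he1 hT1
  obtain ⟨r2, A2, B2, r20, a2, b2⟩ := hil_rat β hG2 hn2 hN2 he2 hT2
  push_cast at a2 b2
  obtain ⟨ρ, s, ρ0, s0, hρ⟩ := rat_cls (div_ne_zero r20 r10)
  refine ⟨ρ, ρ0, fun μ e he hμ K => ?_⟩
  obtain ⟨t, t0, ht⟩ := sq_rat he
  have hD' : (D1 : ℚ_[q]) ≠ 0 := by exact_mod_cast hD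
  rcases hμ with hμ | hμ
  · have m : (μ : ℚ_[q]) = r2 / r1 * s ^ 2 * t ^ 2 := by rw [hμ, ht, ← hρ]; push_cast; ring
    refine near_of hR r20 (A1 := A1 / (s * t)) (B1 := B1 / (s * t)) ?_ ?_ a2 b2 K
    · rw [m, show pa (D1 : ℚ_[q]) T1 γ1 η1 β 0 (A1 / (s * t)) (B1 / (s * t)) =
        pa (D1 : ℚ_[q]) T1 γ1 η1 β 0 A1 B1 / (s * t) ^ 2 by unfold pa; field_simp; ring, a1]
      field_simp
    · rw [m, show pb (D1 : ℚ_[q]) T1 γ1 η1 β 0 (A1 / (s * t)) (B1 / (s * t)) =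
        pb (D1 : ℚ_[q]) T1 γ1 η1 β 0 A1 B1 / (s * t) ^ 2 by unfold pb; field_simp; ring, b1]
      field_simp
  · have m : (μ : ℚ_[q]) = r2 / r1 * s ^ 2 * D1 * t ^ 2 := by rw [hμ, ht, ← hρ]; push_cast; ring
    refine near_of hR r20 (A1 := B1 / (s * t)) (B1 := A1 / (D1 * s * t)) ?_ ?_ a2 b2 K
    · rw [m, show pa (D1 : ℚ_[q]) T1 γ1 η1 β 0 (B1 / (s * t)) (A1 / (D1 * s * t)) =
        pa (D1 : ℚ_[q]) T1 γ1 η1 β 0 A1 B1 / (D1 * (s * t) ^ 2) by unfold pa; field_simp; ring, a1]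
      field_simp
    · rw [m, show pb (D1 : ℚ_[q]) T1 γ1 η1 β 0 (B1 / (s * t)) (A1 / (D1 * s * t)) =
        pb (D1 : ℚ_[q]) T1 γ1 η1 β 0 A1 B1 / (D1 * (s * t) ^ 2) by unfold pb; field_simp; ring, b1]
      field_simp

end Pool.Agent.MP_28f2cb_lc.H85
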