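import Pool.Agent.MP_28f2cb_lc.H85.HI
import Pool.Agent.MP_28f2cb_lc.H85.HF

/-! Valuations of the values of two quadratics at a root of the cubic. -/

namespace Pool.Agent.MP_28f2cb_lc.H85

open NumberField IsDedekindDomain

section Val

variable {L Γ : Type} [Field L] [LinearOrderedCommGroupWithZero Γ] (v : Valuation L Γ)

theorem v_int (n : ℤ) : v (n : L) ≤ 1 := intCast_mem v.integer n

variable {v}

theorem lt_mul {a b : L} (h : v a < 1) (h' : v b ≤ 1) : v (a * b) < 1 := by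
  rw [map_mul]; exact mul_lt_one_of_lt_of_le h h'

theorem mul_lt {a b : L} (h : v a ≤ 1) (h' : v b < 1) : v (a * b) < 1 := by
  rw [mul_comm]; exact lt_mul h' h

theorem lt_of_mul {a b : L} (h : v (a * b) < 1) (h' : v a = 1) : v b < 1 := by
  rwa [map_mul, h', one_mul] at h

theorem eq_of_sub {a b : L} (h : v (a - b) < 1) (h' : v b = 1) : v a = 1 := by
  rw [← h', ← sub_add_cancel a b]
  exact v.map_add_eq_of_lt_right (by rwa [h'])

theorem res_sq {x β D T γ η n A B V μ X : L} (hx : v x ≤ 1) (hβ : v β ≤ 1) (hγ : v γ ≤ 1)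
    (hη : v η ≤ 1) (hn : v n ≤ 1) (hA : v A ≤ 1) (hB : v B ≤ 1) (hX : v X ≤ 1) (hV : v V = 1)
    (h2 : v 2 = 1) (hD : v D = 1) (hμ : v μ = 1) (hT : v T = 1)
    (hN : T * n ^ 2 = γ ^ 2 - D * η ^ 2)
    (hc : v n < 1 → v (A - 1) < 1 ∧ v B < 1 ∧ (v γ = 1 ∨ v η = 1)) (hG : v (x ^ 2 - D) < 1)
    (hF : μ * pa D T γ η β V A B + μ * pb D T γ η β V A B * x + (x ^ 2 - D) * X = 0) :
    ∃ b, v b ≤ 1 ∧ v (β - b ^ 2) < 1 := by
  have hT' := hT.le
  have hμ' := hμ.le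
  have hV' := hV.le
  rw [← v.mem_integer_iff] at hx hβ hγ hη hn hA hB hX hT' hμ' hV'
  have h2' : (2 : L) ∈ v.integer := ofNat_mem _ 2
  have H : v (T * (γ - η * x) * (A + B * x) ^ 2 - β * V ^ 2 * (γ + η * x)) < 1 := by
    refine lt_of_mul ?_ hμ
    have : μ * (T * (γ - η * x) * (A + B * x) ^ 2 - β * V ^ 2 * (γ + η * x)) =
        (x ^ 2 - D) * (μ * T * (γ * B ^ 2 - 2 * η * A * B - η * B ^ 2 * x) - X) := by
      unfold pa pb at hF
      linear_combination hF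
    rw [this]
    refine lt_mul hG (v.mem_integer_iff _ |>.1 ?_)
    apply_rules [sub_mem, mul_mem, pow_mem]
  have hc1 : v (γ + η * x) ≤ 1 := v.mem_integer_iff _ |>.1 (by apply_rules [add_mem, mul_mem])
  have hc2 : v (γ - η * x) ≤ 1 := v.mem_integer_iff _ |>.1 (by apply_rules [sub_mem, mul_mem])
  have hU : v (A + B * x) ≤ 1 := v.mem_integer_iff _ |>.1 (by apply_rules [add_mem, mul_mem])
  rcases hc1.eq_or_lt with h | h
  · have h0 : v (V * (γ + η * x)) = 1 := by rw [map_mul, hV, h, mul_one]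
    have h1 : V * (γ + η * x) ≠ 0 := fun e => by simp [e] at h0
    refine ⟨T * n * (A + B * x) / (V * (γ + η * x)), ?_, ?_⟩
    · rw [map_div₀, h0, div_one]
      exact v.mem_integer_iff _ |>.1 (by apply_rules [add_mem, mul_mem])
    · have : β - (T * n * (A + B * x) / (V * (γ + η * x))) ^ 2 =
          (-(γ + η * x) * (T * (γ - η * x) * (A + B * x) ^ 2 - β * V ^ 2 * (γ + η * x)) -
            (x ^ 2 - D) * (T * (A + B * x) ^ 2 * η ^ 2)) / (V * (γ + η * x)) ^ 2 := by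
        rw [div_pow, eq_div_iff (pow_ne_zero 2 h1), sub_mul, div_mul_cancel₀ _ (pow_ne_zero 2 h1)]
        linear_combination (-T * (A + B * x) ^ 2) * hN
      rw [this, map_div₀, map_pow, h0, one_pow, div_one]
      refine v.map_sub_lt (mul_lt (by rwa [v.map_neg]) H) (lt_mul hG ?_)
      exact v.mem_integer_iff _ |>.1 (by apply_rules [add_mem, mul_mem, pow_mem])
  · exfalso
    have n1 : v n < 1 := by
      have : v (T * n ^ 2) < 1 := by
        rw [show T * n ^ 2 = (γ + η * x) * (γ - η * x) + (x ^ 2 - D) * η ^ 2 by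
          linear_combination hN]
        exact v.map_add_lt (lt_mul h hc2) (lt_mul hG (pow_mem hη 2))
      have := lt_of_mul this hT
      rwa [map_pow, pow_lt_one_iff_of_nonneg zero_le two_ne_zero] at this
    obtain ⟨a1, b1, c1⟩ := hc n1
    have u1 : v (A + B * x) = 1 := by
      refine eq_of_sub ?_ v.map_one
      rw [show A + B * x - 1 = A - 1 + B * x by ring]
      exact v.map_add_lt a1 (lt_mul b1 hx)
    have c2 : v (γ - η * x) < 1 := by
      have := v.map_add_lt H (mul_lt (a := β * V ^ 2) (mul_mem hβ (pow_mem hV' 2)) h)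
      rw [sub_add_cancel, map_mul, map_mul, map_pow, u1, hT] at this
      simpa using this
    have x1 : v x = 1 := by
      have := eq_of_sub hG hD
      rwa [map_pow, pow_eq_one_iff_of_nonneg zero_le two_ne_zero] at this
    rcases c1 with c1 | c1
    · have := v.map_add_lt h c2
      rw [show γ + η * x + (γ - η * x) = 2 * γ by ring, map_mul, h2, c1, one_mul] at this
      exact lt_irrefl _ this
    · have := v.map_sub_lt h c2
      rw [show γ + η * x - (γ - η * x) = 2 * η * x by ring, map_mul, map_mul, h2, c1, x1] at this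
      simp at this

theorem root_small {δ a b c : L} {ε : Γ} (hε : ε ≤ 1) (ha : v a ≤ ε ^ 3) (hb : v b ≤ ε ^ 3)
    (hc : v c ≤ ε ^ 3) (h : δ ^ 3 + a * δ ^ 2 + b * δ + c = 0) : v δ ≤ ε := by
  by_contra hn
  push Not at hn
  have h0 : 0 < v δ := zero_le.trans_lt hn
  have e1 : ε ^ 3 ≤ ε := pow_le_of_le_one zero_le hε three_ne_zero
  have e2 : ε ^ 3 ≤ ε ^ 2 := pow_le_pow_of_le_one zero_le hε (by norm_num)
  have h1 : v (a * δ ^ 2) < v δ ^ 3 := by
    rw [map_mul, map_pow, pow_succ' (v δ) 2]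
    exact mul_lt_mul_of_pos_right ((ha.trans e1).trans_lt hn) (pow_pos h0 2)
  have h2 : v (b * δ) < v δ ^ 3 := by
    rw [map_mul, pow_succ (v δ) 2]
    exact mul_lt_mul_of_pos_right ((hb.trans e2).trans_lt (pow_lt_pow_left₀ hn zero_le two_ne_zero)) h0
  have h3 : v c < v δ ^ 3 := hc.trans_lt (pow_lt_pow_left₀ hn zero_le three_ne_zero)
  have h4 := v.map_add_lt (v.map_add_lt h1 h2) h3
  rw [show a * δ ^ 2 + b * δ + c = -δ ^ 3 by linear_combination h, v.map_neg, map_pow] at h4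
  exact lt_irrefl _ h4

theorem one_mul_le {a b : L} {ε : Γ} (hε : ε ≤ 1) (ha : v (a - 1) ≤ ε) (hb : v (b - 1) ≤ ε) :
    v (a * b - 1) ≤ ε := by
  rw [show a * b - 1 = (a - 1) * (b - 1) + (a - 1) + (b - 1) by ring]
  refine v.map_add_le (v.map_add_le ?_ ha) hb
  rw [map_mul]
  exact (mul_le_mul' ha (hb.trans hε)).trans (mul_one ε).le

variable [CharZero L] {q : ℕ} [hq : Fact q.Prime] (hv : v (q : L) < 1)
include hv

omit [CharZero L] in
theorem v_unit {m : ℤ} (hm : ¬ (q : ℤ) ∣ m) : v (m : L) = 1 := by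
  refine (v_int v m).eq_or_lt.resolve_right fun h => ?_
  obtain ⟨a, b, e⟩ := ((Nat.prime_iff_prime_int.1 hq.out).coprime_iff_not_dvd).2 hm
  have h1 := v.map_add_lt (mul_lt (v_int v a) hv) (mul_lt (v_int v b) h)
  have : (a : L) * q + b * m = 1 := by exact_mod_cast congrArg (Int.cast : ℤ → L) e
  rw [this, map_one] at h1
  exact lt_irrefl _ h1

theorem v_rat {x : ℚ} (hx : x ≠ 0) : v (x : L) = v (q : L) ^ padicValRat q x := by
  obtain ⟨m, n, hm, hn, e⟩ := decomp q hx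
  conv_lhs => rw [e]
  push_cast
  rw [map_div₀, map_mul, map_zpow₀, v_unit hv hm, v_unit hv hn, mul_one, div_one]

omit hv in
theorem v_q : 0 < v (q : L) := by
  rw [zero_lt_iff, Ne, v.zero_iff]; exact_mod_cast hq.out.ne_zero

theorem v_sm {k : ℤ} {x : ℚ} (h : Sm q k x) : v (x : L) ≤ v (q : L) ^ k := by
  by_cases hx : x = 0
  · simp [hx]
  · rw [v_rat hv hx]
    exact zpow_le_zpow_right_of_le_one₀ v_q hv.le (h.resolve_left hx)

theorem v_sm0 {x : ℚ} (h : Sm q 0 x) : v (x : L) ≤ 1 := by simpa using v_sm hv h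

theorem v_sm1 {x : ℚ} (h : Sm q 1 x) : v (x : L) < 1 := (v_sm hv h).trans_lt (by simpa using hv)

theorem v_one {x : ℚ} (hx : x ≠ 0) (h : padicValRat q x = 0) : v (x : L) = 1 := by
  rw [v_rat hv hx, h, zpow_zero]

theorem v_sqM {β : ℚ} (h : SqM q β) : ∃ b : L, v b ≤ 1 ∧ v (β - b ^ 2) < 1 := by
  obtain ⟨b, h1, h2⟩ := h
  refine ⟨b, v_sm0 hv h1, ?_⟩
  simpa using v_sm1 hv h2

theorem close_G {x : L} {u D : ℚ} {K : ℕ} (hG : u ^ 2 - D ≠ 0) (hx : v (x - u) ≤ v (q : L) ^ K)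
    (h1 : Sm q (3 - K) (2 * u / (u ^ 2 - D))) (h2 : Sm q (3 - K) (1 / (u ^ 2 - D))) :
    v ((x ^ 2 - D) / (u ^ 2 - D) - 1) ≤ v (q : L) ^ 3 := by
  have hG' : (u : L) ^ 2 - D ≠ 0 := by exact_mod_cast hG
  have e : (x ^ 2 - D) / (u ^ 2 - D) - 1 = (x - u) * ((2 * u / (u ^ 2 - D) : ℚ) +
      (x - u) * (1 / (u ^ 2 - D) : ℚ)) := by
    push_cast; field_simp; ring
  have h3 : v ((2 * u / (u ^ 2 - D) : ℚ) + (x - u) * (1 / (u ^ 2 - D) : ℚ)) ≤
      v (q : L) ^ (3 - K : ℤ) := by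
    refine v.map_add_le (v_sm hv h1) ?_
    rw [map_mul]
    exact (mul_le_mul' (hx.trans (pow_le_one₀ zero_le hv.le)) (v_sm hv h2)).trans (one_mul _).le
  rw [e, map_mul]
  refine (mul_le_mul' hx h3).trans (le_of_eq ?_)
  rw [← zpow_natCast, ← zpow_add₀ v_q.ne', ← zpow_natCast]
  congr 1; push_cast; ring

theorem key_in {x : L} {a1 a2 D1 D2 h a b c d u T e : ℚ} {K : ℕ} (h1 : a1 ≠ 0) (h2 : a2 ≠ 0)
    (hG1 : u ^ 2 - D1 ≠ 0) (hG2 : (u - h) ^ 2 - D2 ≠ 0) (hN : Near q (3 * K) D1 D2 h a b c d u)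
    (s1 : Sm q (3 - K) (2 * u / (u ^ 2 - D1))) (s2 : Sm q (3 - K) (1 / (u ^ 2 - D1)))
    (s3 : Sm q (3 - K) (2 * (u - h) / ((u - h) ^ 2 - D2)))
    (s4 : Sm q (3 - K) (1 / ((u - h) ^ 2 - D2))) (he : Sm q 3 e)
    (hT : T = a1 * (u ^ 2 - D1) * (a2 * ((u - h) ^ 2 - D2)) * (1 + e))
    (hF : Fc (D1 : L) D2 h a b c d x = 0) :
    v (a1 * (x ^ 2 - D1) * (a2 * ((x - h) ^ 2 - D2)) / T - 1) ≤ v (q : L) ^ 3 := by
  obtain ⟨n0, n1, n2, n3⟩ := hN
  have c0 : w1 (D1 : L) D2 h a b c d = (w1 D1 D2 h a b c d : ℚ) := by simp [w1, RR]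
  have c1 : k2 (D1 : L) D2 h a b c d u = (k2 D1 D2 h a b c d u : ℚ) := by simp [k2, w0, w1, RR]
  have c2 : k1 (D1 : L) D2 h a b c d u = (k1 D1 D2 h a b c d u : ℚ) := by simp [k1, w0, w1, RR]
  have c3 : Fc (D1 : L) D2 h a b c d u = (Fc D1 D2 h a b c d u : ℚ) := by simp [Fc, w0, w1, RR]
  rw [Fc_taylor _ _ _ _ _ _ _ (u : L), c0, c1, c2, c3] at hF
  have n0' : ((w1 D1 D2 h a b c d : ℚ) : L) ≠ 0 := by exact_mod_cast n0
  have p3 : v (q : L) ^ (3 * K : ℤ) = (v (q : L) ^ K) ^ 3 := by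
    rw [← pow_mul, ← zpow_natCast]; congr 1; push_cast; ring
  have hδ : v (x - u) ≤ v (q : L) ^ K :=
    root_small (pow_le_one₀ zero_le hv.le) (p3 ▸ v_sm hv n1) (p3 ▸ v_sm hv n2) (p3 ▸ v_sm hv n3) (by
      push_cast; field_simp; linear_combination hF)
  have g1 := close_G hv hG1 hδ s1 s2
  have g2 := close_G hv (x := x - h) hG2 (by
    rwa [show x - h - ((u - h : ℚ) : L) = x - u by push_cast; ring]) s3 s4
  have e0 := one_add_ne q (he.mono (by norm_num : (1 : ℤ) ≤ 3))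
  have g3 : v (((1 + e)⁻¹ : ℚ) - 1 : L) ≤ v (q : L) ^ 3 := by
    have := v_sm hv (he.neg.div0 (val_one_add q (he.mono (by norm_num))))
    rw [show -e / (1 + e) = (1 + e)⁻¹ - 1 by field_simp; ring] at this
    exact_mod_cast this
  have l1 : v (q : L) ^ 3 ≤ 1 := pow_le_one₀ zero_le hv.le
  convert one_mul_le l1 (one_mul_le l1 g1 g2) g3 using 3
  have a1' : (a1 : L) ≠ 0 := by exact_mod_cast h1
  have a2' : (a2 : L) ≠ 0 := by exact_mod_cast h2
  rw [hT]; push_cast; field_simp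

theorem res_rat {x X : L} {β D T μ A B V : ℚ} {γ η n : ℤ} (hx : v x ≤ 1) (hX : v X ≤ 1) (q2 : q ≠ 2)
    (hβ : Sm q 0 β) (hA : Sm q 0 A) (hB : Sm q 0 B) (V0 : V ≠ 0) (hV : padicValRat q V = 0)
    (D0 : D ≠ 0) (hD : padicValRat q D = 0) (μ0 : μ ≠ 0) (hμ : padicValRat q μ = 0)
    (T0 : T ≠ 0) (hT : padicValRat q T = 0) (hN : T * n ^ 2 = γ ^ 2 - D * η ^ 2)
    (hc : (q : ℤ) ∣ n → Sm q 1 (A - 1) ∧ Sm q 1 B ∧ (¬ (q : ℤ) ∣ γ ∨ ¬ (q : ℤ) ∣ η))
    (hG : v (x ^ 2 - D) < 1)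
    (hF : (μ * pa D T γ η β V A B : ℚ) + (μ * pb D T γ η β V A B : ℚ) * x + (x ^ 2 - D) * X = 0) :
    ∃ b : L, v b ≤ 1 ∧ v (β - b ^ 2) < 1 := by
  refine res_sq (n := n) (γ := γ) (η := η) hx (v_sm0 hv hβ) (v_int v γ) (v_int v η) (v_int v n)
    (v_sm0 hv hA) (v_sm0 hv hB) hX (v_one hv V0 hV) ?_ (v_one hv D0 hD) (v_one hv μ0 hμ)
    (v_one hv T0 hT) (by exact_mod_cast hN) (fun hn => ?_) hG ?_
  · simpa using v_unit hv (nd_prime hq.out Nat.prime_two q2)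
  · obtain ⟨c1, c2, c3⟩ := hc (by
      by_contra h
      exact hn.ne (v_unit hv h))
    refine ⟨by simpa using v_sm1 hv c1, v_sm1 hv c2, c3.imp (v_unit hv) (v_unit hv)⟩
  · rw [← hF]; simp [pa, pb]

end Val

theorem HNq {L : Type} [Field L] [NumberField L] {β : ℚ} (hβ : 0 < β) (S : Finset ℕ)
    (hS : ∀ p ∈ S, p.Prime) (h2 : 2 ∈ S) (hu : ∀ p : ℕ, p.Prime → p ∉ S → padicValRat p β = 0)
    (x : L) (hin : ∀ v : Valuation L (WithZero (Multiplicative ℤ)), ∀ q ∈ S, v (q : L) < 1 →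
      v (x - 1) ≤ v (q : L) ^ 3)
    (hout : ∀ v : Valuation L (WithZero (Multiplicative ℤ)), ∀ q : ℕ, q.Prime → q ∉ S →
      v (q : L) < 1 → (∃ z : L, v x = v z ^ 2) ∨ ∃ b : L, v b ≤ 1 ∧ v (β - b ^ 2) < 1) :
    ∃ Y Z : L, x = Y ^ 2 - β * Z ^ 2 := by
  by_cases hx : x = 0
  · exact ⟨0, 0, by simp [hx]⟩
  have under : ∀ v : HeightOneSpectrum (𝓞 L), ∃ q : ℕ, q.Prime ∧ (q : 𝓞 L) ∈ v.asIdeal := by
    intro v
    have h0 : Ideal.absNorm v.asIdeal ≠ 0 := fun h => v.ne_bot (Ideal.absNorm_eq_zero_iff.1 h)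
    have h1 := Ideal.absNorm_mem v.asIdeal
    generalize Ideal.absNorm v.asIdeal = n at h0 h1
    induction n using Nat.recOnMul with
    | zero => exact absurd rfl h0
    | one => exact absurd ((Ideal.eq_top_iff_one _).2 (by simpa using h1)) v.isPrime.ne_top
    | prime p hp => exact ⟨p, hp, h1⟩
    | mul a b ha hb =>
      rw [Nat.cast_mul] at h1
      rcases v.isPrime.mem_or_mem h1 with h | h
      · exact ha (left_ne_zero_of_mul h0) h
      · exact hb (right_ne_zero_of_mul h0) h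
  have lt1 : ∀ (v : HeightOneSpectrum (𝓞 L)) (q : ℕ), (q : 𝓞 L) ∈ v.asIdeal →
      v.valuation L (q : L) < 1 := fun v q h => MP_db5b97_nt.H85.val_nat_lt_one h
  have out : ∀ v : HeightOneSpectrum (𝓞 L), ((∏ p ∈ S, p : ℕ) : 𝓞 L) ∉ v.asIdeal →
      ∃ q : ℕ, q.Prime ∧ q ∉ S ∧ v.valuation L (q : L) < 1 := fun v hv => by
    obtain ⟨q, hq, h⟩ := under v
    refine ⟨q, hq, fun hqS => hv ?_, lt1 v q h⟩
    obtain ⟨c, hc⟩ := Finset.dvd_prod_of_mem (fun p : ℕ => p) hqS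
    rw [hc, Nat.cast_mul]
    exact Ideal.mul_mem_right _ _ h
  have hd : (β.den : ℚ) ≠ 0 := by exact_mod_cast β.den_nz
  have e0 : ((β.num * β.den : ℤ) : ℚ) = β * β.den ^ 2 := by
    push_cast; rw [← Rat.mul_den_eq_num]; ring
  have e1 : ((β.num * β.den : ℤ) : L) = β * (β.den : L) ^ 2 := by exact_mod_cast congrArg (Rat.cast : ℚ → L) e0
  have vd : ∀ q : ℕ, q.Prime → q ∉ S → padicValRat q (β.den : ℚ) = 0 := fun q hq hn => by
    have h1 := hu q hq hn
    have := Fact.mk hq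
    by_cases h3 : q ∣ β.den
    swap
    · rw [padicValRat.of_nat, padicValNat.eq_zero_of_not_dvd h3]; rfl
    have h4 : ¬ (q : ℤ) ∣ β.num := fun h4 =>
      hq.one_lt.ne' (Nat.eq_one_of_dvd_coprimes β.reduced (Int.natCast_dvd.1 h4) h3)
    rw [padicValRat_def, padicValInt.eq_zero_of_not_dvd h4] at h1
    rw [padicValRat.of_nat]
    omega
  obtain ⟨Y, Z, e⟩ := CF.HN (k := L) (β.num * β.den)
    (mul_pos (Rat.num_pos.2 hβ) (by exact_mod_cast β.den_pos)) (∏ p ∈ S, p)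
    (Finset.prod_ne_zero_iff.2 fun p hp => (hS p hp).ne_zero)
    (Finset.dvd_prod_of_mem (fun p : ℕ => p) h2) (fun v hv => by
      obtain ⟨q, hq, hn, h⟩ := out v hv
      have := Fact.mk hq
      have h3 := v_one h hd (vd q hq hn)
      rw [Rat.cast_natCast] at h3
      rw [e1, map_mul, map_pow, v_one h hβ.ne' (hu q hq hn), h3]; simp) x hx (fun v hv => by
      rw [Nat.cast_prod] at hv
      obtain ⟨q, hq, h⟩ := (Ideal.IsPrime.prod_mem_iff (hp := v.isPrime)).1 hv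
      have := Fact.mk (hS q hq)
      have h1 := lt1 v q h
      have h3 := v_rat h1 (prod_ne S hS fun _ => 1).ne'
      rw [val_prod q S hS, if_pos hq] at h3
      simp only [zpow_one, Rat.cast_prod, Rat.cast_natCast] at h3
      rw [Nat.cast_prod, h3]
      exact hin _ q hq h1) (fun v hv => by
      obtain ⟨q, hq, hn, h⟩ := out v hv
      have := Fact.mk hq
      have h3 := v_one h hd (vd q hq hn)
      rw [Rat.cast_natCast] at h3
      refine (hout _ q hq hn h).imp id fun ⟨b, h1, h4⟩ => ⟨b * β.den, ?_, ?_⟩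
      · rw [map_mul, h3, mul_one]; exact h1
      · rw [e1, mul_pow, ← sub_mul, map_mul, map_pow, h3]; simpa using h4)
  exact ⟨Y, β.den * Z, by rw [e, e1]; ring⟩

end Pool.Agent.MP_28f2cb_lc.H85
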