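import Pool.Agent.MP_28f2cb_lc.H85.HJ

/-! Rational points on the surfaces `y ^ 2 - β z ^ 2 = g₁ (u) g₂ (u)`. -/

namespace Pool.Agent.MP_28f2cb_lc.H85

open Polynomial in
theorem descent {c3 c2 c1 c0 g4 g3 g2 g1 g0 β : ℚ} (hc : c3 ≠ 0)
    (H : ∀ (L : Type) [Field L] [NumberField L] (x : L),
      c3 * x ^ 3 + c2 * x ^ 2 + c1 * x + c0 = 0 →
      ∃ Y Z : L, g4 * x ^ 4 + g3 * x ^ 3 + g2 * x ^ 2 + g1 * x + g0 = Y ^ 2 - β * Z ^ 2) :
    ∃ y z : ℚ, (∃ u, g4 * u ^ 4 + g3 * u ^ 3 + g2 * u ^ 2 + g1 * u + g0 = y ^ 2 - β * z ^ 2) ∨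
      g4 = y ^ 2 - β * z ^ 2 := by
  by_cases hr : ∃ u : ℚ, c3 * u ^ 3 + c2 * u ^ 2 + c1 * u + c0 = 0
  · obtain ⟨u, hu⟩ := hr
    obtain ⟨y, z, e⟩ := H ℚ u hu
    exact ⟨y, z, Or.inl ⟨u, e⟩⟩
  obtain ⟨F, hF⟩ : ∃ F : ℚ[X], F = C c3 * X ^ 3 + C c2 * X ^ 2 + C c1 * X + C c0 := ⟨_, rfl⟩
  obtain ⟨g, hg⟩ : ∃ g : ℚ[X], g = C g4 * X ^ 4 + C g3 * X ^ 3 + C g2 * X ^ 2 + C g1 * X + C g0 :=
    ⟨_, rfl⟩
  have dF : F.natDegree = 3 := hF ▸ natDegree_cubic hc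
  have F0 : F ≠ 0 := by rintro rfl; simp at dF
  have dg : g.natDegree ≤ 4 := by rw [hg]; compute_degree
  have cg : g.coeff 4 = g4 := by rw [hg]; simp [coeff_X_pow]
  have hi : Irreducible F := irreducible_of_degree_le_three_of_not_isRoot (by rw [dF]; decide)
    fun u hu => hr ⟨u, by simpa [hF] using hu⟩
  have := Fact.mk hi
  obtain ⟨Y, Z, e⟩ := H (AdjoinRoot F) (AdjoinRoot.root F) (by
    have h := AdjoinRoot.aeval_eq (f := F) (C c3 * X ^ 3 + C c2 * X ^ 2 + C c1 * X + C c0)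
    rw [AdjoinRoot.mk_eq_zero.2 hF.dvd] at h
    simpa using h)
  have red : ∀ Y : AdjoinRoot F, ∃ P : ℚ[X], P.natDegree ≤ 2 ∧ AdjoinRoot.mk F P = Y := fun Y => by
    obtain ⟨P, rfl⟩ := AdjoinRoot.mk_surjective Y
    refine ⟨P % F, ?_, ?_⟩
    · have := natDegree_mod_lt P (q := F) (by omega)
      omega
    · rw [AdjoinRoot.mk_eq_mk, EuclideanDomain.mod_eq_sub_mul_div]
      simp
  obtain ⟨P, hP, rfl⟩ := red Y
  obtain ⟨R, hR, rfl⟩ := red Z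
  obtain ⟨Q, hQ⟩ : F ∣ g - (P ^ 2 - C β * R ^ 2) := by
    rw [← AdjoinRoot.mk_eq_mk, ← AdjoinRoot.aeval_eq g, hg]
    simpa using e
  have d1 : (P ^ 2).natDegree ≤ 4 := natDegree_pow_le.trans (by omega)
  have d2 : (C β * R ^ 2).natDegree ≤ 4 :=
    (natDegree_C_mul_le _ _).trans (natDegree_pow_le.trans (by omega))
  have d3 : (F * Q).natDegree ≤ 4 :=
    hQ ▸ (natDegree_sub_le _ _).trans (max_le dg ((natDegree_sub_le _ _).trans (max_le d1 d2)))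
  by_cases hQ1 : Q.natDegree = 0
  · refine ⟨P.coeff 2, R.coeff 2, Or.inr ?_⟩
    have := congrArg (coeff · 4) hQ
    rw [coeff_eq_zero_of_natDegree_lt (p := F * Q) (natDegree_mul_le.trans_lt (by omega))] at this
    simp only [coeff_sub, coeff_C_mul, cg] at this
    rw [show 4 = 2 * 2 from rfl, coeff_pow_of_natDegree_le hP, coeff_pow_of_natDegree_le hR] at this
    linear_combination this
  · have Q0 : Q ≠ 0 := by rintro rfl; simp at hQ1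
    rw [natDegree_mul F0 Q0] at d3
    obtain ⟨u, hu⟩ := exists_root_of_degree_eq_one (p := Q)
      ((degree_eq_iff_natDegree_eq Q0 (n := 1)).2 (by omega))
    refine ⟨P.eval u, R.eval u, Or.inl ⟨u, ?_⟩⟩
    have := congrArg (eval u) hQ
    rw [eval_mul, hu.eq_zero, mul_zero, hg] at this
    simp only [eval_sub, eval_add, eval_mul, eval_pow, eval_C, eval_X] at this
    linear_combination this

theorem sm_big (q : ℕ) (x : ℚ) {K : ℕ} (h : 3 + (padicValRat q x).natAbs ≤ K) : Sm q (3 - K) x :=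
  (sm_val x).mono (by omega)

theorem sm_p0 {q : ℕ} [Fact q.Prime] {D T γ η β V A B : ℚ} (hD : Sm q 0 D) (hT : Sm q 0 T)
    (hγ : Sm q 0 γ) (hη : Sm q 0 η) (hβ : Sm q 0 β) (hV : Sm q 0 V) (hA : Sm q 0 A) (hB : Sm q 0 B) :
    Sm q 0 (pa D T γ η β V A B) ∧ Sm q 0 (pb D T γ η β V A B) := by
  have h2 : Sm q 0 2 := sm_nat 2
  unfold pa pb
  constructor <;> apply_rules [Sm.sub, Sm.add, Sm.mul0, Sm.pow0]

theorem sm_w0 {q : ℕ} [Fact q.Prime] {D1 D2 h a b c d : ℚ} (h1 : Sm q 0 D1) (h2 : Sm q 0 D2)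
    (hh : Sm q 0 h) (ha : Sm q 0 a) (hb : Sm q 0 b) (hc : Sm q 0 c) (hd : Sm q 0 d)
    (hR : padicValRat q (RR D1 D2 h) = 0) :
    Sm q 0 (w0 D1 D2 h a b c d) ∧ Sm q 0 (w1 D1 D2 h a b c d) := by
  have h2 : Sm q 0 2 := sm_nat 2
  unfold w0 w1
  constructor <;> refine Sm.div0 ?_ hR <;> apply_rules [Sm.sub, Sm.add, Sm.mul0, Sm.pow0]

theorem chat {β a1 a2 D1 D2 h : ℚ} (hβ : 0 < β) (h1 : a1 ≠ 0) (h2 : a2 ≠ 0) (hD1 : D1 ≠ 0)
    (hD2 : D2 ≠ 0) (hR : RR D1 D2 h ≠ 0) (h0 : hs 2 β D1 = 1) (α : ℕ → ZMod 2) (S0 : Finset ℕ)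
    (hS0 : ∀ p ∈ S0, p.Prime) (hα : ∀ p : ℕ, p.Prime → p ∉ S0 → α p = 0)
    (hsum : ∑ p ∈ S0, α p = 0)
    (loc : ∀ p : ℕ, p.Prime → ∃ u : ℚ, u ^ 2 - D1 ≠ 0 ∧ (u - h) ^ 2 - D2 ≠ 0 ∧
      hs p β (a1 * (u ^ 2 - D1)) = α p ∧ hs p β (a2 * ((u - h) ^ 2 - D2)) = α p) :
    ∃ y z : ℚ, (∃ u, a1 * (u ^ 2 - D1) * (a2 * ((u - h) ^ 2 - D2)) = y ^ 2 - β * z ^ 2) ∨
      a1 * a2 = y ^ 2 - β * z ^ 2 := by
  classical
  obtain ⟨S, hS, s2, s0, hout⟩ : ∃ S : Finset ℕ, (∀ p ∈ S, p.Prime) ∧ 2 ∈ S ∧ S0 ⊆ S ∧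
      ∀ p : ℕ, p.Prime → p ∉ S → padicValRat p β = 0 ∧ padicValRat p a1 = 0 ∧
        padicValRat p a2 = 0 ∧ padicValRat p D1 = 0 ∧ padicValRat p D2 = 0 ∧
        padicValRat p (RR D1 D2 h) = 0 ∧ Sm p 0 h := by
    refine ⟨insert 2 (S0 ∪ supp β ∪ supp a1 ∪ supp a2 ∪ supp D1 ∪ supp D2 ∪ supp (RR D1 D2 h) ∪
      h.den.primeFactors), fun p hp => ?_, Finset.mem_insert_self _ _, fun p hp => by simp [hp],
      fun p hp hn => ?_⟩
    · simp only [Finset.mem_insert, Finset.mem_union] at hp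
      rcases hp with rfl | ((((((hp | hp) | hp) | hp) | hp) | hp) | hp) | hp
      exacts [Nat.prime_two, hS0 p hp, supp_prime hp, supp_prime hp, supp_prime hp, supp_prime hp,
        supp_prime hp, supp_prime hp, Nat.prime_of_mem_primeFactors hp]
    · simp only [Finset.mem_insert, Finset.mem_union, not_or] at hn
      obtain ⟨-, ⟨⟨⟨⟨⟨⟨-, c1⟩, c2⟩, c3⟩, c4⟩, c5⟩, c6⟩, c7⟩ := hn
      exact ⟨val_supp hβ.ne' hp c1, val_supp h1 hp c2, val_supp h2 hp c3, val_supp hD1 hp c4,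
        val_supp hD2 hp c5, val_supp hR hp c6,
        sm_den fun hd => c7 (Nat.mem_primeFactors.2 ⟨hp, hd, h.den_nz⟩)⟩
  have ne2 : ∀ p, p ∉ S → p ≠ 2 := by rintro p hp rfl; exact hp s2
  have uβ : ∀ p : ℕ, p.Prime → p ∉ S → padicValRat p β = 0 := fun p hp hn => (hout p hp hn).1
  choose! u G1 G2 l1 l2 using loc
  have sα : ∑ p ∈ S, α p = 0 := by
    rw [← hsum, eq_comm]
    exact Finset.sum_subset s0 fun p hp hn => hα p (hS p hp) hn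
  have sG : ∀ (a : ℚ) (G : ℕ → ℚ), a ≠ 0 → (∀ p : ℕ, p.Prime → p ∉ S → padicValRat p a = 0) →
      (∀ p : ℕ, p.Prime → G p ≠ 0) → (∀ p : ℕ, p.Prime → hs p β (a * G p) = α p) →
      ∑ p ∈ S, hs p β (G p) = 0 := fun a G ha hu hG hl => by
    have r := recip hβ.ne' ha S hS fun p hp hn =>
      hs_unit (ne2 p hn) (V_of_val (uβ p hp hn)) (V_of_val (hu p hp hn))
    rw [hinf_zero.2 fun h => hβ.not_gt h.1] at r
    rw [← zero_add (∑ p ∈ S, hs p β (G p)), ← r, ← Finset.sum_add_distrib, r, ← sα]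
    refine Finset.sum_congr rfl fun p hp => ?_
    have := Fact.mk (hS p hp)
    rw [← hs_mul_right p β ha (hG p (hS p hp)), hl p (hS p hp)]
  have nT : ∀ (a D : ℚ) (e : ℕ → ℚ), a ≠ 0 → D ≠ 0 →
      (∀ p : ℕ, p.Prime → p ∉ S → padicValRat p a = 0) →
      (∀ p : ℕ, p.Prime → p ∉ S → padicValRat p D = 0) → (∀ p : ℕ, p.Prime → e p ^ 2 - D ≠ 0) →
      (∀ p : ℕ, p.Prime → hs p β (a * (e p ^ 2 - D)) = α p) → ∃ (T : ℚ) (γ η n : ℤ), T ≠ 0 ∧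
        (∀ p ∈ S, ∃ ε, Sm p 3 ε ∧ T = (e p ^ 2 - D) * (1 + ε)) ∧
        (∀ p : ℕ, p.Prime → p ∉ S → Gd p β T) ∧ n ≠ 0 ∧ T * n ^ 2 = γ ^ 2 - D * η ^ 2 ∧
        ∀ q : ℕ, q.Prime → (q : ℤ) ∣ n → ¬ (q : ℤ) ∣ γ ∨ ¬ (q : ℤ) ∣ η := by
    intro a D e ha hD ua uD hG hl
    obtain ⟨T, T0, t1, t2, t3⟩ := appr2 S hS s2 hβ uβ (fun p => e p ^ 2 - D)
      (fun p hp => hG p (hS p hp)) (sG a _ ha ua hG hl)
    obtain ⟨x, y, e1⟩ := t3 D hD uD fun p hp => by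
      have := Fact.mk (hS p hp)
      simpa using hs_norm p (z := e p) (w := 1) hD (by simpa using hG p (hS p hp))
    obtain ⟨γ, η, n, n0, c1, c2, c3⟩ := prim2 x y
    exact ⟨T, γ, η, n, T0.ne', t1, t2, n0, by rw [c1, c2, e1]; ring, c3⟩
  obtain ⟨T1, γ1, η1, n1, T10, t11, t12, n10, N1, cp1⟩ := nT a1 D1 u h1 hD1
    (fun p hp hn => (hout p hp hn).2.1) (fun p hp hn => (hout p hp hn).2.2.2.1) G1 l1
  obtain ⟨T2, γ2, η2, n2, T20, t21, t22, n20, N2, cp2⟩ := nT a2 D2 (fun p => u p - h) h2 hD2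
    (fun p hp hn => (hout p hp hn).2.2.1) (fun p hp hn => (hout p hp hn).2.2.2.2.1) G2 l2
  have z0 : ∀ p ∈ S, hs p β (a1 * (u p ^ 2 - D1) * (a2 * ((u p - h) ^ 2 - D2))) = 0 := fun p hp => by
    have := Fact.mk (hS p hp)
    rw [hs_mul_right p β (mul_ne_zero h1 (G1 p (hS p hp))) (mul_ne_zero h2 (G2 p (hS p hp))),
      l1 p (hS p hp), l2 p (hS p hp), z2]
  obtain ⟨T, T0, t1, t2, t3⟩ := appr2 S hS s2 hβ uβ
    (fun p => a1 * (u p ^ 2 - D1) * (a2 * ((u p - h) ^ 2 - D2)))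
    (fun p hp => mul_ne_zero (mul_ne_zero h1 (G1 p (hS p hp))) (mul_ne_zero h2 (G2 p (hS p hp))))
    (Finset.sum_eq_zero z0)
  obtain ⟨y0, z0, eT⟩ := t3 β hβ.ne' uβ z0
  have hρ : ∀ q ∈ S, ∃ ρ : ℚ, ρ ≠ 0 ∧ ∀ μ e : ℚ, Sm q 3 e →
      (μ = ρ * (1 + e) ∨ μ = ρ * D1 * (1 + e)) → ∀ K : ℤ,
      ∃ (N : ℕ) (x' : Fin 5 → ℚ), x' 4 = 0 ∧ ∀ x : Fin 5 → ℚ, (∀ i, Sm q N (x i - x' i)) →
        Near q K D1 D2 h (μ * pa D1 T1 γ1 η1 β (x 4) (x 0) (x 1))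
          (μ * pb D1 T1 γ1 η1 β (x 4) (x 0) (x 1))
          (pa D2 T2 γ2 η2 β (x 4) (x 2) (x 3)) (pb D2 T2 γ2 η2 β (x 4) (x 2) (x 3)) (u q) := by
    intro q hq
    have := Fact.mk (hS q hq)
    obtain ⟨e1, he1, hT1⟩ := t11 q hq
    obtain ⟨e2, he2, hT2⟩ := t21 q hq
    exact locB hD1 hR (G1 q (hS q hq)) (G2 q (hS q hq)) (by exact_mod_cast n10)
      (by exact_mod_cast n20) N1 N2 he1 hT1 he2 hT2
  choose! ρ ρ0 hρ using hρ
  obtain ⟨t, ht, hts⟩ : ∃ t : ℕ → ℚ, (∀ q ∈ S, t q = ρ q ∨ t q = ρ q * D1) ∧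
      ∑ q ∈ S, hs q β (t q) = 0 := by
    rcases z2c (∑ q ∈ S, hs q β (ρ q)) with e | e
    · exact ⟨ρ, fun _ _ => Or.inl rfl, e⟩
    · refine ⟨Function.update ρ 2 (ρ 2 * D1), fun q _ => ?_, ?_⟩
      · by_cases e : q = 2
        · right; rw [e, Function.update_self]
        · left; rw [Function.update_of_ne e]
      · rw [← Finset.add_sum_erase S _ s2] at e ⊢
        rw [Function.update_self, hs_mul_right 2 β (ρ0 2 s2) hD1, h0,
          Finset.sum_congr rfl (g := fun q => hs q β (ρ q)) fun q hq => by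
            rw [Function.update_of_ne (Finset.ne_of_mem_erase hq)]]
        linear_combination e + z2 1
  obtain ⟨μ, μ0, m1, m2, -⟩ := appr2 S hS s2 hβ uβ t (fun q hq => by
    rcases ht q hq with e | e <;> rw [e]
    exacts [ρ0 q hq, mul_ne_zero (ρ0 q hq) hD1]) hts
  let K : ℕ → ℕ := fun q => 3 + (padicValRat q (2 * u q / (u q ^ 2 - D1))).natAbs +
    (padicValRat q (1 / (u q ^ 2 - D1))).natAbs +
    (padicValRat q (2 * (u q - h) / ((u q - h) ^ 2 - D2))).natAbs +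
    (padicValRat q (1 / ((u q - h) ^ 2 - D2))).natAbs
  have hN : ∀ q ∈ S, ∃ (N : ℕ) (x' : Fin 5 → ℚ), x' 4 = 0 ∧
      ∀ x : Fin 5 → ℚ, (∀ i, Sm q N (x i - x' i)) →
        Near q (3 * K q) D1 D2 h (μ * pa D1 T1 γ1 η1 β (x 4) (x 0) (x 1))
          (μ * pb D1 T1 γ1 η1 β (x 4) (x 0) (x 1))
          (pa D2 T2 γ2 η2 β (x 4) (x 2) (x 3)) (pb D2 T2 γ2 η2 β (x 4) (x 2) (x 3)) (u q) := by
    intro q hq
    obtain ⟨e, he, hμ⟩ := m1 q hq
    exact hρ q hq μ e he ((ht q hq).imp (fun h => by rw [hμ, h]) fun h => by rw [hμ, h]) _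
  choose! N x' x4 hN using hN
  have hx : ∀ i : Fin 5, ∃ x : ℚ, (∀ q ∈ S, Sm q (N q) (x - x' q i)) ∧ ∀ q : ℕ, q.Prime → q ∉ S →
      Sm q 0 x ∧ ((q : ℤ) ∣ n1 * n2 → Sm q 1 (x - if i = 0 ∨ i = 2 then 1 else 0)) := by
    intro i
    obtain ⟨x, a, b⟩ := sapp (S ∪ (n1 * n2).natAbs.primeFactors) (fun p hp =>
      (Finset.mem_union.1 hp).elim (hS p) Nat.prime_of_mem_primeFactors)
      (fun q => if q ∈ S then x' q i else if i = 0 ∨ i = 2 then 1 else 0) (S.sup N + 1)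
    refine ⟨x, fun q hq => ?_, fun q hq hn => ?_⟩
    · have := a q (Finset.mem_union_left _ hq)
      rw [if_pos hq] at this
      have h3 : N q ≤ S.sup N := Finset.le_sup hq
      exact this.mono (by push_cast; omega)
    · have := Fact.mk hq
      have c : (q : ℤ) ∣ n1 * n2 → Sm q 1 (x - if i = 0 ∨ i = 2 then 1 else 0) := fun hd => by
        have := a q (Finset.mem_union_right _ (Nat.mem_primeFactors.2
          ⟨hq, Int.natCast_dvd.1 hd, Int.natAbs_ne_zero.2 (mul_ne_zero n10 n20)⟩))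
        rw [if_neg hn] at this
        exact this.mono (by push_cast; omega)
      refine ⟨?_, c⟩
      by_cases hd : (q : ℤ) ∣ n1 * n2
      · rw [← sub_add_cancel x (if i = 0 ∨ i = 2 then 1 else 0)]
        refine ((c hd).mono (by norm_num)).add ?_
        split_ifs
        exacts [sm_one, Sm.zero]
      · refine b q hq fun hm => (Finset.mem_union.1 hm).elim hn fun hm => hd ?_
        exact Int.natCast_dvd.2 (Nat.dvd_of_mem_primeFactors hm)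
  choose x xin xout using hx
  obtain ⟨V, V0, Vin, Vout⟩ : ∃ V : ℚ, V ≠ 0 ∧ (∀ q ∈ S, Sm q (N q) V) ∧
      ∀ q : ℕ, q.Prime → q ∉ S → padicValRat q V = 0 := by
    refine ⟨_, (prod_ne S hS fun q => N q).ne', fun q hq => ?_, fun q hq hn => ?_⟩
    · have := Fact.mk (hS q hq)
      exact sm_of_val (by rw [val_prod q S hS, if_pos hq])
    · have := Fact.mk hq
      rw [val_prod q S hS, if_neg hn]
  obtain ⟨a, ha⟩ : ∃ a, a = μ * pa D1 T1 γ1 η1 β V (x 0) (x 1) := ⟨_, rfl⟩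
  obtain ⟨b, hb⟩ : ∃ b, b = μ * pb D1 T1 γ1 η1 β V (x 0) (x 1) := ⟨_, rfl⟩
  obtain ⟨c, hc⟩ : ∃ c, c = pa D2 T2 γ2 η2 β V (x 2) (x 3) := ⟨_, rfl⟩
  obtain ⟨d, hd⟩ : ∃ d, d = pb D2 T2 γ2 η2 β V (x 2) (x 3) := ⟨_, rfl⟩
  have near : ∀ q ∈ S, Near q (3 * K q) D1 D2 h a b c d (u q) := fun q hq => by
    rw [ha, hb, hc, hd]
    refine hN q hq ![x 0, x 1, x 2, x 3, V] fun i => ?_
    fin_cases i
    exacts [xin 0 q hq, xin 1 q hq, xin 2 q hq, xin 3 q hq, by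
      simpa [x4 q hq] using Vin q hq]
  have key : ∀ (L : Type) [Field L] [NumberField L] (ϑ : L), Fc (D1 : L) D2 h a b c d ϑ = 0 →
      ∃ Y Z : L, a1 * (ϑ ^ 2 - D1) * (a2 * ((ϑ - h) ^ 2 - D2)) = Y ^ 2 - β * Z ^ 2 := by
    intro L _ _ ϑ hF
    obtain ⟨Y, Z, e⟩ := HNq hβ S hS s2 uβ (a1 * (ϑ ^ 2 - D1) * (a2 * ((ϑ - h) ^ 2 - D2)) / T : L)
      (fun v q hq hv => by
        have := Fact.mk (hS q hq)
        obtain ⟨e, he, hT⟩ := t1 q hq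
        exact key_in hv h1 h2 (G1 q (hS q hq)) (G2 q (hS q hq)) (near q hq)
          (sm_big _ _ (by simp only [K]; omega)) (sm_big _ _ (by simp only [K]; omega))
          (sm_big _ _ (by simp only [K]; omega)) (sm_big _ _ (by simp only [K]; omega)) he hT hF)
      (fun v q hq hn hv => by
        have := Fact.mk hq
        by_cases hsq : SqM q β
        · exact Or.inr (v_sqM hv hsq)
        have un : ∀ T : ℚ, Gd q β T → padicValRat q T = 0 := fun T hT =>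
          hT.resolve_right fun h => hsq h.2
        obtain ⟨o1, o2, o3, o4, o5, o6, o7⟩ := hout q hq hn
        have vx : v (a1 * (ϑ ^ 2 - D1) * (a2 * ((ϑ - h) ^ 2 - D2)) / T : L) =
            v (ϑ ^ 2 - D1) * v ((ϑ - h) ^ 2 - D2) := by
          rw [map_div₀, map_mul, map_mul, map_mul, v_one hv h1 o2, v_one hv h2 o3,
            v_one hv T0.ne' (un T (t2 q hq hn))]
          simp
        rw [vx]
        have vh := v_sm0 hv o7
        have vD1 := v_one hv hD1 o4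
        have vD2 := v_one hv hD2 o5
        rcases lt_or_ge 1 (v ϑ) with hϑ | hϑ
        · refine Or.inl ⟨ϑ ^ 2, ?_⟩
          have e1 : v (ϑ - h) = v ϑ := v.map_sub_eq_of_lt_left (vh.trans_lt hϑ)
          have e2 : 1 < v ϑ ^ 2 := one_lt_pow₀ hϑ two_ne_zero
          rw [v.map_sub_eq_of_lt_left (by rwa [vD1, map_pow]),
            v.map_sub_eq_of_lt_left (by rwa [vD2, map_pow, e1]), map_pow, map_pow, e1, sq (v ϑ ^ 2)]
        have hϑ' : v (ϑ - h) ≤ 1 := v.map_sub_le hϑ vh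
        have p1 := sm_p0 (sm_of_val o4) (t12 q hq hn).sm (sm_int γ1) (sm_int η1) (sm_of_val o1)
          (sm_of_val (Vout q hq hn)) (xout 0 q hq hn).1 (xout 1 q hq hn).1
        have p2 := sm_p0 (sm_of_val o5) (t22 q hq hn).sm (sm_int γ2) (sm_int η2) (sm_of_val o1)
          (sm_of_val (Vout q hq hn)) (xout 2 q hq hn).1 (xout 3 q hq hn).1
        have p3 := sm_w0 (a := a) (b := b) (c := c) (d := d) (sm_of_val o4) (sm_of_val o5) o7
          (ha ▸ (m2 q hq hn).sm.mul0 p1.1) (hb ▸ (m2 q hq hn).sm.mul0 p1.2) (hc ▸ p2.1) (hd ▸ p2.2) o6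
        have c0 : w0 (D1 : L) D2 h a b c d = (w0 D1 D2 h a b c d : ℚ) := by simp [w0, RR]
        have c1 : w1 (D1 : L) D2 h a b c d = (w1 D1 D2 h a b c d : ℚ) := by simp [w1, RR]
        have vX : ∀ y : L, v y ≤ 1 →
            v (w0 (D1 : L) D2 h a b c d + w1 (D1 : L) D2 h a b c d * y) ≤ 1 := fun y hy => by
          rw [c0, c1]
          exact v.map_add_le (v_sm0 hv p3.1) (by
            rw [map_mul]; exact mul_le_one' (v_sm0 hv p3.2) hy)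
        rcases (v.map_sub_le (show v (ϑ ^ 2) ≤ 1 by rw [map_pow]; exact pow_le_one₀ zero_le hϑ)
          vD1.le).eq_or_lt with g1 | g1
        swap
        · refine Or.inr (res_rat hv hϑ (vX _ hϑ') (ne2 q hn) (sm_of_val o1) (xout 0 q hq hn).1
            (xout 1 q hq hn).1 V0 (Vout q hq hn) hD1 o4 μ0.ne' (un μ (m2 q hq hn)) T10
            (un T1 (t12 q hq hn)) N1 (fun hd => ⟨?_, ?_, cp1 q hq hd⟩) g1 ?_)
          · simpa using (xout 0 q hq hn).2 (hd.mul_right _)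
          · simpa using (xout 1 q hq hn).2 (hd.mul_right _)
          · rw [← ha, ← hb]; exact hF
        rcases (v.map_sub_le (show v ((ϑ - h) ^ 2) ≤ 1 by
          rw [map_pow]; exact pow_le_one₀ zero_le hϑ') vD2.le).eq_or_lt with g2 | g2
        swap
        · refine Or.inr (res_rat hv (μ := 1) hϑ' (vX _ (v.map_add_le hϑ vh)) (ne2 q hn) (sm_of_val o1)
            (xout 2 q hq hn).1 (xout 3 q hq hn).1 V0 (Vout q hq hn) hD2 o5 one_ne_zero (by simp) T20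
            (un T2 (t22 q hq hn)) N2 (fun hd => ⟨?_, ?_, cp2 q hq hd⟩) g2 ?_)
          · simpa using (xout 2 q hq hn).2 (hd.mul_left _)
          · simpa using (xout 3 q hq hn).2 (hd.mul_left _)
          · rw [one_mul, one_mul, ← hc, ← hd, ← Fc_alt, hF]
            have : RR (D1 : L) D2 h = (RR D1 D2 h : ℚ) := by simp [RR]
            rw [this]; exact_mod_cast hR
        exact Or.inl ⟨1, by simp [g1, g2]⟩)
    have T0' : (T : L) ≠ 0 := by exact_mod_cast T0.ne'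
    rw [div_eq_iff T0', eT] at e
    exact ⟨Y * y0 + β * Z * z0, Y * z0 + Z * y0, by rw [e]; push_cast; ring⟩
  obtain ⟨y, z, e⟩ := descent (c3 := w1 D1 D2 h a b c d) (c2 := k2 D1 D2 h a b c d 0)
    (c1 := k1 D1 D2 h a b c d 0) (c0 := Fc D1 D2 h a b c d 0) (g4 := a1 * a2)
    (g3 := -2 * h * a1 * a2) (g2 := a1 * a2 * (h ^ 2 - D2 - D1)) (g1 := 2 * h * D1 * a1 * a2)
    (g0 := -D1 * (h ^ 2 - D2) * a1 * a2) (β := β) (near 2 s2).1 (fun L _ _ ϑ hF => by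
      obtain ⟨Y, Z, e⟩ := key L ϑ (by
        rw [Fc_taylor _ _ _ _ _ _ _ 0]
        refine Eq.trans ?_ hF
        simp [Fc, k1, k2, w0, w1, RR])
      exact ⟨Y, Z, by rw [← e]; push_cast; ring⟩)
  exact ⟨y, z, e.imp (fun ⟨u, e⟩ => ⟨u, by rw [← e]; ring⟩) id⟩

end Pool.Agent.MP_28f2cb_lc.H85
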