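import Pool.Agent.MP_28f2cb_lc.H85.HG

/-! The family has no point above an integer. -/

namespace Pool.Agent.MP_28f2cb_lc.H85

theorem sqP_of_mod (p : ℕ) [hp : Fact p.Prime] (h2 : p ≠ 2) {a b c : ℤ} (ha : ¬ (p : ℤ) ∣ a)
    (hc : ¬ (p : ℤ) ∣ c) (h : (p : ℤ) ∣ a * c ^ 2 - b ^ 2) : SqP p a := by
  have hb : ¬ (p : ℤ) ∣ b := fun hb => ndvd_mul p ha (ndvd_mul p hc hc) (by
    have := dvd_add h (hb.mul_left b)
    rwa [show a * c ^ 2 - b ^ 2 + b * b = a * (c * c) by ring] at this)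
  have b0 : (b : ℚ) ≠ 0 := by exact_mod_cast ne0_of_ndvd hb
  have c0 : (c : ℚ) ≠ 0 := by exact_mod_cast ne0_of_ndvd hc
  have he := ((sm_dvd1 h).div0 (val_int hb)).div0 (val_int hb)
  have e : (a : ℚ) = (b / c) ^ 2 * (1 + ((a * c ^ 2 - b ^ 2 : ℤ) : ℚ) / b / b) := by
    push_cast; field_simp; ring
  rw [e]
  exact SqP.mul p (pow_ne_zero 2 (div_ne_zero b0 c0)) (one_add_ne p he)
    (sqP_sq p (div_ne_zero b0 c0)) (sqP_one_add_odd p h2 he)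

theorem sound_odd (p : ℕ) [hp : Fact p.Prime] (h2 : p ≠ 2) {x s1 s0 t1 t0 r B g G : ℤ}
    (hs1 : ¬ ((p : ℤ) ∣ s1 ∧ (p : ℤ) ∣ s0)) (ht : ¬ ((p : ℤ) ∣ t1 ∧ (p : ℤ) ∣ t0))
    (hB : B = 2 * (s1 ^ 2 - x * s0 ^ 2)) (hg : g = t0 ^ 2 + 2 * t1 ^ 2)
    (hG : G = (8 * s0 ^ 2 * t1) ^ 2 - B * ((4 * s1 * t1 + 2 * s0 * t0) ^ 2 + r * g)) :
    hs p B g = 0 ∨ (G ≠ 0 ∧ hs p B G = 0) := by
  have pp := Nat.prime_iff_prime_int.1 hp.out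
  have p2 : ¬ (p : ℤ) ∣ 2 := nd_prime hp.out Nat.prime_two h2
  have p4 : ¬ (p : ℤ) ∣ 4 := ndvd_mul p p2 p2
  have p8 : ¬ (p : ℤ) ∣ 8 := ndvd_mul p p4 p2
  by_cases b : (p : ℤ) ∣ B
  · by_cases c : (p : ℤ) ∣ t1
    · left
      have c0 : ¬ (p : ℤ) ∣ t0 := fun h => ht ⟨c, h⟩
      have d : (p : ℤ) ∣ g * 1 ^ 2 - t0 ^ 2 := by
        rw [show g * 1 ^ 2 - t0 ^ 2 = 2 * t1 * t1 by rw [hg]; ring]; exact c.mul_left _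
      rw [hs_comm]
      refine hs_of_sqP (sqP_of_mod p h2 (fun h => c0 (pp.dvd_of_dvd_pow (n := 2) ?_)) (nd1 p) d) _
      exact (dvd_iff_dvd_of_dvd_sub d).1 (h.mul_right _)
    · right
      have c0 : ¬ (p : ℤ) ∣ s0 := fun h => hs1 ⟨pp.dvd_of_dvd_pow (n := 2) (by
        have h1 := (pp.dvd_or_dvd (hB ▸ b)).resolve_left p2
        exact (dvd_iff_dvd_of_dvd_sub h1).2 ((h.pow two_ne_zero).mul_left _)), h⟩
      have d : (p : ℤ) ∣ G * 1 ^ 2 - (8 * s0 ^ 2 * t1) ^ 2 := by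
        rw [show G * 1 ^ 2 - (8 * s0 ^ 2 * t1) ^ 2 =
          B * -((4 * s1 * t1 + 2 * s0 * t0) ^ 2 + r * g) by rw [hG]; ring]
        exact b.mul_right _
      have n : ¬ (p : ℤ) ∣ G := fun h => ndvd_mul p (ndvd_mul p p8
        fun h => c0 (pp.dvd_of_dvd_pow h)) c (pp.dvd_of_dvd_pow (n := 2)
          ((dvd_iff_dvd_of_dvd_sub d).1 (h.mul_right _)))
      refine ⟨ne0_of_ndvd n, ?_⟩
      rw [hs_comm]
      exact hs_of_sqP (sqP_of_mod p h2 n (nd1 p) d) _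
  by_cases c : (p : ℤ) ∣ g
  swap
  · exact Or.inl (hs_unit h2 (V_int p b) (V_int p c))
  by_cases d : (p : ℤ) ∣ G
  swap
  · exact Or.inr ⟨ne0_of_ndvd d, hs_unit h2 (V_int p b) (V_int p d)⟩
  have e : (p : ℤ) ∣ B * (4 * s1 * t1 + 2 * s0 * t0) ^ 2 - (8 * s0 ^ 2 * t1) ^ 2 := by
    rw [show B * (4 * s1 * t1 + 2 * s0 * t0) ^ 2 - (8 * s0 ^ 2 * t1) ^ 2 = -G - B * r * g by
      rw [hG]; ring]
    exact dvd_sub d.neg_right (c.mul_left _)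
  refine Or.inl (hs_of_sqP (sqP_of_mod p h2 b (fun w => ?_) e) _)
  have c1 : ¬ (p : ℤ) ∣ t1 := fun h => ht ⟨h, pp.dvd_of_dvd_pow (n := 2) (by
    rw [hg] at c
    exact (dvd_add_left ((h.pow two_ne_zero).mul_left _)).1 c)⟩
  have c2 := pp.dvd_of_dvd_pow (n := 2) ((dvd_iff_dvd_of_dvd_sub e).1
    ((w.pow two_ne_zero).mul_left _))
  have c3 : (p : ℤ) ∣ s0 := pp.dvd_of_dvd_pow (n := 2)
    ((pp.dvd_or_dvd ((pp.dvd_or_dvd c2).resolve_right c1)).resolve_left p8)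
  have c4 : (p : ℤ) ∣ 4 * s1 * t1 := (dvd_add_left ((c3.mul_left _).mul_right _)).1 w
  exact hs1 ⟨(pp.dvd_or_dvd ((pp.dvd_or_dvd c4).resolve_right c1)).resolve_left p4, c3⟩

def eE (z : ZMod 8) : ZMod 2 := if z = 3 ∨ z = 7 then 1 else 0
def eW (z : ZMod 8) : ZMod 2 := if z = 3 ∨ z = 5 then 1 else 0
def od (z : ZMod 8) : Prop := z = 1 ∨ z = 3 ∨ z = 5 ∨ z = 7

instance : DecidablePred od := fun z => by unfold od; infer_instance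

theorem cls8 {m : ℤ} (h : od m) : ¬ (2 : ℤ) ∣ m ∧ fE m = eE m ∧ fW m = eW m := by
  have key : ∀ r : ℤ, (m : ZMod 8) = r → m % 8 = r % 8 := fun r hr =>
    (ZMod.intCast_eq_intCast_iff' m r 8).1 hr
  unfold fE fW
  rcases h with h | h | h | h
  · have := key 1 (by simpa using h)
    rw [h, if_neg (by omega), if_neg (by omega)]
    exact ⟨by omega, by decide, by decide⟩
  · have := key 3 (by simpa using h)
    rw [h, if_pos (by omega), if_pos (by omega)]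
    exact ⟨by omega, by decide, by decide⟩
  · have := key 5 (by simpa using h)
    rw [h, if_neg (by omega), if_pos (by omega)]
    exact ⟨by omega, by decide, by decide⟩
  · have := key 7 (by simpa using h)
    rw [h, if_pos (by omega), if_neg (by omega)]
    exact ⟨by omega, by decide, by decide⟩

theorem form2 (a : ℕ) {m : ℤ} (h : od m) : padicValRat 2 ((2 ^ a * m : ℤ) : ℚ) = a ∧
    E ((2 ^ a * m : ℤ) : ℚ) = eE m ∧ W ((2 ^ a * m : ℤ) : ℚ) = eW m := by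
  obtain ⟨h1, h2, h3⟩ := cls8 h
  have e : ((2 ^ a * m : ℤ) : ℚ) = ((2 : ℕ) : ℚ) ^ (a : ℤ) * m / (1 : ℤ) := by push_cast; simp
  rw [e]
  refine ⟨val_form 2 a h1 (nd1 2), ?_, ?_⟩
  · rw [E, ext_form 2 add_fE a h1 (nd1 2), h2, addOn_one 2 add_fE, add_zero]
  · rw [W, ext_form 2 add_fW a h1 (nd1 2), h3, addOn_one 2 add_fW, add_zero]

theorem hs2_form (a b : ℕ) {m n : ℤ} (hm : od m) (hn : od n) :
    hs 2 ((2 ^ a * m : ℤ) : ℚ) ((2 ^ b * n : ℤ) : ℚ) = eE m * eE n + a * eW n + b * eW m := by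
  obtain ⟨a1, a2, a3⟩ := form2 a hm
  obtain ⟨b1, b2, b3⟩ := form2 b hn
  unfold hs V
  rw [if_pos rfl, a1, a2, a3, b1, b2, b3]
  simp

/-- the condition on residues modulo eight -/
def P8 (a b c : ZMod 2) (m n k : ZMod 8) : Prop := od m ∧ od n ∧ od k ∧
  (eE m * eE n + a * eW n + b * eW m = 1 ∨ eE m * eE k + a * eW k + c * eW m = 1)

instance (a b c : ZMod 2) (m n k : ZMod 8) : Decidable (P8 a b c m n k) := by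
  unfold P8; infer_instance

theorem two_case (a b c : ℕ) (m n k r r' : ℤ) {B g H w G : ℤ} (hB : B = 2 ^ a * (m + 8 * r))
    (hg : g = 2 ^ b * n) (hH : H = 2 ^ c * (k + 8 * r')) (hac : a + c ≤ 3)
    (hG : G = (8 * w) ^ 2 - B * H) (h : P8 a b c m n k) :
    hs 2 B g = 1 ∨ (G ≠ 0 ∧ hs 2 B G = 1) := by
  have e8 : ∀ m r : ℤ, ((m + 8 * r : ℤ) : ZMod 8) = m := fun m r => by
    push_cast; rw [show (8 : ZMod 8) = 0 from rfl]; ring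
  rw [← e8 m r, ← e8 k r'] at h
  obtain ⟨h1, h2, h3, h4⟩ := h
  refine h4.imp (fun h => by rw [hB, hg, hs2_form a b h1 h2, h]) fun h => ?_
  rw [← hs2_form a c h1 h3, ← hB, ← hH] at h
  have vB := (form2 a h1).1
  have vH := (form2 c h3).1
  rw [← hB] at vB
  rw [← hH] at vH
  have B0 : (B : ℚ) ≠ 0 := by
    rw [hB]; exact_mod_cast mul_ne_zero (by positivity) (ne0_of_ndvd (p := 2) (cls8 h1).1)
  have H0 : (H : ℚ) ≠ 0 := by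
    rw [hH]; exact_mod_cast mul_ne_zero (by positivity) (ne0_of_ndvd (p := 2) (cls8 h3).1)
  have he : Sm 2 3 (((8 * w) ^ 2 : ℤ) * (-B * H : ℚ)⁻¹) :=
    ((sm_dvd (p := 2) (n := 6) ⟨w ^ 2, by push_cast; ring⟩).mul (sm_val _)).mono (by
      rw [padicValRat.inv, padicValRat.mul (neg_ne_zero.2 B0) H0, padicValRat.neg, vB, vH]
      omega)
  have e : (G : ℚ) = -B * H * (1 + ((8 * w) ^ 2 : ℤ) * (-B * H : ℚ)⁻¹) := by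
    rw [hG]; push_cast; field_simp; ring
  have n0 := mul_ne_zero (neg_ne_zero.2 B0) H0
  refine ⟨?_, ?_⟩
  · have : (G : ℚ) ≠ 0 := e ▸ mul_ne_zero n0 (one_add_ne 2 (he.mono (by norm_num)))
    exact_mod_cast this
  · rw [e, hs_comm, hs_approx 2 n0 he, hs_comm, hs_mul_right 2 _ (neg_ne_zero.2 B0) H0,
      hs_neg_self 2 B0, zero_add, h]

theorem d1 : ∀ i j k l : ZMod 8, P8 1 0 0 ((2 * i + 1) ^ 2 - 3 * (2 * j) ^ 2)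
    ((2 * k + 1) ^ 2 + 2 * l ^ 2) ((4 * (2 * i + 1) * l + 2 * (2 * j) * (2 * k + 1)) ^ 2 +
      (-3 * (2 * i + 1) ^ 2 + 4 * (2 * i + 1) * (2 * j) - 6 * (2 * j) ^ 2) *
        ((2 * k + 1) ^ 2 + 2 * l ^ 2)) := by decide +kernel

theorem d2 : ∀ i j k l : ZMod 8, P8 1 1 1 ((2 * i + 1) ^ 2 - 3 * (2 * j) ^ 2)
    (2 * k ^ 2 + (2 * l + 1) ^ 2)
    ((-3 * (2 * i + 1) ^ 2 + 4 * (2 * i + 1) * (2 * j) - 6 * (2 * j) ^ 2) *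
        (2 * k ^ 2 + (2 * l + 1) ^ 2)) := by decide +kernel

theorem d3 : ∀ i j k l : ZMod 8, P8 1 0 1 ((2 * i) ^ 2 - 3 * (2 * j + 1) ^ 2)
    ((2 * k + 1) ^ 2 + 2 * l ^ 2) (2 * (2 * (2 * i) * l + (2 * j + 1) * (2 * k + 1)) ^ 2 +
      (-6 * i ^ 2 + 4 * i * (2 * j + 1) - 3 * (2 * j + 1) ^ 2) *
        ((2 * k + 1) ^ 2 + 2 * l ^ 2)) := by decide +kernel

theorem d4 : ∀ i j k l : ZMod 8, P8 1 1 0 ((2 * i) ^ 2 - 3 * (2 * j + 1) ^ 2)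
    (2 * k ^ 2 + (2 * l + 1) ^ 2) (4 * (2 * i * (2 * l + 1) + (2 * j + 1) * k) ^ 2 +
      (-6 * i ^ 2 + 4 * i * (2 * j + 1) - 3 * (2 * j + 1) ^ 2) *
        (2 * k ^ 2 + (2 * l + 1) ^ 2)) := by decide +kernel

theorem d5 : ∀ i j k l : ZMod 8, P8 0 0 0 (2 * i ^ 2 + 2 * i - 1 - 6 * j ^ 2 - 6 * j)
    ((2 * k + 1) ^ 2 + 2 * l ^ 2) ((4 * (2 * i + 1) * l + 2 * (2 * j + 1) * (2 * k + 1)) ^ 2 +
      (-3 * (2 * i + 1) ^ 2 + 4 * (2 * i + 1) * (2 * j + 1) - 6 * (2 * j + 1) ^ 2) *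
        ((2 * k + 1) ^ 2 + 2 * l ^ 2)) := by decide +kernel

theorem d6 : ∀ i j k l : ZMod 8, P8 0 1 1 (2 * i ^ 2 + 2 * i - 1 - 6 * j ^ 2 - 6 * j)
    (2 * k ^ 2 + (2 * l + 1) ^ 2)
    ((-3 * (2 * i + 1) ^ 2 + 4 * (2 * i + 1) * (2 * j + 1) - 6 * (2 * j + 1) ^ 2) *
        (2 * k ^ 2 + (2 * l + 1) ^ 2)) := by decide +kernel

theorem sound_two {x s1 s0 t1 t0 B g G : ℤ}
    (hs1 : ¬ ((2 : ℤ) ∣ s1 ∧ (2 : ℤ) ∣ s0)) (ht : ¬ ((2 : ℤ) ∣ t1 ∧ (2 : ℤ) ∣ t0))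
    (hB : B = 2 * (s1 ^ 2 - (16 * x ^ 2 + 3) * s0 ^ 2)) (hg : g = t0 ^ 2 + 2 * t1 ^ 2)
    (hG : G = (8 * s0 ^ 2 * t1) ^ 2 - B * ((4 * s1 * t1 + 2 * s0 * t0) ^ 2 +
      (-3 * s1 ^ 2 + 4 * s1 * s0 + (256 * x ^ 4 - 6) * s0 ^ 2) * g)) :
    hs 2 B g = 1 ∨ (G ≠ 0 ∧ hs 2 B G = 1) := by
  rw [mul_assoc] at hG
  have c2 : ((2 : ℕ) : ZMod 2) = 0 := rfl
  rcases Int.even_or_odd' s1 with ⟨i, rfl | rfl⟩ <;> rcases Int.even_or_odd' s0 with ⟨j, rfl | rfl⟩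
  · exact absurd ⟨by omega, by omega⟩ hs1
  all_goals rcases Int.even_or_odd' t0 with ⟨k, rfl | rfl⟩
  · obtain ⟨l, rfl⟩ : ∃ l, t1 = 2 * l + 1 := ⟨t1 / 2, by omega⟩
    refine two_case 1 1 2 ((2 * i) ^ 2 - 3 * (2 * j + 1) ^ 2) (2 * k ^ 2 + (2 * l + 1) ^ 2)
      (4 * (2 * i * (2 * l + 1) + (2 * j + 1) * k) ^ 2 +
        (-6 * i ^ 2 + 4 * i * (2 * j + 1) - 3 * (2 * j + 1) ^ 2) * (2 * k ^ 2 + (2 * l + 1) ^ 2))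
      (-2 * x ^ 2 * (2 * j + 1) ^ 2) (16 * x ^ 4 * (2 * j + 1) ^ 2 * (2 * k ^ 2 + (2 * l + 1) ^ 2))
      (by rw [hB]; ring) (by rw [hg]; ring) (by rw [hg]; ring) le_rfl hG ?_
    rw [c2]; push_cast; exact d4 _ _ _ _
  · refine two_case 1 0 1 ((2 * i) ^ 2 - 3 * (2 * j + 1) ^ 2) ((2 * k + 1) ^ 2 + 2 * t1 ^ 2)
      (2 * (2 * (2 * i) * t1 + (2 * j + 1) * (2 * k + 1)) ^ 2 +
        (-6 * i ^ 2 + 4 * i * (2 * j + 1) - 3 * (2 * j + 1) ^ 2) * ((2 * k + 1) ^ 2 + 2 * t1 ^ 2))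
      (-2 * x ^ 2 * (2 * j + 1) ^ 2) (16 * x ^ 4 * (2 * j + 1) ^ 2 * ((2 * k + 1) ^ 2 + 2 * t1 ^ 2))
      (by rw [hB]; ring) (by rw [hg]; ring) (by rw [hg]; ring) (by norm_num) hG ?_
    push_cast; exact d3 _ _ _ _
  · obtain ⟨l, rfl⟩ : ∃ l, t1 = 2 * l + 1 := ⟨t1 / 2, by omega⟩
    refine two_case 1 1 1 ((2 * i + 1) ^ 2 - 3 * (2 * j) ^ 2) (2 * k ^ 2 + (2 * l + 1) ^ 2)
      ((-3 * (2 * i + 1) ^ 2 + 4 * (2 * i + 1) * (2 * j) - 6 * (2 * j) ^ 2) *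
        (2 * k ^ 2 + (2 * l + 1) ^ 2))
      (-2 * x ^ 2 * (2 * j) ^ 2) (((2 * i + 1) * (2 * l + 1) + 2 * j * k) ^ 2 +
        32 * x ^ 4 * (2 * j) ^ 2 * (2 * k ^ 2 + (2 * l + 1) ^ 2))
      (by rw [hB]; ring) (by rw [hg]; ring) (by rw [hg]; ring) (by norm_num) hG ?_
    push_cast; exact d2 _ _ _ _
  · refine two_case 1 0 0 ((2 * i + 1) ^ 2 - 3 * (2 * j) ^ 2) ((2 * k + 1) ^ 2 + 2 * t1 ^ 2)
      ((4 * (2 * i + 1) * t1 + 2 * (2 * j) * (2 * k + 1)) ^ 2 +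
        (-3 * (2 * i + 1) ^ 2 + 4 * (2 * i + 1) * (2 * j) - 6 * (2 * j) ^ 2) *
          ((2 * k + 1) ^ 2 + 2 * t1 ^ 2))
      (-2 * x ^ 2 * (2 * j) ^ 2) (32 * x ^ 4 * (2 * j) ^ 2 * ((2 * k + 1) ^ 2 + 2 * t1 ^ 2))
      (by rw [hB]; ring) (by rw [hg]; ring) (by rw [hg]; ring) (by norm_num) hG ?_
    push_cast; exact d1 _ _ _ _
  · obtain ⟨l, rfl⟩ : ∃ l, t1 = 2 * l + 1 := ⟨t1 / 2, by omega⟩
    refine two_case 2 1 1 (2 * i ^ 2 + 2 * i - 1 - 6 * j ^ 2 - 6 * j) (2 * k ^ 2 + (2 * l + 1) ^ 2)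
      ((-3 * (2 * i + 1) ^ 2 + 4 * (2 * i + 1) * (2 * j + 1) - 6 * (2 * j + 1) ^ 2) *
        (2 * k ^ 2 + (2 * l + 1) ^ 2))
      (-x ^ 2 * (2 * j + 1) ^ 2) (((2 * i + 1) * (2 * l + 1) + (2 * j + 1) * k) ^ 2 +
        32 * x ^ 4 * (2 * j + 1) ^ 2 * (2 * k ^ 2 + (2 * l + 1) ^ 2))
      (by rw [hB]; ring) (by rw [hg]; ring) (by rw [hg]; ring) le_rfl hG ?_
    rw [c2]; push_cast; exact d6 _ _ _ _
  · refine two_case 2 0 0 (2 * i ^ 2 + 2 * i - 1 - 6 * j ^ 2 - 6 * j) ((2 * k + 1) ^ 2 + 2 * t1 ^ 2)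
      ((4 * (2 * i + 1) * t1 + 2 * (2 * j + 1) * (2 * k + 1)) ^ 2 +
        (-3 * (2 * i + 1) ^ 2 + 4 * (2 * i + 1) * (2 * j + 1) - 6 * (2 * j + 1) ^ 2) *
          ((2 * k + 1) ^ 2 + 2 * t1 ^ 2))
      (-x ^ 2 * (2 * j + 1) ^ 2) (32 * x ^ 4 * (2 * j + 1) ^ 2 * ((2 * k + 1) ^ 2 + 2 * t1 ^ 2))
      (by rw [hB]; ring) (by rw [hg]; ring) (by rw [hg]; ring) (by norm_num) hG ?_
    rw [c2]; push_cast; exact d5 _ _ _ _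

end Pool.Agent.MP_28f2cb_lc.H85
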