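import Pool.Agent.MP_28f2cb_lc.H85.HL
import Pool.Agent.MP_28f2cb_lc.H85.HK

/-! The family has a point above every non-integer. -/

namespace Pool.Agent.MP_28f2cb_lc.H85

theorem chat' {β A B C : ℚ} (hβ : 0 < β) (hB : B ≠ 0) (h0 : hs 2 β (-2) = 1) (p : ℕ) (hp : p.Prime)
    (p2 : p ≠ 2) (loc : ∀ q : ℕ, q.Prime → ∃ t1 t0 : ℚ, t0 ≠ 0 ∧
      A * t1 ^ 2 + B * t1 * t0 + C * t0 ^ 2 ≠ 0 ∧
      hs q β (t0 ^ 2 + 2 * t1 ^ 2) = (if q = 2 ∨ q = p then 1 else 0) ∧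
      hs q β (A * t1 ^ 2 + B * t1 * t0 + C * t0 ^ 2) = (if q = 2 ∨ q = p then 1 else 0)) :
    ∃ y z : ℚ, (∃ u, (1 + 2 * u ^ 2) * (A * u ^ 2 + B * u + C) = y ^ 2 - β * z ^ 2) ∨
      2 * A = y ^ 2 - β * z ^ 2 := by
  by_cases hA : A = 0
  · exact ⟨0, 0, Or.inr (by simp [hA])⟩
  have e : ∀ u, A * u ^ 2 + B * u + C =
      A * ((u - -B / (2 * A)) ^ 2 - ((-B / (2 * A)) ^ 2 - C / A)) := fun u => by field_simp; ring
  have hh : -B / (2 * A) ≠ 0 := div_ne_zero (neg_ne_zero.2 hB) (mul_ne_zero two_ne_zero hA)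
  generalize -B / (2 * A) = h at e hh
  generalize h ^ 2 - C / A = D at e
  by_cases hD : D = 0
  · exact ⟨0, 0, Or.inl ⟨h, by simp [e, hD]⟩⟩
  obtain ⟨y, z, H⟩ := chat (β := β) (a1 := 2) (a2 := A) (D1 := -1 / 2) (D2 := D) (h := h) hβ
    two_ne_zero hA (by norm_num) hD (by
      have : RR (-1 / 2) D h = (h ^ 2 - 1 / 2 - D) ^ 2 + 2 * h ^ 2 := by unfold RR; ring
      rw [this]; positivity)
    (by rw [← h0, ← hs_sq_right 2 β (b := -2) (s := 1 / 2) (by norm_num) (by norm_num)]; norm_num)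
    (fun q => if q = 2 ∨ q = p then 1 else 0) {2, p} (by simp [hp, Nat.prime_two])
    (fun q _ hn => if_neg (by simpa using hn)) (by rw [Finset.sum_pair p2.symm]; simp [z2])
    (fun q hq => by
      have := Fact.mk hq
      obtain ⟨t1, t0, a0, a1, a2, a3⟩ := loc q hq
      have e1 : 2 * ((t1 / t0) ^ 2 - -1 / 2) = (t0 ^ 2 + 2 * t1 ^ 2) * (t0⁻¹) ^ 2 := by
        field_simp; ring
      have e2 : A * ((t1 / t0 - h) ^ 2 - D) =
          (A * t1 ^ 2 + B * t1 * t0 + C * t0 ^ 2) * (t0⁻¹) ^ 2 := by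
        rw [← e]; field_simp
      refine ⟨t1 / t0, ne_of_gt (by linarith [sq_nonneg (t1 / t0)]), fun h0 => ?_, ?_, ?_⟩
      · rw [h0, mul_zero] at e2
        exact mul_ne_zero a1 (pow_ne_zero 2 (inv_ne_zero a0)) e2.symm
      · rw [e1, hs_sq_right q β (by positivity) (inv_ne_zero a0), a2]
      · rw [e2, hs_sq_right q β a1 (inv_ne_zero a0), a3])
  exact ⟨y, z, H.imp (fun ⟨u, H⟩ => ⟨u, by rw [← H, e]; ring⟩) id⟩

theorem exists_form (p : ℕ) [hp : Fact p.Prime] (h2 : p ≠ 2) : ∃ t1 t0 : ℤ, t0 ≠ 0 ∧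
    ¬ (p : ℤ) ∣ t0 ^ 2 + 2 * t1 ^ 2 ∧ fL p (t0 ^ 2 + 2 * t1 ^ 2) = 1 := by
  obtain ⟨n, hn, h1⟩ := exists_nonres p h2
  have t2 : (2 : ZMod p) ≠ 0 := by
    have := nd_prime hp.out Nat.prime_two h2
    rw [← ZMod.intCast_zmod_eq_zero_iff_dvd] at this
    simpa using this
  obtain ⟨a, b, e⟩ := FiniteField.exists_root_sum_quadratic (R := ZMod p)
    (f := Polynomial.X ^ 2 - Polynomial.C (n : ZMod p)) (g := Polynomial.C 2 * Polynomial.X ^ 2)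
    (Polynomial.degree_X_pow_sub_C two_pos _) (Polynomial.degree_C_mul_X_pow 2 t2)
    (by rw [ZMod.card]; exact hp.out.eq_two_or_odd.resolve_left h2)
  have m : ((a.val : ℤ) + p) ^ 2 + 2 * (b.val : ℤ) ^ 2 ≡ n [ZMOD p] := by
    rw [← ZMod.intCast_eq_intCast_iff]
    simp only [Polynomial.eval_sub, Polynomial.eval_pow, Polynomial.eval_X, Polynomial.eval_C,
      Polynomial.eval_mul] at e
    push_cast
    simp only [ZMod.natCast_val, ZMod.cast_id', id_eq, ZMod.natCast_self, add_zero]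
    linear_combination e
  refine ⟨b.val, a.val + p, by have := hp.out.pos; positivity, fun h => hn (m.dvd_iff.1 h),
    (fL_per p m).trans h1⟩

/-- the second quadratic form, cleared of denominators -/
def GG (a b S B t1 t0 : ℤ) : ℤ := (8 * (b ^ 3 * t1)) ^ 2 - B * (b ^ 2 * (4 * S * t1 + 2 * b * t0) ^ 2 +
  (256 * a ^ 4 - 3 * S ^ 2 * b ^ 2 + 4 * S * b ^ 3 - 6 * b ^ 4) * (t0 ^ 2 + 2 * t1 ^ 2))

theorem loc_two {a e k B : ℤ} (hB : B = 2 * ((4 * e) ^ 2 - 16 * a ^ 2 - 3 * (2 * k + 1) ^ 2)) :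
    hs 2 B (-2) = 1 ∧ hs 2 B 3 = 1 ∧ GG a (2 * k + 1) (4 * e) B 1 1 ≠ 0 ∧
      hs 2 B (GG a (2 * k + 1) (4 * e) B 1 1) = 1 := by
  obtain ⟨j, hj⟩ : ∃ j, k ^ 2 + k = 2 * j := by
    obtain ⟨j, hj⟩ := Int.even_mul_succ_self k
    exact ⟨j, by linarith⟩
  have b2 : (2 * k + 1) ^ 2 = 1 + 8 * j := by linarith
  have eB : B = 2 ^ 1 * (5 + 8 * (2 * e ^ 2 - 2 * a ^ 2 - 1 - 3 * j)) := by rw [hB, b2]; ring
  have c : ((5 + 8 * (2 * e ^ 2 - 2 * a ^ 2 - 1 - 3 * j) : ℤ) : ZMod 8) = 5 := by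
    push_cast; rw [show (8 : ZMod 8) = 0 from rfl]; ring
  have o : od ((5 + 8 * (2 * e ^ 2 - 2 * a ^ 2 - 1 - 3 * j) : ℤ) : ZMod 8) := by rw [c]; decide
  refine ⟨?_, ?_, ?_⟩
  · have := hs2_form 1 1 (n := -1) o (by decide)
    rw [← eB, c] at this
    exact (by norm_num : hs 2 B (-2) = _).trans (this.trans (by decide))
  · have := hs2_form 1 0 (n := 3) o (by decide)
    rw [← eB, c] at this
    exact (by norm_num : hs 2 B 3 = _).trans (this.trans (by decide))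
  · refine (two_case 1 0 1 5 1 1 _ (48 * a ^ 4 + 7 * e ^ 2 * (1 + 8 * j) +
      7 * e * (2 * k + 1) * (1 + 8 * j) - 1 - 14 * j - 56 * j ^ 2) (g := 1) eB (by norm_num) ?_
      (by norm_num) rfl (by decide)).resolve_left ?_
    · have b3 : (2 * k + 1) ^ 3 = (2 * k + 1) * (1 + 8 * j) := by rw [← b2]; ring
      have b4 : (2 * k + 1) ^ 4 = (1 + 8 * j) ^ 2 := by rw [← b2]; ring
      linear_combination (112 * e ^ 2) * b2 + 112 * e * b3 - 14 * b4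
    · rw [Int.cast_one, hs_comm, hs_one_left]; exact zero_ne_one

theorem loc_p (p : ℕ) [hp : Fact p.Prime] (h2 : p ≠ 2) {a b S B : ℤ} (ha : ¬ (p : ℤ) ∣ a)
    (hb : (p : ℤ) ∣ b) (hB : padicValRat p B = 1) : ∃ t1 t0 : ℤ, t0 ≠ 0 ∧ GG a b S B t1 t0 ≠ 0 ∧
      hs p B (t0 ^ 2 + 2 * t1 ^ 2 : ℤ) = 1 ∧ hs p B (GG a b S B t1 t0) = 1 := by
  obtain ⟨t1, t0, c0, c1, c2⟩ := exists_form p h2
  have B0 : (B : ℚ) ≠ 0 := by rintro h; simp [h] at hB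
  have p2 : ¬ (p : ℤ) ∣ 2 := nd_prime hp.out Nat.prime_two h2
  have p16 : ¬ (p : ℤ) ∣ 16 * a ^ 2 := by
    have := ndvd_mul p (ndvd_mul p (ndvd_mul p p2 p2) (ndvd_mul p p2 p2)) (ndvd_mul p ha ha)
    rwa [show 2 * 2 * (2 * 2) * (a * a) = 16 * a ^ 2 by ring] at this
  have h1 : hs p B (t0 ^ 2 + 2 * t1 ^ 2 : ℤ) = 1 := by
    unfold hs
    rw [if_neg h2, V_int p c1, L_int p c1, c2, show V p B = 1 by unfold V; rw [hB]; rfl]; ring
  obtain ⟨c, rfl⟩ := hb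
  have hG : (p : ℤ) ^ 2 ∣ GG a (p * c) S B t1 t0 + B * (16 * a ^ 2) ^ 2 * (t0 ^ 2 + 2 * t1 ^ 2) :=
    ⟨64 * p ^ 4 * c ^ 6 * t1 ^ 2 - B * (c ^ 2 * (4 * S * t1 + 2 * (p * c) * t0) ^ 2 +
      (-3 * S ^ 2 * c ^ 2 + 4 * S * p * c ^ 3 - 6 * p ^ 2 * c ^ 4) * (t0 ^ 2 + 2 * t1 ^ 2)), by
      unfold GG; ring⟩
  refine ⟨t1, t0, c0, ?_⟩
  generalize GG a (p * c) S B t1 t0 = G at hG ⊢
  generalize t0 ^ 2 + 2 * t1 ^ 2 = g at *
  generalize 16 * a ^ 2 = w at *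
  have g0 : (g : ℚ) ≠ 0 := by exact_mod_cast ne0_of_ndvd c1
  have w0 : (w : ℚ) ≠ 0 := by exact_mod_cast ne0_of_ndvd p16
  have n0 : (-B * g * w ^ 2 : ℚ) ≠ 0 := by simp [B0, g0, w0]
  have he : Sm p 1 ((G + B * w ^ 2 * g : ℤ) * (-B * g * w ^ 2 : ℚ)⁻¹) :=
    ((sm_dvd hG).mul (sm_val _)).mono (by
      rw [padicValRat.inv, padicValRat.mul (by simp [B0, g0]) (by simp [w0]),
        padicValRat.mul (by simp [B0]) g0, padicValRat.neg, padicValRat.pow, hB, val_int c1,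
        val_int p16]
      norm_num)
  have e : (G : ℚ) = -B * g * w ^ 2 * (1 + (G + B * w ^ 2 * g : ℤ) * (-B * g * w ^ 2 : ℚ)⁻¹) := by
    push_cast; field_simp; ring
  refine ⟨?_, h1, ?_⟩
  · have : (G : ℚ) ≠ 0 := e ▸ mul_ne_zero n0 (one_add_ne p he)
    exact_mod_cast this
  · rw [e, hs_mul_right p _ n0 (one_add_ne p he), hs_comm p _ (1 + _),
      hs_of_sqP (sqP_one_add_odd p h2 he), hs_sq_right p _ (by simp [B0, g0]) w0,
      hs_mul_right p _ (by simp [B0]) g0, hs_neg_self p B0, h1]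
    simp

theorem loc_q (q : ℕ) [hq : Fact q.Prime] (h2 : q ≠ 2) {a b S B : ℤ}
    (hab : ¬ ((q : ℤ) ∣ a ∧ (q : ℤ) ∣ b)) (B0 : B ≠ 0)
    (hB : B = 2 * (S ^ 2 - 16 * a ^ 2 - 3 * b ^ 2)) : ∃ t1 t0 : ℤ, t0 ≠ 0 ∧ GG a b S B t1 t0 ≠ 0 ∧
      hs q B (t0 ^ 2 + 2 * t1 ^ 2 : ℤ) = 0 ∧ hs q B (GG a b S B t1 t0) = 0 := by
  have pp := Nat.prime_iff_prime_int.1 hq.out
  have p2 : ¬ (q : ℤ) ∣ 2 := nd_prime hq.out Nat.prime_two h2
  have p16 : ¬ (q : ℤ) ∣ 16 := ndvd_mul q (ndvd_mul q p2 p2) (ndvd_mul q p2 p2)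
  have g1 : hs q B ((1 : ℤ) ^ 2 + 2 * 0 ^ 2 : ℤ) = 0 := by
    rw [hs_comm, ← hs_one_left q B]; norm_num
  have g9 : hs q B 9 = 0 := by
    rw [hs_comm, ← hs_sq q (s := 3) B (by norm_num)]; norm_num
  have sq : ∀ G w : ℤ, ¬ (q : ℤ) ∣ w → (q : ℤ) ∣ G * 1 ^ 2 - w ^ 2 → G ≠ 0 ∧ hs q B G = 0 :=
    fun G w hw d => by
      have n : ¬ (q : ℤ) ∣ G := fun h => hw (pp.dvd_of_dvd_pow (n := 2)
        ((dvd_iff_dvd_of_dvd_sub d).1 (h.mul_right _)))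
      exact ⟨ne0_of_ndvd n, by rw [hs_comm]; exact hs_of_sqP (sqP_of_mod q h2 n (nd1 q) d) _⟩
  by_cases hb : (q : ℤ) ∣ b
  · have ha : ¬ (q : ℤ) ∣ a := fun h => hab ⟨h, hb⟩
    obtain ⟨k1, k2⟩ := sq (256 * a ^ 4 - 3 * S ^ 2 * b ^ 2 + 4 * S * b ^ 3 - 2 * b ^ 4) (16 * (a * a))
      (ndvd_mul q p16 (ndvd_mul q ha ha))
      (hb.trans ⟨-3 * S ^ 2 * b + 4 * S * b ^ 2 - 2 * b ^ 3, by ring⟩)
    have e : GG a b S B 0 1 = -B * (256 * a ^ 4 - 3 * S ^ 2 * b ^ 2 + 4 * S * b ^ 3 - 2 * b ^ 4) := by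
      unfold GG; ring
    have B0' : (B : ℚ) ≠ 0 := by exact_mod_cast B0
    refine ⟨0, 1, one_ne_zero, e ▸ mul_ne_zero (neg_ne_zero.2 B0) k1, g1, ?_⟩
    rw [e, Int.cast_mul, Int.cast_neg, hs_mul_right q _ (neg_ne_zero.2 B0') (by exact_mod_cast k1),
      hs_neg_self q B0', k2, add_zero]
  by_cases hd : (q : ℤ) ∣ B
  · obtain ⟨k1, k2⟩ := sq (GG a b S B 2 1) (16 * (b * (b * b)))
      (ndvd_mul q p16 (ndvd_mul q hb (ndvd_mul q hb hb))) (hd.trans ⟨-(b ^ 2 * (8 * S + 2 * b) ^ 2 +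
        (256 * a ^ 4 - 3 * S ^ 2 * b ^ 2 + 4 * S * b ^ 3 - 6 * b ^ 4) * 9), by unfold GG; ring⟩)
    exact ⟨2, 1, one_ne_zero, k1, by rw [← g9]; norm_num, k2⟩
  have un : ∀ G : ℤ, ¬ (q : ℤ) ∣ G → G ≠ 0 ∧ hs q B G = 0 := fun G h =>
    ⟨ne0_of_ndvd h, hs_unit h2 (V_int q hd) (V_int q h)⟩
  by_cases c0 : (q : ℤ) ∣ GG a b S B 0 1
  swap
  · exact ⟨0, 1, one_ne_zero, (un _ c0).1, g1, (un _ c0).2⟩
  by_cases c1 : (q : ℤ) ∣ GG a b S B 2 1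
  swap
  · exact ⟨2, 1, one_ne_zero, (un _ c1).1, by rw [← g9]; norm_num, (un _ c1).2⟩
  by_cases c2 : (q : ℤ) ∣ GG a b S B (-2) 1
  swap
  · exact ⟨-2, 1, one_ne_zero, (un _ c2).1, by rw [← g9]; norm_num, (un _ c2).2⟩
  exfalso
  have hB' := congrArg (Int.cast : ℤ → ZMod q) hB
  rw [← ZMod.intCast_zmod_eq_zero_iff_dvd] at c0 c1 c2 hb hd p2
  unfold GG at c0 c1 c2
  push_cast at c0 c1 c2 hB' p2
  generalize (a : ZMod q) = a at *
  generalize (b : ZMod q) = b at *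
  generalize (S : ZMod q) = S at *
  generalize (B : ZMod q) = B at *
  have s0 : S = 0 := by
    have : 2 ^ 6 * B * b ^ 3 * S = 0 := by linear_combination c2 - c1
    simpa [p2, hb, hd] using this
  subst s0
  have e1 : 128 * a ^ 4 = b ^ 4 := by
    have : 2 * B * (128 * a ^ 4 - b ^ 4) = 0 := by linear_combination -c0
    simpa [p2, hd, sub_eq_zero] using this
  have e2 : B + 8 * b ^ 2 = 0 := by
    have : 2 ^ 5 * b ^ 4 * (B + 8 * b ^ 2) = 0 := by linear_combination c1 + 18 * B * e1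
    simpa [p2, hb] using this
  have e3 : 16 * a ^ 2 = b ^ 2 := by
    have : 2 * (16 * a ^ 2 - b ^ 2) = 0 := by linear_combination hB' - e2
    simpa [p2, sub_eq_zero] using this
  have : b ^ 4 = 0 := by linear_combination -2 * e1 + (16 * a ^ 2 + b ^ 2) * e3
  exact hb (by simpa using this)

/-- the parameter of the conic bundle -/
def Pb {R : Type} [CommRing R] (x s : R) : R := 2 * (s ^ 2 - 16 * x ^ 2 - 3)

/-- the second quadratic form -/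
def Pg {R : Type} [CommRing R] (x s t1 t0 : R) : R := 64 * t1 ^ 2 - Pb x s *
  ((4 * s * t1 + 2 * t0) ^ 2 + (256 * x ^ 4 - 3 * s ^ 2 + 4 * s - 6) * (t0 ^ 2 + 2 * t1 ^ 2))

/-- the surfaces -/
def Pm {R : Type} [CommRing R] (x s t1 t0 y z : R) : R :=
  y ^ 2 - Pb x s * z ^ 2 - (t0 ^ 2 + 2 * t1 ^ 2) * Pg x s t1 t0

theorem complete_odd (x : ℚ) (h2 : ¬ 2 ∣ x.den) (h1 : x.den ≠ 1) :
    ∃ s u y z : ℚ, Pm x s u 1 y z = 0 ∨ Pm x s 1 0 y z = 0 := by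
  obtain ⟨p, hp, hd⟩ := Nat.exists_prime_and_dvd h1
  have := Fact.mk hp
  have p2 : p ≠ 2 := by rintro rfl; exact h2 hd
  have cop : ∀ q : ℕ, q.Prime → ¬ ((q : ℤ) ∣ |x.num| ∧ (q : ℤ) ∣ (x.den : ℤ)) := fun q hq h =>
    hq.one_lt.ne' (Nat.eq_one_of_dvd_coprimes x.reduced (Int.natCast_dvd.1 ((dvd_abs _ _).1 h.1))
      (Int.natCast_dvd_natCast.1 h.2))
  have hx : x ^ 2 * ((x.den : ℤ) : ℚ) ^ 2 = ((|x.num| : ℤ) : ℚ) ^ 2 := by
    push_cast; rw [sq_abs, ← Rat.mul_den_eq_num]; ring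
  have a0 := abs_nonneg x.num
  have b0 : (0 : ℤ) < x.den := by exact_mod_cast x.den_pos
  have hd' : (p : ℤ) ∣ x.den := Int.natCast_dvd_natCast.2 hd
  obtain ⟨k, hk⟩ : ∃ k : ℤ, (x.den : ℤ) = 2 * k + 1 := ⟨x.den / 2, by omega⟩
  generalize |x.num| = a at *
  generalize (x.den : ℤ) = b at *
  have pa : ¬ (p : ℤ) ∣ a := fun h => cop p hp ⟨h, hd'⟩
  have p1 : (1 : ℤ) ≤ p := by exact_mod_cast hp.pos
  obtain ⟨e, he⟩ : ∃ e, e = a + p * (b + 1) := ⟨_, rfl⟩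
  obtain ⟨B, hB⟩ : ∃ B, B = 2 * ((4 * e) ^ 2 - 16 * a ^ 2 - 3 * b ^ 2) := ⟨_, rfl⟩
  have e0 : a + b < e := by nlinarith
  have B0 : 0 < B := by nlinarith
  have vB : padicValRat p B = 1 := by
    obtain ⟨c, rfl⟩ := hd'
    have d2 : ¬ (p : ℤ) ∣ 2 := nd_prime hp Nat.prime_two p2
    have d8 := ndvd_mul p (ndvd_mul p d2 d2) d2
    have n : ¬ (p : ℤ) ∣ 64 * a + p * (64 * a * c + 32 * (p * c + 1) ^ 2 - 6 * c ^ 2) := fun h =>
      ndvd_mul p (ndvd_mul p d8 d8) pa ((dvd_add_left (dvd_mul_right _ _)).1 h)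
    rw [← val_form p 1 n (nd1 p), hB, he]
    congr 1; push_cast; simp only [zpow_one]; ring
  obtain ⟨w1, w2, w3, w4⟩ := loc_two (a := a) (e := e) (k := k) (hk ▸ hB)
  rw [← hk] at w3 w4
  obtain ⟨ρ, hρ⟩ : ∃ ρ, ρ = 256 * a ^ 4 - 3 * (4 * e) ^ 2 * b ^ 2 + 4 * (4 * e) * b ^ 3 - 6 * b ^ 4 :=
    ⟨_, rfl⟩
  have eG : ∀ t1 t0 : ℤ, ((64 * b ^ 6 - B * (256 * b ^ 2 * e ^ 2 + 2 * ρ) : ℤ) : ℚ) * t1 ^ 2 +
      (-64 * B * b ^ 3 * e : ℤ) * t1 * t0 + (-B * (4 * b ^ 4 + ρ) : ℤ) * t0 ^ 2 =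
      GG a b (4 * e) B t1 t0 := fun t1 t0 => by
    rw [hρ]; unfold GG; push_cast; ring
  obtain ⟨y, z, H⟩ := chat' (β := B) (A := (64 * b ^ 6 - B * (256 * b ^ 2 * e ^ 2 + 2 * ρ) : ℤ))
    (B := (-64 * B * b ^ 3 * e : ℤ)) (C := (-B * (4 * b ^ 4 + ρ) : ℤ)) (by exact_mod_cast B0)
    (by
      have : 0 < e := by omega
      exact_mod_cast (by simp [B0.ne', b0.ne', this.ne'] : -64 * B * b ^ 3 * e ≠ 0)) w1 p hp p2
    (fun q hq => by
      have := Fact.mk hq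
      obtain ⟨t1, t0, c0, c1, c2, c3⟩ : ∃ t1 t0 : ℤ, t0 ≠ 0 ∧ GG a b (4 * e) B t1 t0 ≠ 0 ∧
          hs q B (t0 ^ 2 + 2 * t1 ^ 2 : ℤ) = (if q = 2 ∨ q = p then 1 else 0) ∧
          hs q B (GG a b (4 * e) B t1 t0) = (if q = 2 ∨ q = p then 1 else 0) := by
        by_cases q2 : q = 2
        · subst q2
          exact ⟨1, 1, one_ne_zero, w3, by simpa using w2, by simpa using w4⟩
        by_cases qp : q = p
        · subst qp
          simpa only [or_true, if_true] using loc_p q q2 pa hd' vB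
        · simpa only [q2, qp, or_self, if_false] using loc_q q q2 (cop q hq) B0.ne' hB
      refine ⟨t1, t0, by exact_mod_cast c0, ?_, by exact_mod_cast c2, ?_⟩ <;> rw [eG]
      · exact_mod_cast c1
      · exact c3)
  have b0' : (b : ℚ) ≠ 0 := by exact_mod_cast b0.ne'
  have hx' : x ^ 2 = a ^ 2 / b ^ 2 := by rw [← hx]; field_simp
  have x4 : x ^ 4 = a ^ 4 / b ^ 4 := by rw [show x ^ 4 = (x ^ 2) ^ 2 by ring, hx']; field_simp
  have key : ∀ t1 t0 : ℚ, Pm x (4 * e / b) t1 t0 (y / b ^ 3) (z / b ^ 2) =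
      (y ^ 2 - B * z ^ 2 - (t0 ^ 2 + 2 * t1 ^ 2) *
        (((64 * b ^ 6 - B * (256 * b ^ 2 * e ^ 2 + 2 * ρ) : ℤ) : ℚ) * t1 ^ 2 +
      (-64 * B * b ^ 3 * e : ℤ) * t1 * t0 + (-B * (4 * b ^ 4 + ρ) : ℤ) * t0 ^ 2)) / b ^ 6 := by
    intro t1 t0
    unfold Pm Pg Pb
    rw [hx', x4, hB, hρ]
    push_cast
    field_simp
    ring
  rcases H with ⟨u, H⟩ | H
  · exact ⟨_, u, _, _, Or.inl (by rw [key, ← H]; simp)⟩
  · exact ⟨_, 0, _, _, Or.inr (by rw [key, ← H]; simp)⟩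

theorem sound_int (x s1 s0 t1 t0 : ℤ) (h0 : s0 ≠ 0) (hs1 : IsCoprime s1 s0) (ht : IsCoprime t1 t0)
    (y z : ℚ) : Pm (x : ℚ) (s1 / s0) t1 t0 y z ≠ 0 := by
  intro h
  have cp : ∀ {a b : ℤ}, IsCoprime a b → ∀ p : ℕ, p.Prime → ¬ ((p : ℤ) ∣ a ∧ (p : ℤ) ∣ b) :=
    fun hc p hp h => (Nat.prime_iff_prime_int.1 hp).not_isUnit (hc.isUnit_of_dvd' h.1 h.2)
  obtain ⟨B, hB⟩ : ∃ B, B = 2 * (s1 ^ 2 - (16 * x ^ 2 + 3) * s0 ^ 2) := ⟨_, rfl⟩
  obtain ⟨g, hg⟩ : ∃ g, g = t0 ^ 2 + 2 * t1 ^ 2 := ⟨_, rfl⟩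
  obtain ⟨G, hG⟩ : ∃ G, G = (8 * s0 ^ 2 * t1) ^ 2 - B * ((4 * s1 * t1 + 2 * s0 * t0) ^ 2 +
      (-3 * s1 ^ 2 + 4 * s1 * s0 + (256 * x ^ 4 - 6) * s0 ^ 2) * g) := ⟨_, rfl⟩
  have s0' : (s0 : ℚ) ≠ 0 := by exact_mod_cast h0
  have e : (g : ℚ) * G = (y * s0 ^ 2) ^ 2 - B * (z * s0) ^ 2 := by
    rw [hG, hB, hg]
    unfold Pm Pg Pb at h
    field_simp at h
    push_cast
    linear_combination -h
  have g0 : 0 < g := by
    have := ht.ne_zero_or_ne_zero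
    rw [hg]
    rcases this with h | h <;> positivity
  have g0' : (g : ℚ) ≠ 0 := by exact_mod_cast g0.ne'
  have two := sound_two (cp hs1 2 Nat.prime_two) (cp ht 2 Nat.prime_two) hB hg hG
  have B0 : (B : ℚ) ≠ 0 := by
    intro h
    have h1 : ∀ c, hs 2 0 c = 0 := fun c => by
      simp [hs, E, W, V, ext, up, fE, fW]
    rw [h, h1, h1] at two
    simp at two
  have eq : ∀ p : ℕ, p.Prime → G ≠ 0 → hs p B g = hs p B G := fun p hp hG0 => by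
    have := Fact.mk hp
    have G0 : (G : ℚ) ≠ 0 := by exact_mod_cast hG0
    have := hs_norm p B0 (e ▸ mul_ne_zero g0' G0)
    rw [← e, hs_mul_right p _ g0' G0] at this
    linear_combination this - z2 (hs p B G)
  have r := recip_one B0 g0' Nat.prime_two fun p hp p2 => by
    have := Fact.mk hp
    exact (sound_odd p p2 (cp hs1 p hp) (cp ht p hp) hB hg hG).elim id fun h =>
      (eq p hp h.1).trans h.2
  rw [two.elim id fun h => (eq 2 Nat.prime_two h.1).trans h.2,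
    hinf_zero.2 fun h => absurd h.2 (by exact_mod_cast g0.le.not_gt)] at r
  exact one_ne_zero r

theorem three_sq (x : ℚ) : 2 ∣ x.den ↔ ∃ y z w : ℚ, 7 + 8 * x ^ 4 = y ^ 2 + z ^ 2 + w ^ 2 := by
  have h0 : -(7 + 8 * x ^ 4) < 0 := by simp only [neg_lt_zero]; positivity
  have hm : hs 2 (-1) (-1) = 1 := by simp [hs, E_neg_one, V_neg_one]
  constructor
  · intro h
    have x0 : x ≠ 0 := by rintro rfl; simp at h
    have hv : padicValRat 2 x ≤ -1 := by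
      have h4 : ¬ ((2 : ℕ) : ℤ) ∣ x.num := fun h4 =>
        (by norm_num : 2 ≠ 1) (Nat.eq_one_of_dvd_coprimes x.reduced (Int.natCast_dvd.1 h4) h)
      have := one_le_padicValNat_of_dvd x.den_nz h
      rw [padicValRat_def, padicValInt.eq_zero_of_not_dvd h4]
      omega
    obtain ⟨y, z, w, e⟩ := complete4 (d := -1) (c := -1) h0.ne (by norm_num) (by norm_num)
      (fun p hp h1 h2 => by
        by_cases p2 : p = 2
        swap
        · rw [hs_unit p2 (V_neg_one p) (V_neg_one p)] at h1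
          exact zero_ne_one h1
        subst p2
        have n0 : 2 * (2 * x ^ 2) ^ 2 ≠ 0 := by positivity
        have he : Sm 2 1 (7 * (2 * (2 * x ^ 2) ^ 2)⁻¹) := (sm_nat 7).mul0' ((sm_val _).mono (by
          have : padicValRat 2 2 = 1 := padicValRat.self (p := 2) (by norm_num)
          rw [padicValRat.inv, padicValRat.mul two_ne_zero (by positivity), padicValRat.pow,
            padicValRat.mul two_ne_zero (by positivity), padicValRat.pow, this]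
          push_cast; omega))
        have h3 := h2.1
        rw [V_neg, show 7 + 8 * x ^ 4 = 2 * (2 * x ^ 2) ^ 2 * (1 + 7 * (2 * (2 * x ^ 2) ^ 2)⁻¹) by
          field_simp; ring, V_mul 2 n0 (one_add_ne 2 he), V_one_add 2 he,
          V_mul 2 two_ne_zero (by positivity), (sqP_sq 2 (by positivity)).1, V_two] at h3
        simp at h3) (fun _ _ => h0)
    exact ⟨y, z, w, by linarith⟩
  · rintro ⟨y, z, w, e⟩
    by_contra h
    have h8 : Sm 2 3 (-8 * (1 + x ^ 4)) :=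
      (sm_dvd (p := 2) (n := 3) (x := -8) (by norm_num)).mul0 (sm_one.add ((sm_den h).pow0 4))
    have := sound4 2 (d := -1) (c := -1) (y := y) (z := z) (w := w) h0.ne (by norm_num) (by norm_num)
      (by linarith) (by convert sqP_one_add 2 h8 using 1; ring)
    rw [hm] at this
    exact one_ne_zero this

theorem not_int_iff (x : ℚ) : (¬ ∃ z : ℤ, (z : ℚ) = x) ↔ ∃ s u y z : ℚ,
    Pm x s u 1 y z * Pm x s 1 0 y z * (7 + 8 * x ^ 4 - (y ^ 2 + z ^ 2 + u ^ 2)) = 0 := by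
  constructor
  · intro h
    by_cases h2 : 2 ∣ x.den
    · obtain ⟨y, z, w, e⟩ := (three_sq x).1 h2
      exact ⟨0, w, y, z, by rw [e]; ring⟩
    · obtain ⟨s, u, y, z, e⟩ := complete_odd x h2 fun h1 => h ⟨x.num, (Rat.den_eq_one_iff x).1 h1⟩
      exact ⟨s, u, y, z, by rcases e with e | e <;> simp [e]⟩
  · rintro ⟨s, u, y, z, e⟩ ⟨x, rfl⟩
    have cp : ∀ r : ℚ, IsCoprime r.num (r.den : ℤ) := fun r => Int.isCoprime_iff_gcd_eq_one.2 r.reduced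
    have d0 : ∀ r : ℚ, (r.den : ℤ) ≠ 0 := fun r => by exact_mod_cast r.den_nz
    have es : (s.num : ℚ) / ((s.den : ℤ) : ℚ) = s := Rat.num_div_den s
    rcases mul_eq_zero.1 e with e | e
    · rcases mul_eq_zero.1 e with e | e
      · refine sound_int x s.num s.den u.num u.den (d0 s) (cp s) (cp u) (y * u.den ^ 2)
          (z * u.den ^ 2) ?_
        rw [es, ← Rat.mul_den_eq_num]
        unfold Pm Pg at e ⊢
        push_cast
        linear_combination (u.den : ℚ) ^ 4 * e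
      · refine sound_int x s.num s.den 1 0 (d0 s) (cp s) isCoprime_one_left y z ?_
        rw [es]; exact_mod_cast e
    · have := (three_sq x).2 ⟨y, z, u, by linarith⟩
      simp at this

end Pool.Agent.MP_28f2cb_lc.H85
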